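import Pool.Agent.H514.IS.BoxL

/-! The Tate-Shafarevich groups of the 2-isogenous curves: the curves ordered by height. -/

set_option autoImplicit false

open scoped Classical

namespace Pool.Agent.H514.IS

open Finset Filter Pool.Agent.W307.RT Pool.Agent.W262.SH Pool.Agent.H514

lemma ShaBig.mono {x x' : ℝ} {W : WeierstrassCurve ℚ} (h : x ≤ x') (hW : ShaBig x' W) :
    ShaBig x W := by
  obtain ⟨n, hn, hf⟩ := hW
  exact ⟨n, h.trans hn, hf⟩

/-- the quotient of `y² = x³ + a x + b` by the subgroup generated by the point `(e, 0)` -/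
def Quo (a e : ℤ) : WeierstrassCurve ℚ := ⟨0, -6 * (e : ℚ), 0, -3 * (e : ℚ) ^ 2 - 4 * (a : ℚ), 0⟩

/-- every root is the first root of a parametrisation -/
lemma rel_root {c : ℤ × ℤ} {e : ℤ} (h : ∃ ab, Rel2 c ab) (he : e ^ 3 + c.1 * e + c.2 = 0) :
    ∃ e2 : ℤ, Rel2 c (e2 - e, -2 * e - e2) := by
  obtain ⟨ab, e1, e2, -, h12, h13, h23, hA, hB⟩ := h
  have h1 : (e - e1) * ((e - e2) * (e + e1 + e2)) = 0 := by
    rw [hA, hB] at he
    linear_combination he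
  rcases mul_eq_zero.1 h1 with h2 | h2
  · have h3 : e = e1 := sub_eq_zero.1 h2
    subst h3
    exact ⟨e2, e, e2, rfl, h12, h13, h23, hA, hB⟩
  rcases mul_eq_zero.1 h2 with h3 | h3
  · have h4 : e = e2 := sub_eq_zero.1 h3
    subst h4
    refine ⟨e1, e, e1, rfl, Ne.symm h12, ?_, ?_, ?_, ?_⟩
    · intro h
      apply h23
      linarith
    · intro h
      apply h13
      linarith
    · rw [hA]
      ring
    · rw [hB]
      ring
  · have h4 : e = -e1 - e2 := by linarith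
    subst h4
    refine ⟨e1, -e1 - e2, e1, rfl, ?_, ?_, ?_, ?_, ?_⟩
    · intro h
      apply h13
      linarith
    · intro h
      apply h23
      linarith
    · intro h
      apply h12
      linarith
    · rw [hA]
      ring
    · rw [hB]
      ring

lemma quo_eq {c : ℤ × ℤ} {e e2 : ℤ} (h : Rel2 c (e2 - e, -2 * e - e2)) :
    Quo c.1 e = D (2 * ((e2 - e) + (-2 * e - e2))) (((e2 - e) - (-2 * e - e2)) ^ 2) := by
  obtain ⟨f1, f2, h1, -, -, -, hA, -⟩ := h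
  rw [Prod.mk.injEq] at h1
  have h3 : f1 = e := by linarith [h1.1, h1.2]
  have h4 : f2 = e2 := by linarith [h1.1]
  subst h3 h4
  unfold Quo D
  simp only [WeierstrassCurve.mk.injEq, true_and, and_true]
  refine ⟨?_, ?_⟩
  · push_cast
    ring
  · rw [hA]
    push_cast
    ring

lemma rel_ne {c ab : ℤ × ℤ} (h : Rel2 c ab) : ab.1 ≠ 0 ∧ ab.2 ≠ 0 ∧ ab.1 ≠ ab.2 := by
  obtain ⟨e1, e2, rfl, h12, h13, h23, -, -⟩ := h
  refine ⟨sub_ne_zero.2 (Ne.symm h12), fun h => h13 ?_, fun h => h23 ?_⟩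
  · simp only at h
    linarith
  · simp only at h
    linarith

/-- the curves -/
theorem fin_large {ε δ : ℝ} (hε : 0 < ε) (hδ : 0 < δ) : ∃ H0 : ℕ, ∀ H : ℕ, H0 ≤ H →
    (((Cv 2 H).filter (fun c : ℤ × ℤ => ∃ e : ℤ, e ^ 3 + c.1 * e + c.2 = 0 ∧
      ¬ ShaBig ((3 / 2 - ε) * Real.log (Real.log H)) (Quo c.1 e))).card : ℝ) ≤
        δ * (Cv 2 H).card := by
  set ε' : ℝ := min ε 1 with hε'
  have hε'0 : 0 < ε' := lt_min hε one_pos
  have hε'1 : ε' ≤ 1 := min_le_right _ _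
  have hε'ε : ε' ≤ ε := min_le_left _ _
  obtain ⟨c0, C1, T1, hc0, hlow⟩ := low2
  set Dn : ℕ := 54 * C1 + 1 with hDn
  have hD1 : 1 ≤ Dn := by omega
  obtain ⟨T2, hT2⟩ := box_large (ε := ε' / 2) (δ := δ * c0 / (4 * (Dn : ℝ) ^ 2)) (by positivity)
    (by positivity)
  obtain ⟨T3, hT3⟩ := (tendsto_atTop.1 tend_ll (9 / ε')).exists_forall_of_atTop
  set Tm : ℕ := max (max (Dn * (T1 + 1)) T2) (max T3 16) with hTm
  refine ⟨Tm ^ 6, fun H hH => ?_⟩
  -- the size of the parameters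
  set T : ℕ := Nat.findGreatest (fun t => t ^ 6 ≤ 54 * H) (54 * H) with hT
  have hle : ∀ x : ℕ, x ^ 6 ≤ 54 * H → x ≤ T := fun x hx =>
    Nat.le_findGreatest ((Nat.le_self_pow (by omega) x).trans hx) hx
  have hTk : T ^ 6 ≤ 54 * H := Nat.findGreatest_spec (P := fun t => t ^ 6 ≤ 54 * H)
    (Nat.zero_le _) (by rw [zero_pow (by omega)]; exact Nat.zero_le _)
  have hTs : 54 * H < (T + 1) ^ 6 := by
    by_contra h
    rw [not_lt] at h
    have := hle (T + 1) h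
    omega
  have hTmT : Tm ≤ T := hle _ (hH.trans (by omega))
  have hTD : Dn * (T1 + 1) ≤ T := ((le_max_left _ _).trans (le_max_left _ _)).trans hTmT
  have hTT2 : T2 ≤ T := ((le_max_right _ _).trans (le_max_left _ _)).trans hTmT
  have hTT3 : T3 ≤ T := ((le_max_left _ _).trans (le_max_right _ _)).trans hTmT
  have hT16 : 16 ≤ T := ((le_max_right _ _).trans (le_max_right _ _)).trans hTmT
  -- the number of the curves
  set T' := T / Dn with hT'
  have hT'0 : T1 + 1 ≤ T' := by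
    rw [hT', Nat.le_div_iff_mul_le hD1, mul_comm]
    exact hTD
  have h2 : T' * Dn ≤ T := Nat.div_mul_le_self T Dn
  have h3 : C1 * T' ^ 6 ≤ H := by
    have a1 : (T' * Dn) ^ 6 ≤ 54 * H := (Nat.pow_le_pow_left h2 6).trans hTk
    rw [mul_pow] at a1
    have a2 : Dn ≤ Dn ^ 6 := Nat.le_self_pow (by omega) Dn
    have a3 : T' ^ 6 * (54 * C1) ≤ 54 * H :=
      (Nat.mul_le_mul_left _ (by omega : 54 * C1 ≤ Dn ^ 6)).trans a1
    have a4 : 54 * (C1 * T' ^ 6) ≤ 54 * H := by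
      calc 54 * (C1 * T' ^ 6) = T' ^ 6 * (54 * C1) := by ring
        _ ≤ _ := a3
    omega
  have h4 := hlow T' H (by omega) h3
  have h5 : T ≤ 2 * Dn * T' := by
    have a1 : T < Dn * (T' + 1) := by
      rw [mul_comm]
      exact Nat.lt_mul_of_div_lt (by rw [← hT']; omega) hD1
    have a2 : Dn * (T' + 1) ≤ 2 * Dn * T' := by nlinarith
    omega
  have h6 : (T : ℝ) ≤ 2 * Dn * T' := by exact_mod_cast h5
  have h7 : (T : ℝ) ^ 2 ≤ 4 * (Dn : ℝ) ^ 2 / c0 * (Cv 2 H).card := by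
    calc (T : ℝ) ^ 2 ≤ (2 * Dn * T') ^ 2 := pow_le_pow_left₀ (Nat.cast_nonneg T) h6 2
      _ = 4 * (Dn : ℝ) ^ 2 / c0 * (c0 * (T' : ℝ) ^ 2) := by
        field_simp
        ring
      _ ≤ _ := mul_le_mul_of_nonneg_left h4 (by positivity)
  -- the logarithms
  have hTr : (16 : ℝ) ≤ T := by exact_mod_cast hT16
  have hH16 : 16 ≤ H := by
    have : 16 ^ 6 ≤ Tm ^ 6 :=
      Nat.pow_le_pow_left ((le_max_right _ _).trans (le_max_right _ _)) 6
    omega
  have hHr : (16 : ℝ) ≤ H := by exact_mod_cast hH16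
  have hlogT : 0 < Real.log T := Real.log_pos (by linarith)
  have hlogH1 : 1 ≤ Real.log H := by
    rw [Real.le_log_iff_exp_le (by linarith)]
    have := Real.exp_one_lt_d9
    linarith
  have hLH0 : 0 ≤ Real.log (Real.log H) := Real.log_nonneg hlogH1
  have hLH : Real.log (Real.log H) ≤ 3 + Real.log (Real.log T) := by
    have a1 : (H : ℝ) ≤ (T : ℝ) ^ 12 := by
      have a2 : H ≤ T ^ 12 := by
        have a3 : T + 1 ≤ T ^ 2 := by nlinarith
        calc H ≤ 54 * H := by omega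
          _ ≤ (T + 1) ^ 6 := hTs.le
          _ ≤ (T ^ 2) ^ 6 := Nat.pow_le_pow_left a3 6
          _ = T ^ 12 := by ring
      exact_mod_cast a2
    have a4 : Real.log H ≤ 12 * Real.log T := by
      have := Real.log_le_log (by linarith) a1
      rw [Real.log_pow] at this
      exact_mod_cast this
    have a6 := Real.log_le_log (by linarith) a4
    rw [Real.log_mul (by norm_num) hlogT.ne'] at a6
    have a7 : Real.log 12 ≤ 3 := by
      rw [Real.log_le_iff_le_exp (by norm_num)]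
      have b1 := Real.exp_one_gt_d9
      have b2 : (2.7182818283 : ℝ) ^ 3 ≤ (Real.exp 1) ^ 3 :=
        pow_le_pow_left₀ (by norm_num) b1.le 3
      rw [← Real.exp_nat_mul] at b2
      norm_num at b2
      linarith
    linarith
  have hLT : 9 / ε' ≤ Real.log (Real.log T) := hT3 T hTT3
  have hcmp : (3 / 2 - ε) * Real.log (Real.log H) ≤ (3 / 2 - ε' / 2) * Real.log (Real.log T) := by
    have b1 : (3 / 2 - ε) * Real.log (Real.log H) ≤ (3 / 2 - ε') * Real.log (Real.log H) :=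
      mul_le_mul_of_nonneg_right (by linarith) hLH0
    have b2 : (3 / 2 - ε') * Real.log (Real.log H) ≤
        (3 / 2 - ε') * (3 + Real.log (Real.log T)) :=
      mul_le_mul_of_nonneg_left hLH (by linarith)
    rw [div_le_iff₀ hε'0] at hLT
    nlinarith
  -- the comparison
  have hbad := hT2 T hTT2
  have hchoose : ∀ c ∈ (Cv 2 H).filter (fun c : ℤ × ℤ => ∃ e : ℤ, e ^ 3 + c.1 * e + c.2 = 0 ∧
      ¬ ShaBig ((3 / 2 - ε) * Real.log (Real.log H)) (Quo c.1 e)), ∃ ab, Rel2 c ab ∧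
      ab ∈ (Box T).filter (fun t : ℤ × ℤ => (t.1 ≠ 0 ∧ t.2 ≠ 0 ∧ t.1 ≠ t.2) ∧
      ¬ ShaBig ((3 / 2 - ε' / 2) * Real.log (Real.log T))
        (D (2 * (t.1 + t.2)) ((t.1 - t.2) ^ 2))) := by
    intro c hc
    rw [mem_filter] at hc
    obtain ⟨hc, e, he, hS⟩ := hc
    have hc' := hc
    simp only [Cv, Finset.mem_filter] at hc'
    obtain ⟨-, hDc, hH1, -, -, hTc⟩ := hc'
    have r : ∃ ab, Rel2 c ab := core2 (A := c.1) (B := c.2) hDc hTc
    obtain ⟨e2, r2⟩ := rel_root r he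
    refine ⟨_, r2, ?_⟩
    obtain ⟨hb1, hb2⟩ := rel2_bound (A := c.1) (B := c.2) r2 hH1
    rw [mem_filter, mem_Box]
    refine ⟨⟨hle _ hb1, hle _ hb2⟩, rel_ne r2, fun hS' => hS ?_⟩
    rw [quo_eq r2]
    exact hS'.mono hcmp
  choose! G hG1 hG2 using hchoose
  have hcard : ((Cv 2 H).filter (fun c : ℤ × ℤ => ∃ e : ℤ, e ^ 3 + c.1 * e + c.2 = 0 ∧
      ¬ ShaBig ((3 / 2 - ε) * Real.log (Real.log H)) (Quo c.1 e))).card ≤
      ((Box T).filter (fun t : ℤ × ℤ => (t.1 ≠ 0 ∧ t.2 ≠ 0 ∧ t.1 ≠ t.2) ∧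
      ¬ ShaBig ((3 / 2 - ε' / 2) * Real.log (Real.log T))
        (D (2 * (t.1 + t.2)) ((t.1 - t.2) ^ 2)))).card := by
    refine card_le_card_of_injOn G (fun c hc => hG2 c hc) ?_
    intro c hc c' hc' h
    have r1 := hG1 c hc
    have r2 := hG1 c' hc'
    rw [← h] at r2
    exact rel2_unique r1 r2
  calc _ ≤ ((((Box T).filter (fun t : ℤ × ℤ => (t.1 ≠ 0 ∧ t.2 ≠ 0 ∧ t.1 ≠ t.2) ∧
      ¬ ShaBig ((3 / 2 - ε' / 2) * Real.log (Real.log T))
        (D (2 * (t.1 + t.2)) ((t.1 - t.2) ^ 2)))).card : ℕ) : ℝ) := by exact_mod_cast hcard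
    _ ≤ δ * c0 / (4 * (Dn : ℝ) ^ 2) * (T : ℝ) ^ 2 := hbad
    _ ≤ δ * c0 / (4 * (Dn : ℝ) ^ 2) * (4 * (Dn : ℝ) ^ 2 / c0 * (Cv 2 H).card) :=
      mul_le_mul_of_nonneg_left h7 (by positivity)
    _ = _ := by
      field_simp

end Pool.Agent.H514.IS
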