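import Pool.Agent.H514.IS.Tu3
import Pool.Agent.H514.IS.FinI

/-! The second moment over the curves ordered by height. -/

set_option autoImplicit false

open scoped Classical

namespace Pool.Agent.H514.IS

open Finset Filter Pool.Agent.W307.RT Pool.Agent.W262.SH Pool.Agent.H514

lemma quo_fin {H : ℕ} {c : ℤ × ℤ} (hc : c ∈ Cv 2 H) {e : ℤ} (he : e ^ 3 + c.1 * e + c.2 = 0) :
    Finite (Sha2 (Quo c.1 e)) := by
  simp only [Cv, Finset.mem_filter] at hc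
  obtain ⟨-, hDc, hH1, -, -, hTc⟩ := hc
  have r : ∃ ab, Rel2 c ab := core2 (A := c.1) (B := c.2) hDc hTc
  obtain ⟨e2, r2⟩ := rel_root r he
  obtain ⟨h1, h2, h3⟩ := rel_ne r2
  rw [quo_eq r2]
  exact (sha_log h1 h2 h3).1

/-- the curves -/
theorem fin_turan : ∃ C : ℝ, ∃ H0 : ℕ, ∀ H : ℕ, H0 ≤ H → ∀ r : ℤ × ℤ → ℤ,
    (∀ c ∈ Cv 2 H, (r c) ^ 3 + c.1 * r c + c.2 = 0) →
    ∑ c ∈ Cv 2 H, (lg (Quo c.1 (r c)) - 3 / 2 * Real.log (Real.log H)) ^ 2 ≤
      C * Real.log (Real.log H) * (Cv 2 H).card := by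
  obtain ⟨c0, C1, T1, hc0, hlow⟩ := low2
  set Dn : ℕ := 54 * C1 + 1 with hDn
  have hD1 : 1 ≤ Dn := by omega
  obtain ⟨C, hC0, T2, hT2⟩ := box_turan
  set Tm : ℕ := max (max (Dn * (T1 + 1)) T2) (max 54 16) with hTm
  refine ⟨2 * C * (4 * (Dn : ℝ) ^ 2 / c0) + 81 / 2, Tm ^ 6, fun H hH r hr => ?_⟩
  -- the size of the parameters
  set T : ℕ := Nat.findGreatest (fun t => t ^ 6 ≤ 54 * H) (54 * H) with hT
  have hle : ∀ x : ℕ, x ^ 6 ≤ 54 * H → x ≤ T := fun x hx =>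
    Nat.le_findGreatest ((Nat.le_self_pow (by omega) x).trans hx) hx
  have hTk : T ^ 6 ≤ 54 * H := Nat.findGreatest_spec (P := fun t => t ^ 6 ≤ 54 * H)
    (Nat.zero_le _) (by rw [zero_pow (by omega)]; exact Nat.zero_le _)
  have hTs : 54 * H < (T + 1) ^ 6 := by
    by_contra h
    rw [not_lt] at h
    have := hle (T + 1) h
    omega
  have hTmT : Tm ≤ T := hle _ (hH.trans (by omega))
  have hTD : Dn * (T1 + 1) ≤ T := ((le_max_left _ _).trans (le_max_left _ _)).trans hTmT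
  have hTT2 : T2 ≤ T := ((le_max_right _ _).trans (le_max_left _ _)).trans hTmT
  have hT54 : 54 ≤ T := ((le_max_left _ _).trans (le_max_right _ _)).trans hTmT
  -- the number of the curves
  set T' := T / Dn with hT'
  have hT'0 : T1 + 1 ≤ T' := by
    rw [hT', Nat.le_div_iff_mul_le hD1, mul_comm]
    exact hTD
  have h2 : T' * Dn ≤ T := Nat.div_mul_le_self T Dn
  have h3 : C1 * T' ^ 6 ≤ H := by
    have a1 : (T' * Dn) ^ 6 ≤ 54 * H := (Nat.pow_le_pow_left h2 6).trans hTk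
    rw [mul_pow] at a1
    have a2 : Dn ≤ Dn ^ 6 := Nat.le_self_pow (by omega) Dn
    have a3 : T' ^ 6 * (54 * C1) ≤ 54 * H :=
      (Nat.mul_le_mul_left _ (by omega : 54 * C1 ≤ Dn ^ 6)).trans a1
    have a4 : 54 * (C1 * T' ^ 6) ≤ 54 * H := by
      calc 54 * (C1 * T' ^ 6) = T' ^ 6 * (54 * C1) := by ring
        _ ≤ _ := a3
    omega
  have h4 := hlow T' H (by omega) h3
  have h5 : T ≤ 2 * Dn * T' := by
    have a1 : T < Dn * (T' + 1) := by
      rw [mul_comm]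
      exact Nat.lt_mul_of_div_lt (by rw [← hT']; omega) hD1
    have a2 : Dn * (T' + 1) ≤ 2 * Dn * T' := by nlinarith
    omega
  have h6 : (T : ℝ) ≤ 2 * Dn * T' := by exact_mod_cast h5
  have h7 : (T : ℝ) ^ 2 ≤ 4 * (Dn : ℝ) ^ 2 / c0 * (Cv 2 H).card := by
    calc (T : ℝ) ^ 2 ≤ (2 * Dn * T') ^ 2 := pow_le_pow_left₀ (Nat.cast_nonneg T) h6 2
      _ = 4 * (Dn : ℝ) ^ 2 / c0 * (c0 * (T' : ℝ) ^ 2) := by
        field_simp
        ring
      _ ≤ _ := mul_le_mul_of_nonneg_left h4 (by positivity)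
  -- the logarithms
  have hTr : (54 : ℝ) ≤ T := by exact_mod_cast hT54
  have hTH : T ≤ H := by
    have a1 : T * 54 ^ 5 ≤ T * T ^ 5 := Nat.mul_le_mul_left _ (Nat.pow_le_pow_left hT54 5)
    have a2 : T * T ^ 5 = T ^ 6 := by ring
    rw [a2] at a1
    omega
  have hTHr : (T : ℝ) ≤ H := by exact_mod_cast hTH
  have hlogT : 0 < Real.log T := Real.log_pos (by linarith)
  have hLH : Real.log (Real.log H) ≤ 3 + Real.log (Real.log T) := by
    have a1 : (H : ℝ) ≤ (T : ℝ) ^ 12 := by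
      have a2 : H ≤ T ^ 12 := by
        have a3 : T + 1 ≤ T ^ 2 := by nlinarith
        calc H ≤ 54 * H := by omega
          _ ≤ (T + 1) ^ 6 := hTs.le
          _ ≤ (T ^ 2) ^ 6 := Nat.pow_le_pow_left a3 6
          _ = T ^ 12 := by ring
      exact_mod_cast a2
    have a4 : Real.log H ≤ 12 * Real.log T := by
      have := Real.log_le_log (by linarith) a1
      rw [Real.log_pow] at this
      exact_mod_cast this
    have a5 : 0 < Real.log H := Real.log_pos (by linarith)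
    have a6 := Real.log_le_log a5 a4
    rw [Real.log_mul (by norm_num) hlogT.ne'] at a6
    have a7 : Real.log 12 ≤ 3 := by
      rw [Real.log_le_iff_le_exp (by norm_num)]
      have b1 := Real.exp_one_gt_d9
      have b2 : (2.7182818283 : ℝ) ^ 3 ≤ (Real.exp 1) ^ 3 :=
        pow_le_pow_left₀ (by norm_num) b1.le 3
      rw [← Real.exp_nat_mul] at b2
      norm_num at b2
      linarith
    linarith
  have hTL : Real.log (Real.log T) ≤ Real.log (Real.log H) :=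
    Real.log_le_log hlogT (Real.log_le_log (by linarith) hTHr)
  obtain ⟨hL1, hbox⟩ := hT2 T hTT2
  set LH := Real.log (Real.log H) with hLHd
  set LT := Real.log (Real.log T) with hLTd
  -- the comparison
  have hchoose : ∀ c ∈ Cv 2 H, ∃ ab, Rel2 c ab ∧ ab ∈ (Box T).filter Nd ∧
      Quo c.1 (r c) = D (2 * (ab.1 + ab.2)) ((ab.1 - ab.2) ^ 2) := by
    intro c hc
    have he := hr c hc
    simp only [Cv, Finset.mem_filter] at hc
    obtain ⟨-, hDc, hH1, -, -, hTc⟩ := hc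
    have r1 : ∃ ab, Rel2 c ab := core2 (A := c.1) (B := c.2) hDc hTc
    obtain ⟨e2, r2⟩ := rel_root r1 he
    refine ⟨_, r2, ?_, quo_eq r2⟩
    obtain ⟨hb1, hb2⟩ := rel2_bound (A := c.1) (B := c.2) r2 hH1
    rw [mem_filter, mem_Box]
    exact ⟨⟨hle _ hb1, hle _ hb2⟩, rel_ne r2⟩
  choose! G hG1 hG2 hG3 using hchoose
  have hinj : Set.InjOn G (Cv 2 H : Set (ℤ × ℤ)) := by
    intro c hc c' hc' h
    have r1 := hG1 c hc
    have r2 := hG1 c' hc'
    rw [← h] at r2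
    exact rel2_unique r1 r2
  have hsum : ∑ c ∈ Cv 2 H, (lg (Quo c.1 (r c)) - 3 / 2 * LT) ^ 2 ≤ C * LT * (T : ℝ) ^ 2 := by
    refine le_trans ?_ hbox
    calc ∑ c ∈ Cv 2 H, (lg (Quo c.1 (r c)) - 3 / 2 * LT) ^ 2 =
        ∑ c ∈ Cv 2 H, (lg (D (2 * ((G c).1 + (G c).2)) (((G c).1 - (G c).2) ^ 2)) -
          3 / 2 * LT) ^ 2 := sum_congr rfl fun c hc => by rw [hG3 c hc]
      _ = ∑ t ∈ (Cv 2 H).image G, (lg (D (2 * (t.1 + t.2)) ((t.1 - t.2) ^ 2)) -
          3 / 2 * LT) ^ 2 := by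
        rw [sum_image hinj]
      _ ≤ _ := by
        apply sum_le_sum_of_subset_of_nonneg
        · intro t ht
          obtain ⟨c, hc, rfl⟩ := mem_image.1 ht
          exact hG2 c hc
        · intro t _ _
          exact sq_nonneg _
  have hpt : ∀ c ∈ Cv 2 H, (lg (Quo c.1 (r c)) - 3 / 2 * LH) ^ 2 ≤
      2 * (lg (Quo c.1 (r c)) - 3 / 2 * LT) ^ 2 + 81 / 2 := by
    intro c _
    set x := lg (Quo c.1 (r c))
    have a1 : (x - 3 / 2 * LH) ^ 2 ≤ 2 * (x - 3 / 2 * LT) ^ 2 + 2 * (3 / 2 * (LH - LT)) ^ 2 := by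
      nlinarith [sq_nonneg ((x - 3 / 2 * LT) + (3 / 2 * (LH - LT)))]
    have a2 : (LH - LT) ^ 2 ≤ 9 := by nlinarith
    nlinarith
  refine (sum_le_sum hpt).trans ?_
  rw [sum_add_distrib, ← mul_sum, sum_const, nsmul_eq_mul]
  have hN0 : (0 : ℝ) ≤ (Cv 2 H).card := Nat.cast_nonneg _
  have k1 : C * LT * (T : ℝ) ^ 2 ≤ C * LH * (4 * (Dn : ℝ) ^ 2 / c0 * (Cv 2 H).card) := by
    apply mul_le_mul _ h7 (by positivity) (by nlinarith)
    exact mul_le_mul_of_nonneg_left hTL hC0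
  have k2 : ((Cv 2 H).card : ℝ) * (81 / 2) ≤ 81 / 2 * LH * (Cv 2 H).card := by nlinarith
  calc 2 * ∑ c ∈ Cv 2 H, (lg (Quo c.1 (r c)) - 3 / 2 * LT) ^ 2 + (Cv 2 H).card * (81 / 2) ≤
      2 * (C * LH * (4 * (Dn : ℝ) ^ 2 / c0 * (Cv 2 H).card)) + 81 / 2 * LH * (Cv 2 H).card := by
        linarith
    _ = _ := by ring

end Pool.Agent.H514.IS
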