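import Pool.Agent.H514.IS.Cmp
import Pool.Agent.H514.FinK

/-! The Tate-Shafarevich group is large for almost all the pairs of a box. -/

set_option autoImplicit false

open scoped Classical

namespace Pool.Agent.H514.IS

open Finset Filter Pool.Agent.W307.RT Pool.Agent.W262.SH

/-- the Tate-Shafarevich group contains an elementary abelian group of rank at least `x` -/
def ShaBig (x : ℝ) (W : WeierstrassCurve ℚ) : Prop :=
  ∃ n : ℕ, x ≤ n ∧ ∃ f : (Fin n → ZMod 2) →+ ShaQ W, Function.Injective f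

/-- the theorem of Mertens -/
lemma mert : ∃ C : ℝ, 0 ≤ C ∧ ∀ N : ℕ, 2 ≤ N →
    |(∑ p ∈ (Icc 1 N).filter Nat.Prime, (1 : ℝ) / p) - Real.log (Real.log N)| ≤ C := by
  obtain ⟨M, hM⟩ := Pool.Agent.H305R2.mertens_inv_tendsto
  have h1 := hM.abs
  obtain ⟨C, hC⟩ := h1.bddAbove_range
  refine ⟨max C 0, le_max_right _ _, fun N _ => ?_⟩
  exact (hC ⟨N, rfl⟩).trans (le_max_left _ _)

lemma sum_Pw {C : ℝ} (hC : ∀ N : ℕ, 2 ≤ N →
    |(∑ p ∈ (Icc 1 N).filter Nat.Prime, (1 : ℝ) / p) - Real.log (Real.log N)| ≤ C) {w y : ℕ}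
    (hy : 2 ≤ y) : Real.log (Real.log y) - C - w ≤ ∑ p ∈ Pw w y, (1 : ℝ) / p ∧
      ∑ p ∈ Pw w y, (1 : ℝ) / p ≤ Real.log (Real.log y) + C := by
  have h1 := abs_le.1 (hC y hy)
  have h2 : ∑ p ∈ Pw w y, (1 : ℝ) / p ≤ ∑ p ∈ (Icc 1 y).filter Nat.Prime, (1 : ℝ) / p := by
    apply sum_le_sum_of_subset_of_nonneg
    · intro p hp
      rw [mem_Pw] at hp
      rw [mem_filter, mem_Icc]
      exact ⟨⟨hp.2.one_lt.le, hp.1.2⟩, hp.2⟩
    · intro p _ _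
      positivity
  have h3 : ∑ p ∈ (Icc 1 y).filter Nat.Prime, (1 : ℝ) / p ≤ w + ∑ p ∈ Pw w y, (1 : ℝ) / p := by
    have h4 : (Icc 1 y).filter Nat.Prime ⊆ (Icc 1 w) ∪ Pw w y := by
      intro p hp
      rw [mem_filter, mem_Icc] at hp
      rw [mem_union, mem_Icc, mem_Pw]
      rcases le_or_gt p w with h | h
      · exact Or.inl ⟨hp.1.1, h⟩
      · exact Or.inr ⟨⟨h, hp.1.2⟩, hp.2⟩
    refine (sum_le_sum_of_subset_of_nonneg h4 fun p _ _ => by positivity).trans ?_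
    have h5 : ∑ p ∈ (Icc 1 w) ∪ Pw w y, (1 : ℝ) / p + ∑ p ∈ (Icc 1 w) ∩ Pw w y, (1 : ℝ) / p =
        ∑ p ∈ Icc 1 w, (1 : ℝ) / p + ∑ p ∈ Pw w y, (1 : ℝ) / p := sum_union_inter
    have h6 : 0 ≤ ∑ p ∈ (Icc 1 w) ∩ Pw w y, (1 : ℝ) / p := sum_nonneg fun p _ => by positivity
    have h7 : ∑ p ∈ Icc 1 w, (1 : ℝ) / p ≤ w := by
      calc ∑ p ∈ Icc 1 w, (1 : ℝ) / p ≤ ∑ p ∈ Icc 1 w, (1 : ℝ) := by
            apply sum_le_sum
            intro p hp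
            rw [mem_Icc] at hp
            have : (1 : ℝ) ≤ p := by exact_mod_cast hp.1
            rw [div_le_one (by linarith)]
            exact this
        _ = w := by simp
    linarith
  constructor <;> linarith [h1.1, h1.2]

/-- one good pair -/
lemma one_good {w y T m0 K : ℕ} (hw : 4 ≤ w) (hy : 1 ≤ y) {t : ℤ × ℤ} (hA : t.1 ≠ 0)
    (hB : t.2 ≠ 0) (hAB : t.1 ≠ t.2) (ht : t ∈ Box T) (hT : T < (y + 1) ^ 4) (he : ¬ Exc w t)
    (hK : QS t.1 t.2 ≤ K) (hm0 : 4 + K ≤ 2 ^ m0) {x : ℝ}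
    (hx : x + (w + 7) + m0 ≤ ∑ p ∈ Pw w y, ph p t) :
    ShaBig x (D (2 * (t.1 + t.2)) ((t.1 - t.2) ^ 2)) := by
  have h1 := cmp hw hy hA hB hAB ht hT he
  obtain ⟨n, hn, hf⟩ := sha_low hA hB hAB (selS_finite Pool.Agent.H905.SH.desc5 hA hB hAB)
  refine ⟨n, ?_, hf⟩
  have h2 : 2 ^ (PP t.1 t.2).card ≤ 2 ^ ((KK t.1 t.2).card + (m0 + n)) := by
    refine hn.trans ?_
    rw [pow_add, pow_add]
    apply Nat.mul_le_mul_left
    apply Nat.mul_le_mul_right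
    refine le_trans ?_ hm0
    exact Nat.add_le_add_left hK 4
  have h3 := (Nat.pow_le_pow_iff_right (by norm_num : 1 < 2)).1 h2
  have h4 : ((PP t.1 t.2).card : ℝ) ≤ (KK t.1 t.2).card + (m0 + n) := by exact_mod_cast h3
  linarith

/-- the mean value -/
lemma sum_mu (w y : ℕ) (hw : 1 ≤ w) : (3 / 2) * (∑ p ∈ Pw w y, (1 : ℝ) / p) - 1 ≤
    ∑ p ∈ Pw w y, mu p := by
  have h1 : ∀ p ∈ Pw w y, (3 / 2) * ((1 : ℝ) / p) - (1 / 2) * (1 / (p : ℝ) ^ 2) = mu p := by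
    intro p hp
    have : (0 : ℝ) < p := by exact_mod_cast (mem_Pw.1 hp).2.pos
    unfold mu
    field_simp
  rw [← sum_congr rfl h1, sum_sub_distrib, ← mul_sum, ← mul_sum]
  have h2 : ∑ p ∈ Pw w y, 1 / (p : ℝ) ^ 2 ≤ 1 := by
    have h3 : ∑ p ∈ Pw w y, 1 / (p : ℝ) ^ 2 ≤ ∑ p ∈ Ioc w y, 1 / (p : ℝ) ^ 2 :=
      sum_le_sum_of_subset_of_nonneg (filter_subset _ _) fun p _ _ => by positivity
    have h4 := sum_inv_sq_le (w := w) (N := y) hw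
    have h5 : 1 / (w : ℝ) ≤ 1 := by
      rw [div_le_one (by exact_mod_cast hw)]
      exact_mod_cast hw
    linarith
  linarith

/-- Chebyshev's inequality -/
lemma cheb (S : Finset (ℤ × ℤ)) (f : ℤ × ℤ → ℝ) {a V : ℝ} (ha : 0 < a)
    (hV : ∑ t ∈ S, f t ^ 2 ≤ V) : ((S.filter (fun t => a < |f t|)).card : ℝ) ≤ V / a ^ 2 := by
  rw [le_div_iff₀ (by positivity)]
  refine le_trans ?_ hV
  calc ((S.filter (fun t => a < |f t|)).card : ℝ) * a ^ 2 =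
      ∑ t ∈ S.filter (fun t => a < |f t|), a ^ 2 := by
        rw [sum_const, nsmul_eq_mul]
    _ ≤ ∑ t ∈ S.filter (fun t => a < |f t|), f t ^ 2 := by
        apply sum_le_sum
        intro t ht
        rw [← sq_abs (f t)]
        exact pow_le_pow_left₀ ha.le (mem_filter.1 ht).2.le 2
    _ ≤ _ := sum_le_sum_of_subset_of_nonneg (filter_subset _ _) fun t _ _ => sq_nonneg _

lemma tend_ll : Tendsto (fun T : ℕ => Real.log (Real.log T)) atTop atTop :=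
  Real.tendsto_log_atTop.comp (Real.tendsto_log_atTop.comp tendsto_natCast_atTop_atTop)

lemma th_two : th 2 = 0 := by
  unfold th
  norm_num

lemma LgK_two (X : ℕ) : LgK 2 X = 1 := by
  unfold LgK
  rw [th_two, Real.rpow_zero]

/-- fourth roots -/
lemma root4 (T : ℕ) (hT : 16 ≤ T) : ∃ y : ℕ, 2 ≤ y ∧ y ^ 4 ≤ T ∧ T < (y + 1) ^ 4 := by
  refine ⟨Nat.findGreatest (fun y => y ^ 4 ≤ T) T, ?_, ?_, ?_⟩
  · apply Nat.le_findGreatest (by omega)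
    omega
  · exact Nat.findGreatest_spec (P := fun y => y ^ 4 ≤ T) (Nat.zero_le _) (by norm_num)
  · by_contra h
    rw [not_lt] at h
    have h1 : Nat.findGreatest (fun y => y ^ 4 ≤ T) T + 1 ≤ T :=
      (Nat.le_self_pow (by norm_num) _).trans h
    have h2 := Nat.le_findGreatest (P := fun y => y ^ 4 ≤ T) h1 h
    omega

/-- the box -/
theorem box_large {ε δ : ℝ} (hε : 0 < ε) (hδ : 0 < δ) : ∃ T0 : ℕ, ∀ T : ℕ, T0 ≤ T →
    (((Box T).filter (fun t : ℤ × ℤ => (t.1 ≠ 0 ∧ t.2 ≠ 0 ∧ t.1 ≠ t.2) ∧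
      ¬ ShaBig ((3 / 2 - ε) * Real.log (Real.log T))
        (D (2 * (t.1 + t.2)) ((t.1 - t.2) ^ 2)))).card : ℝ) ≤ δ * (T : ℝ) ^ 2 := by
  obtain ⟨C2, hC20, hC2⟩ := mert
  obtain ⟨C1, hC10, hC1⟩ := Pool.Agent.H514.box_q Pool.Agent.H514.rbd_sel 2 le_rfl
  -- the parameters
  obtain ⟨w, hw4, hwδ⟩ : ∃ w : ℕ, 4 ≤ w ∧ 12 / (w : ℝ) ≤ δ / 3 := by
    obtain ⟨w, hw⟩ := exists_nat_ge (36 / δ)
    refine ⟨w + 4, by omega, ?_⟩
    have h1 : 36 / δ ≤ ((w + 4 : ℕ) : ℝ) := by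
      push_cast
      linarith
    have h2 : (0 : ℝ) < ((w + 4 : ℕ) : ℝ) := by positivity
    rw [div_le_iff₀ hδ] at h1
    rw [div_le_div_iff₀ h2 (by norm_num)]
    linarith
  obtain ⟨K, hK1, hKδ⟩ : ∃ K : ℕ, 1 ≤ K ∧ C1 / (K : ℝ) ^ 2 ≤ δ / 3 := by
    obtain ⟨K, hK⟩ := exists_nat_ge (3 * C1 / δ)
    refine ⟨K + 1, by omega, ?_⟩
    have h1 : 3 * C1 / δ ≤ ((K + 1 : ℕ) : ℝ) := by
      push_cast
      linarith
    have h2 : (1 : ℝ) ≤ ((K + 1 : ℕ) : ℝ) := by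
      push_cast
      have : (0 : ℝ) ≤ K := Nat.cast_nonneg _
      linarith
    rw [div_le_iff₀ hδ] at h1
    rw [div_le_div_iff₀ (by positivity) (by norm_num)]
    have h3 : ((K + 1 : ℕ) : ℝ) ≤ ((K + 1 : ℕ) : ℝ) ^ 2 := by nlinarith
    nlinarith
  obtain ⟨m0, hm0⟩ : ∃ m0 : ℕ, 4 + K ≤ 2 ^ m0 := ⟨4 + K, Nat.lt_two_pow_self.le⟩
  set C3 : ℝ := (3 / 2) * (3 + C2 + w) + 1 with hC3
  -- the size of `T`
  obtain ⟨L0, hL0a, hL0b⟩ : ∃ L0 : ℝ, 1 ≤ L0 ∧ ∀ L : ℝ, L0 ≤ L →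
      C3 + (w + 7) + m0 ≤ (ε / 2) * L ∧
      (27 * (L + C2) + 21) / ((ε / 2) * L) ^ 2 ≤ δ / 3 := by
    refine ⟨1 + (C3 + (w + 7) + m0) / (ε / 2) + 3 * (27 * (1 + C2) + 21) / (δ * (ε / 2) ^ 2), ?_,
      fun L hL => ?_⟩
    · have h1 : 0 ≤ (C3 + (w + 7) + m0) / (ε / 2) := by positivity
      have h2 : 0 ≤ 3 * (27 * (1 + C2) + 21) / (δ * (ε / 2) ^ 2) := by positivity
      linarith
    have h1 : 0 ≤ (C3 + (w + 7) + m0) / (ε / 2) := by positivity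
    have h2 : 0 ≤ 3 * (27 * (1 + C2) + 21) / (δ * (ε / 2) ^ 2) := by positivity
    have h3 : (C3 + (w + 7) + m0) / (ε / 2) ≤ L := by linarith
    have h4 : 3 * (27 * (1 + C2) + 21) / (δ * (ε / 2) ^ 2) ≤ L := by linarith
    have h5 : 1 ≤ L := by linarith
    constructor
    · rw [div_le_iff₀ (by positivity)] at h3
      linarith
    · rw [div_le_iff₀ (by positivity)] at h4
      rw [div_le_div_iff₀ (by positivity) (by norm_num)]
      have h6 : 27 * (L + C2) + 21 ≤ (27 * (1 + C2) + 21) * L := by nlinarith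
      have h7 : 3 * (27 * (1 + C2) + 21) * L ≤ L * (δ * (ε / 2) ^ 2) * L :=
        mul_le_mul_of_nonneg_right h4 (by linarith)
      nlinarith
  obtain ⟨T1, hT1⟩ := (tendsto_atTop.1 tend_ll L0).exists_forall_of_atTop
  refine ⟨max T1 16, fun T hT => ?_⟩
  have hT16 : 16 ≤ T := (le_max_right _ _).trans hT
  have hL := hT1 T ((le_max_left _ _).trans hT)
  set L : ℝ := Real.log (Real.log T) with hLdef
  obtain ⟨hb1, hb2⟩ := hL0b L hL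
  have hL1 : 1 ≤ L := hL0a.trans hL
  obtain ⟨y, hy2, hyT, hTy⟩ := root4 T hT16
  have hTr : (0 : ℝ) < T := by
    have : 0 < T := by omega
    exact_mod_cast this
  have hyr : (2 : ℝ) ≤ y := by exact_mod_cast hy2
  have hlogy : 0 < Real.log y := Real.log_pos (by linarith)
  -- the logarithms
  have hll1 : L - 3 ≤ Real.log (Real.log y) := by
    have h1 : (T : ℝ) ≤ (y : ℝ) ^ 8 := by
      have h2 : T ≤ y ^ 8 := by
        have h3 : y + 1 ≤ y ^ 2 := by nlinarith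
        calc T ≤ (y + 1) ^ 4 := hTy.le
          _ ≤ (y ^ 2) ^ 4 := Nat.pow_le_pow_left h3 4
          _ = y ^ 8 := by ring
      exact_mod_cast h2
    have h4 : Real.log T ≤ 8 * Real.log y := by
      have := Real.log_le_log hTr h1
      rw [Real.log_pow] at this
      exact_mod_cast this
    have h5 : 0 < Real.log T := Real.log_pos (by
      have : (16 : ℝ) ≤ T := by exact_mod_cast hT16
      linarith)
    have h6 := Real.log_le_log h5 h4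
    rw [Real.log_mul (by norm_num) hlogy.ne'] at h6
    have h7 : Real.log 8 ≤ 3 := by
      have h8 : Real.log 8 = 3 * Real.log 2 := by
        rw [show (8 : ℝ) = 2 ^ 3 by norm_num, Real.log_pow]
        norm_num
      have := Real.log_two_lt_d9
      linarith
    linarith
  have hll2 : Real.log (Real.log y) ≤ L := by
    apply Real.log_le_log hlogy
    apply Real.log_le_log (by linarith)
    exact_mod_cast (Nat.le_self_pow (by norm_num) y).trans hyT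
  obtain ⟨hs1, hs2⟩ := sum_Pw hC2 (w := w) hy2
  have hmu := sum_mu w y (by omega)
  have hP : ∀ p ∈ Pw w y, p.Prime ∧ p ≠ 2 := fun p hp => by
    obtain ⟨⟨h1, -⟩, h2⟩ := mem_Pw.1 hp
    exact ⟨h2, by omega⟩
  -- the variance
  have hvar := tk_var (Pw w y) hP T y (fun p hp => (mem_Pw.1 hp).1.2)
  have hcard : ((Pw w y).card : ℝ) ≤ y := by
    have h1 : (Pw w y).card ≤ (Ioc w y).card := card_le_card (filter_subset _ _)
    rw [Nat.card_Ioc] at h1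
    exact_mod_cast h1.trans (Nat.sub_le _ _)
  have hV : ∑ t ∈ Box T, ((∑ p ∈ Pw w y, ph p t) - ∑ p ∈ Pw w y, mu p) ^ 2 ≤
      (27 * (L + C2) + 21) * (T : ℝ) ^ 2 := by
    refine hvar.trans ?_
    have h1 : ∑ p ∈ Pw w y, (3 : ℝ) / p = 3 * ∑ p ∈ Pw w y, (1 : ℝ) / p := by
      rw [mul_sum]
      exact sum_congr rfl fun p _ => by ring
    rw [h1]
    have hT1r : (1 : ℝ) ≤ T := by
      have : 1 ≤ T := by omega
      exact_mod_cast this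
    have h2 : ((2 * T + 1 : ℝ)) ^ 2 ≤ 9 * (T : ℝ) ^ 2 := by nlinarith
    have h3 : 3 * ∑ p ∈ Pw w y, (1 : ℝ) / p ≤ 3 * (L + C2) := by linarith
    have h30 : 0 ≤ 3 * ∑ p ∈ Pw w y, (1 : ℝ) / p :=
      mul_nonneg (by norm_num) (sum_nonneg fun p _ => by positivity)
    have h4 : (2 * T + 1 : ℝ) ^ 2 * (3 * ∑ p ∈ Pw w y, (1 : ℝ) / p) ≤
        9 * (T : ℝ) ^ 2 * (3 * (L + C2)) := mul_le_mul h2 h3 h30 (by positivity)
    have h5 : (y : ℝ) ^ 4 ≤ T := by exact_mod_cast hyT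
    have h6 : (y : ℝ) ^ 2 ≤ (y : ℝ) ^ 4 := by
      apply pow_le_pow_right₀ (by linarith) (by norm_num)
    have h7 : ((Pw w y).card : ℝ) ^ 2 ≤ (y : ℝ) ^ 2 := pow_le_pow_left₀ (Nat.cast_nonneg _) hcard 2
    have h8 : 3 * ((Pw w y).card : ℝ) ^ 2 * (2 * (y : ℝ) ^ 2 * (2 * T + 1) + (y : ℝ) ^ 4) ≤
        21 * (T : ℝ) ^ 2 := by
      have a1 : 3 * ((Pw w y).card : ℝ) ^ 2 * (2 * (y : ℝ) ^ 2 * (2 * T + 1) + (y : ℝ) ^ 4) ≤
          3 * (y : ℝ) ^ 2 * (2 * (y : ℝ) ^ 2 * (3 * T) + (y : ℝ) ^ 4) := by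
        apply mul_le_mul (by linarith) _ (by positivity) (by positivity)
        have : 0 ≤ 2 * (y : ℝ) ^ 2 := by positivity
        nlinarith
      have a2 : 3 * (y : ℝ) ^ 2 * (2 * (y : ℝ) ^ 2 * (3 * T) + (y : ℝ) ^ 4) =
          18 * (y : ℝ) ^ 4 * T + 3 * (y : ℝ) ^ 2 * (y : ℝ) ^ 4 := by ring
      have a3 : 18 * (y : ℝ) ^ 4 * T ≤ 18 * T * T := by
        apply mul_le_mul_of_nonneg_right (by linarith) hTr.le
      have a4 : 3 * (y : ℝ) ^ 2 * (y : ℝ) ^ 4 ≤ 3 * T * T := by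
        apply mul_le_mul (by linarith) h5 (by positivity) (by positivity)
      nlinarith
    nlinarith
  have hc1 := cheb (Box T) (fun t => (∑ p ∈ Pw w y, ph p t) - ∑ p ∈ Pw w y, mu p)
    (a := (ε / 2) * L) (by positivity) hV
  -- the large Selmer groups
  have hQ : (((Box T).filter (fun t : ℤ × ℤ => (t.1 ≠ 0 ∧ t.2 ≠ 0 ∧ t.1 ≠ t.2) ∧
      K < Pool.Agent.H514.QS t.1 t.2)).card : ℝ) ≤ C1 / (K : ℝ) ^ 2 * (T : ℝ) ^ 2 := by
    have h1 := hC1 T (by omega)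
    rw [LgK_two, mul_one] at h1
    have hK0 : (0 : ℝ) < (K : ℝ) ^ 2 := by
      have : (1 : ℝ) ≤ K := by exact_mod_cast hK1
      positivity
    rw [div_mul_eq_mul_div, le_div_iff₀ hK0]
    refine le_trans ?_ h1
    calc (((Box T).filter (fun t : ℤ × ℤ => (t.1 ≠ 0 ∧ t.2 ≠ 0 ∧ t.1 ≠ t.2) ∧
      K < Pool.Agent.H514.QS t.1 t.2)).card : ℝ) * (K : ℝ) ^ 2 =
        ∑ t ∈ (Box T).filter (fun t : ℤ × ℤ => (t.1 ≠ 0 ∧ t.2 ≠ 0 ∧ t.1 ≠ t.2) ∧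
          K < Pool.Agent.H514.QS t.1 t.2), (K : ℝ) ^ 2 := by rw [sum_const, nsmul_eq_mul]
      _ ≤ ∑ t ∈ (Box T).filter (fun t : ℤ × ℤ => (t.1 ≠ 0 ∧ t.2 ≠ 0 ∧ t.1 ≠ t.2) ∧
          K < Pool.Agent.H514.QS t.1 t.2), (Pool.Agent.H514.QS t.1 t.2 : ℝ) ^ 2 := by
          apply sum_le_sum
          intro t ht
          apply pow_le_pow_left₀ (Nat.cast_nonneg _)
          exact_mod_cast (mem_filter.1 ht).2.2.le
      _ ≤ _ := by
          apply sum_le_sum_of_subset_of_nonneg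
          · intro t ht
            rw [mem_filter] at ht ⊢
            exact ⟨ht.1, ht.2.1⟩
          · intro t _ _
            positivity
  have hE := exc_card (w := w) (T := T) (by omega)
  -- the union
  have hsub : (Box T).filter (fun t : ℤ × ℤ => (t.1 ≠ 0 ∧ t.2 ≠ 0 ∧ t.1 ≠ t.2) ∧
      ¬ ShaBig ((3 / 2 - ε) * L) (D (2 * (t.1 + t.2)) ((t.1 - t.2) ^ 2))) ⊆
      ((Box T).filter (fun t : ℤ × ℤ => t.1 ≠ 0 ∧ t.2 ≠ 0 ∧ Exc w t)) ∪
      (((Box T).filter (fun t : ℤ × ℤ => (t.1 ≠ 0 ∧ t.2 ≠ 0 ∧ t.1 ≠ t.2) ∧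
        K < Pool.Agent.H514.QS t.1 t.2)) ∪
      ((Box T).filter (fun t : ℤ × ℤ => (ε / 2) * L <
        |(∑ p ∈ Pw w y, ph p t) - ∑ p ∈ Pw w y, mu p|))) := by
    intro t ht
    rw [mem_filter] at ht
    obtain ⟨ht1, ⟨hA, hB, hAB⟩, ht2⟩ := ht
    rw [mem_union, mem_union, mem_filter, mem_filter, mem_filter]
    by_contra hcon
    rw [not_or, not_or] at hcon
    obtain ⟨n1, n2, n3⟩ := hcon
    have he : ¬ Exc w t := fun h => n1 ⟨ht1, hA, hB, h⟩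
    have hK' : Pool.Agent.H514.QS t.1 t.2 ≤ K := by
      by_contra h
      exact n2 ⟨ht1, ⟨hA, hB, hAB⟩, by omega⟩
    have h3 : |(∑ p ∈ Pw w y, ph p t) - ∑ p ∈ Pw w y, mu p| ≤ (ε / 2) * L := by
      by_contra h
      exact n3 ⟨ht1, not_le.1 h⟩
    apply ht2
    refine one_good hw4 (by omega) hA hB hAB ht1 hTy he hK' hm0 ?_
    have h4 := (abs_le.1 h3).1
    have h5 : (3 / 2) * (L - 3 - C2 - w) - 1 ≤ ∑ p ∈ Pw w y, mu p := by linarith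
    linarith
  have hfin := (card_le_card hsub).trans ((card_union_le _ _).trans
    (Nat.add_le_add_left (card_union_le _ _) _))
  have hfin' : (((Box T).filter (fun t : ℤ × ℤ => (t.1 ≠ 0 ∧ t.2 ≠ 0 ∧ t.1 ≠ t.2) ∧
      ¬ ShaBig ((3 / 2 - ε) * L) (D (2 * (t.1 + t.2)) ((t.1 - t.2) ^ 2)))).card : ℝ) ≤
      ((Box T).filter (fun t : ℤ × ℤ => t.1 ≠ 0 ∧ t.2 ≠ 0 ∧ Exc w t)).card +
      (((Box T).filter (fun t : ℤ × ℤ => (t.1 ≠ 0 ∧ t.2 ≠ 0 ∧ t.1 ≠ t.2) ∧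
        K < Pool.Agent.H514.QS t.1 t.2)).card +
      ((Box T).filter (fun t : ℤ × ℤ => (ε / 2) * L <
        |(∑ p ∈ Pw w y, ph p t) - ∑ p ∈ Pw w y, mu p|)).card) := by exact_mod_cast hfin
  have hT2 : (0 : ℝ) ≤ (T : ℝ) ^ 2 := by positivity
  have f1 : 12 * (T : ℝ) ^ 2 / w ≤ δ / 3 * (T : ℝ) ^ 2 := by
    calc 12 * (T : ℝ) ^ 2 / w = 12 / w * (T : ℝ) ^ 2 := by ring
      _ ≤ _ := mul_le_mul_of_nonneg_right hwδ hT2
  have f2 : C1 / (K : ℝ) ^ 2 * (T : ℝ) ^ 2 ≤ δ / 3 * (T : ℝ) ^ 2 :=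
    mul_le_mul_of_nonneg_right hKδ hT2
  have f3 : (27 * (L + C2) + 21) * (T : ℝ) ^ 2 / ((ε / 2) * L) ^ 2 ≤ δ / 3 * (T : ℝ) ^ 2 := by
    calc (27 * (L + C2) + 21) * (T : ℝ) ^ 2 / ((ε / 2) * L) ^ 2 =
        (27 * (L + C2) + 21) / ((ε / 2) * L) ^ 2 * (T : ℝ) ^ 2 := by ring
      _ ≤ _ := mul_le_mul_of_nonneg_right hb2 hT2
  linarith

end Pool.Agent.H514.IS
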