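import Pool.Agent.H514.IS.Lin
import Pool.Graph.R_seed8.W262.SH.Avg

/-! The lower bound of the Tate-Shafarevich group of the 2-isogenous curve. -/

set_option autoImplicit false

open scoped Classical

namespace Pool.Agent.H514.IS

open Finset WeierstrassCurve Pool.Agent.W262.SH Pool.Agent.W338.SH

/-! ### The characters -/

/-- the signs -/
def sg (k : ℕ) (n : ℕ) : ℤ :=
  if k = 1 then ZMod.χ₄ n else if k = 2 then ZMod.χ₈ n else jacobiSym n k

lemma sg_mul (k m n : ℕ) : sg k (m * n) = sg k m * sg k n := by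
  unfold sg
  split_ifs
  · rw [Nat.cast_mul, map_mul]
  · rw [Nat.cast_mul, map_mul]
  · rw [Nat.cast_mul, jacobiSym.mul_left]

lemma sg_one (k : ℕ) : sg k 1 = 1 := by
  unfold sg
  split_ifs
  · rw [Nat.cast_one, map_one]
  · rw [Nat.cast_one, map_one]
  · rw [Nat.cast_one, jacobiSym.one_left]

lemma sg_pow (k m n : ℕ) : sg k (m ^ n) = sg k m ^ n := by
  induction n with
  | zero => rw [pow_zero, pow_zero, sg_one]
  | succ n ih => rw [pow_succ, sg_mul, ih, pow_succ]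

lemma sg_prod {ι : Type} (k : ℕ) (s : Finset ι) (f : ι → ℕ) :
    sg k (∏ i ∈ s, f i) = ∏ i ∈ s, sg k (f i) := by
  induction s using Finset.induction_on with
  | empty => rw [Finset.prod_empty, Finset.prod_empty, sg_one]
  | insert i s hi ih => rw [Finset.prod_insert hi, Finset.prod_insert hi, sg_mul, ih]

lemma sg_pm {k n : ℕ} (hn : n % 2 = 1) (hk : Nat.Coprime n k) : sg k n = 1 ∨ sg k n = -1 := by
  unfold sg
  split_ifs with h1 h2
  · rw [ZMod.χ₄_nat_eq_if_mod_four]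
    split_ifs <;> simp_all
  · rw [ZMod.χ₈_nat_eq_if_mod_eight]
    split_ifs <;> simp_all
  · exact jacobiSym.eq_one_or_neg_one (by simpa [Int.gcd] using hk)

/-- the linear form of a character -/
def Lf (P K : Finset ℕ) : (P → ZMod 2) →ₗ[ZMod 2] (K → ZMod 2) where
  toFun v k := ∑ p : P, v p * lam (sg k p)
  map_add' v w := by
    funext k
    simp only [Pi.add_apply, add_mul, Finset.sum_add_distrib]
  map_smul' c v := by
    funext k
    simp only [Pi.smul_apply, smul_eq_mul, RingHom.id_apply, Finset.mul_sum, mul_assoc]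

lemma ker_card (P K : Finset ℕ) :
    P.card ≤ Module.finrank (ZMod 2) (LinearMap.ker (Lf P K)) + K.card := by
  have h1 := LinearMap.finrank_range_add_finrank_ker (Lf P K)
  have h2 : Module.finrank (ZMod 2) (LinearMap.range (Lf P K)) ≤
      Module.finrank (ZMod 2) (K → ZMod 2) := Submodule.finrank_le _
  rw [Module.finrank_fintype_fun_eq_card, Fintype.card_coe] at h1 h2
  omega

lemma sg_ker {P K : Finset ℕ} (hP : ∀ p ∈ P, p % 2 = 1) (hPK : ∀ p ∈ P, ∀ k ∈ K, Nat.Coprime p k)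
    {v : P → ZMod 2} (hv : v ∈ LinearMap.ker (Lf P K)) {k : ℕ} (hk : k ∈ K) :
    sg k (dd P v) = 1 := by
  unfold dd
  rw [sg_prod]
  have h1 : ∀ p : P, sg k ((p : ℕ) ^ (v p).val) = (sg k p) ^ (v p).val := fun p => sg_pow _ _ _
  rw [Finset.prod_congr rfl fun p _ => h1 p,
    prod_sign Finset.univ (fun p : P => sg k p)
      (fun p _ => sg_pm (hP p.1 p.2) (hPK p.1 p.2 k hk)) v]
  rw [LinearMap.mem_ker] at hv
  have h2 : ∑ p : P, v p * lam (sg k p) = 0 := congrFun hv ⟨k, hk⟩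
  rw [if_pos h2]

/-! ### Primes -/

/-- the primes of the classes -/
noncomputable def PP (A B : ℤ) : Finset ℕ :=
  (A * B).natAbs.primeFactors.filter fun p =>
    5 ≤ p ∧ ¬ ((p : ℤ) ∣ A ∧ (p : ℤ) ∣ B) ∧ Odd (padicValInt p (A * B))

/-- the primes of the conditions -/
noncomputable def KK (A B : ℤ) : Finset ℕ :=
  {1, 2, 3} ∪ (A - B).natAbs.primeFactors.filter fun q => (q : ℤ) ∣ A ∨ jacobiSym A q = 1

variable {A B : ℤ}

lemma PP_mem {p : ℕ} (hp : p ∈ PP A B) : p.Prime ∧ 5 ≤ p ∧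
    (((p : ℤ) ∣ A ∧ ¬ (p : ℤ) ∣ B) ∨ (¬ (p : ℤ) ∣ A ∧ (p : ℤ) ∣ B)) ∧
      Odd (padicValInt p (A * B)) := by
  rw [PP, Finset.mem_filter, Nat.mem_primeFactors] at hp
  obtain ⟨⟨h1, h2, -⟩, h3, h4, h5⟩ := hp
  refine ⟨h1, h3, ?_, h5⟩
  have h6 : (p : ℤ) ∣ A * B := Int.natCast_dvd.2 h2
  rcases (Nat.prime_iff_prime_int.1 h1).dvd_or_dvd h6 with h | h <;> tauto

lemma PK_cop {p k : ℕ} (hp : p ∈ PP A B) (hk : k ∈ KK A B) : Nat.Coprime p k := by
  obtain ⟨h1, h2, h3, -⟩ := PP_mem hp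
  rw [KK, Finset.mem_union] at hk
  rw [h1.coprime_iff_not_dvd]
  rcases hk with hk | hk
  · simp only [Finset.mem_insert, Finset.mem_singleton] at hk
    intro h
    have h4 : k ≠ 0 := by omega
    have := Nat.le_of_dvd (by omega) h
    omega
  · rw [Finset.mem_filter, Nat.mem_primeFactors] at hk
    obtain ⟨⟨h5, h6, -⟩, -⟩ := hk
    intro h
    have h7 : p = k := (Nat.prime_dvd_prime_iff_eq h1 h5).1 h
    subst h7
    have h8 : (p : ℤ) ∣ A - B := Int.natCast_dvd.2 h6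
    rcases h3 with ⟨h9, h10⟩ | ⟨h9, h10⟩
    · exact h10 ((dvd_sub_right h9).1 h8)
    · exact h9 ((dvd_sub_left h10).1 h8)

lemma adm_dd (hAB : A ≠ B) {v : PP A B → ZMod 2}
    (hv : v ∈ LinearMap.ker (Lf (PP A B) (KK A B))) : Adm A B (dd (PP A B) v : ℤ) := by
  have hP : ∀ p ∈ PP A B, p.Prime := fun p hp => (PP_mem hp).1
  have hodd : ∀ p ∈ PP A B, p % 2 = 1 := fun p hp => by
    obtain ⟨h1, h2, -⟩ := PP_mem hp
    rcases h1.eq_two_or_odd with h | h <;> omega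
  have hsg : ∀ k ∈ KK A B, sg k (dd (PP A B) v) = 1 := fun k hk =>
    sg_ker hodd (fun p hp k hk => PK_cop hp hk) hv hk
  have h1 := hsg 1 (by simp [KK])
  have h2 := hsg 2 (by simp [KK])
  have h3 := hsg 3 (by simp [KK])
  have hjac : ∀ q : ℕ, 5 ≤ q → q.Prime → (q : ℤ) ∣ A - B → ((q : ℤ) ∣ A ∨ jacobiSym A q = 1) →
      jacobiSym (dd (PP A B) v : ℤ) q = 1 := by
    intro q hq hqp hd hor
    have h4 := hsg q (by
      rw [KK, Finset.mem_union, Finset.mem_filter, Nat.mem_primeFactors]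
      exact Or.inr ⟨⟨hqp, Int.natCast_dvd.1 hd, by
        rw [Int.natAbs_ne_zero, sub_ne_zero]; exact hAB⟩, hor⟩)
    unfold sg at h4
    rwa [if_neg (by omega), if_neg (by omega)] at h4
  refine ⟨by exact_mod_cast dd_pos hP v, Int.squarefree_natCast.2 (dd_sqf hP v), ?_, ?_, ?_, ?_, ?_⟩
  · unfold sg at h1 h2
    rw [if_pos rfl] at h1
    rw [if_neg (by norm_num), if_pos rfl] at h2
    rw [ZMod.χ₄_nat_eq_if_mod_four] at h1
    rw [ZMod.χ₈_nat_eq_if_mod_eight] at h2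
    have h4 : dd (PP A B) v % 8 = 1 := by
      split_ifs at h1 h2 <;> omega
    omega
  · unfold sg at h3
    rw [if_neg (by norm_num), if_neg (by norm_num)] at h3
    rw [jacobiSym.mod_left] at h3
    have h4 : (dd (PP A B) v : ℤ) % (3 : ℕ) = 0 ∨ (dd (PP A B) v : ℤ) % (3 : ℕ) = 1 ∨
      (dd (PP A B) v : ℤ) % (3 : ℕ) = 2 := by omega
    rcases h4 with h4 | h4 | h4
    · rw [h4] at h3
      exact absurd h3 (by norm_num)
    · exact h4
    · rw [h4] at h3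
      exact absurd h3 (by norm_num)
  · intro p hp hd
    rw [Int.natCast_dvd_natCast, dd_dvd hP v hp] at hd
    obtain ⟨h4, -⟩ := hd
    exact (PP_mem h4).2
  · intro p hp h5 hA hB
    rw [jacobiSym.legendreSym.to_jacobiSym]
    exact hjac p h5 hp.out (dvd_sub hA hB) (Or.inl hA)
  · intro p hp h5 hA hB hd hl
    rw [jacobiSym.legendreSym.to_jacobiSym] at hl ⊢
    exact hjac p h5 hp.out hd (Or.inr hl)

/-! ### The kernel -/

lemma ker_mem {d : ℤ} (hd : Squarefree d)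
    (h : IsSquare (d : ℚ) ∨ Tor ℚ (d : ℚ) (((2 * (A + B) : ℤ)) : ℚ) ((((A - B) ^ 2 : ℤ)) : ℚ)) :
    (IsSquare (((1 : ℤ) : ℚ) * d) ∨ IsSquare (((A * B : ℤ) : ℚ) * d) ∨ IsSquare ((A : ℚ) * d) ∨
      IsSquare ((B : ℚ) * d)) ∨ ∃ e ∈ SelS A B, e.1 = d := by
  rcases h with h | ⟨α, β, h⟩
  · left; left
    rwa [Int.cast_one, one_mul]
  push_cast at h
  have hd0 : (d : ℚ) ≠ 0 := by
    have := hd.ne_zero
    exact_mod_cast this
  set x : ℚ := d * (α / 2) ^ 2 with hx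
  have h1 : (d : ℚ) * (β / 4) ^ 2 = (x - A) * (x - B) := by
    rw [hx]
    linear_combination h / 16
  by_cases hα : α = 0
  · left; right; left
    refine ⟨d * (β / 4), ?_⟩
    rw [hα] at hx
    have hx0 : x = 0 := by rw [hx]; ring
    rw [hx0] at h1
    push_cast
    linear_combination -(d : ℚ) * h1
  have hx0 : x ≠ 0 := mul_ne_zero hd0 (pow_ne_zero _ (div_ne_zero hα two_ne_zero))
  by_cases hxA : x = A
  · left; right; right; left
    refine ⟨d * (α / 2), ?_⟩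
    rw [← hxA, hx]
    ring
  by_cases hxB : x = B
  · left; right; right; right
    refine ⟨d * (α / 2), ?_⟩
    rw [← hxB, hx]
    ring
  right
  obtain ⟨e1, he1, hs1⟩ := Pool.Agent.W214.RK2.exists_rep x hx0
  obtain ⟨e2, he2, hs2⟩ := Pool.Agent.W214.RK2.exists_rep (x - A) (sub_ne_zero.2 hxA)
  have hde : e1 = d := by
    refine Pool.Agent.W839.SH.sqf_eq he1 hd ?_
    obtain ⟨c, hc⟩ := hs1
    refine ⟨c / (α / 2), ?_⟩
    have h2 : (α / 2) ≠ 0 := div_ne_zero hα two_ne_zero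
    rw [hx] at hc
    rw [div_mul_div_comm, ← hc]
    field_simp
  have hx0' : (x - A) ≠ 0 := sub_ne_zero.2 hxA
  have he10 : (e1 : ℚ) ≠ 0 := by
    have := he1.ne_zero
    exact_mod_cast this
  have he20 : (e2 : ℚ) ≠ 0 := by
    have := he2.ne_zero
    exact_mod_cast this
  have hs3 : IsSquare ((x - B) * ((e1 : ℚ) * e2)) := by
    obtain ⟨c1, hc1⟩ := hs1
    obtain ⟨c2, hc2⟩ := hs2
    have h2 : x * (x - A) * (x - B) = (d * (α / 2) * (β / 4)) ^ 2 := by
      linear_combination -x * h1 + (d : ℚ) * (β / 4) ^ 2 * hx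
    refine ⟨(d * (α / 2) * (β / 4)) * (c1 * c2) / (x * (x - A)), ?_⟩
    rw [div_mul_div_comm, eq_div_iff (mul_ne_zero (mul_ne_zero hx0 hx0') (mul_ne_zero hx0 hx0'))]
    have h3 : (c1 * c2) ^ 2 = (x * e1) * ((x - A) * e2) := by
      rw [hc1, hc2]
      ring
    linear_combination (-(d * (α / 2) * (β / 4)) ^ 2) * h3 +
      (e1 : ℚ) * e2 * (x * (x - A)) * h2
  refine ⟨(e1, e2), ⟨he1, he2, ?_⟩, hde⟩
  intro p _ _
  refine ⟨x, hx0, hxA, hxB, ?_, ?_, ?_⟩
  · exact hs1.map (Rat.castHom ℚ_[p])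
  · exact hs2.map (Rat.castHom ℚ_[p])
  · exact hs3.map (Rat.castHom ℚ_[p])

/-- the squarefree integers in one square class -/
def oneC (n : ℤ) : Set ℤ := {d | Squarefree d ∧ IsSquare ((n : ℚ) * d)}

lemma oneC_sub {n : ℤ} (hn : n ≠ 0) : (oneC n).Subsingleton := by
  rintro d ⟨hd, h1⟩ e ⟨he, h2⟩
  refine Pool.Agent.W839.SH.sqf_eq hd he ?_
  obtain ⟨a, ha⟩ := h1
  obtain ⟨b, hb⟩ := h2
  have hn' : (n : ℚ) ≠ 0 := by exact_mod_cast hn
  refine ⟨a * b / n, ?_⟩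
  rw [div_mul_div_comm, eq_div_iff (mul_ne_zero hn' hn')]
  calc (d : ℚ) * e * (n * n) = (n * d) * (n * e) := by ring
    _ = (a * a) * (b * b) := by rw [ha, hb]
    _ = _ := by ring

lemma oneC_card {n : ℤ} (hn : n ≠ 0) : (oneC n).Finite ∧ (oneC n).ncard ≤ 1 := by
  have h := oneC_sub hn
  have := h.finite.to_subtype
  exact ⟨h.finite, Set.ncard_le_one_iff_subsingleton.2 h⟩

/-- the classes of the kernel -/
def KS (A B : ℤ) : Set ℤ :=
  ((oneC 1 ∪ oneC (A * B)) ∪ (oneC A ∪ oneC B)) ∪ Prod.fst '' SelS A B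

lemma KS_card (hA : A ≠ 0) (hB : B ≠ 0) (hf : (SelS A B).Finite) :
    (KS A B).Finite ∧ (KS A B).ncard ≤ 4 + (SelS A B).ncard := by
  obtain ⟨a1, a2⟩ := oneC_card (n := 1) one_ne_zero
  obtain ⟨b1, b2⟩ := oneC_card (n := A * B) (mul_ne_zero hA hB)
  obtain ⟨c1, c2⟩ := oneC_card hA
  obtain ⟨d1, d2⟩ := oneC_card hB
  have e1 := hf.image Prod.fst
  refine ⟨((a1.union b1).union (c1.union d1)).union e1, ?_⟩
  refine (Set.ncard_union_le _ _).trans ?_
  have f1 := Set.ncard_union_le (oneC 1 ∪ oneC (A * B)) (oneC A ∪ oneC B)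
  have f2 := Set.ncard_union_le (oneC 1) (oneC (A * B))
  have f3 := Set.ncard_union_le (oneC A) (oneC B)
  have f4 := Set.ncard_image_le (f := Prod.fst) hf
  omega

/-! ### The theorem -/

theorem sha_low (hA : A ≠ 0) (hB : B ≠ 0) (hAB : A ≠ B) (hf : (SelS A B).Finite) :
    ∃ n : ℕ, 2 ^ (PP A B).card ≤ 2 ^ (KK A B).card * ((4 + (SelS A B).ncard) * 2 ^ n) ∧
      ∃ f : (Fin n → ZMod 2) →+ ShaQ (D (2 * (A + B)) ((A - B) ^ 2)), Function.Injective f := by
  have hP : ∀ p ∈ PP A B, p.Prime := fun p hp => (PP_mem hp).1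
  have hP0 : ∀ p ∈ PP A B, p ≠ 0 := fun p hp => (hP p hp).ne_zero
  have hb := b_ne hAB
  have hd := d_ne hA hB
  set V := LinearMap.ker (Lf (PP A B) (KK A B)) with hV
  have hsq : ∀ v : PP A B → ZMod 2,
      (ss (PP A B) v) ^ 2 = algebraMap ℚ QB ((((dd (PP A B) v : ℕ) : ℤ)) : ℚ) := by
    intro v
    rw [ss_sq, Int.cast_natCast]
  have hmem : ∀ v : V, Ph (PP A B) (2 * (A + B)) ((A - B) ^ 2) v ∈
      ZS (D (2 * (A + B)) ((A - B) ^ 2)) := by
    intro v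
    have hadm := adm_dd hAB v.2
    rw [Ph_eq _ _ hP0]
    refine (isS_iff _ _).2 ⟨fs_IsCoc hb hd (hsq v) (ss_ne hP0 v), ?_, ?_⟩
    · intro p _
      exact loc_p hA hB hAB hadm p _ (hsq v) (ss_ne hP0 v)
    · exact loc_r hadm _ (hsq v) (ss_ne hP0 v)
  let φ : V →+ ZS (D (2 * (A + B)) ((A - B) ^ 2)) :=
    { toFun := fun v => ⟨Ph (PP A B) (2 * (A + B)) ((A - B) ^ 2) v, hmem v⟩
      map_zero' := by
        apply Subtype.ext
        funext σ
        show ∑ p : PP A B, _ = _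
        exact Finset.sum_eq_zero fun p _ => by
          show (0 : ZMod 2).val • _ = _
          rw [ZMod.val_zero, zero_nsmul]
      map_add' := fun v w => by
        apply Subtype.ext
        exact Ph_add (PP A B) (2 * (A + B)) ((A - B) ^ 2) (v : PP A B → ZMod 2) w }
  let δ : V →+ ShaQ (D (2 * (A + B)) ((A - B) ^ 2)) := (QuotientAddGroup.mk' _).comp φ
  obtain ⟨k1, k2⟩ := KS_card hA hB hf
  have hker : Nat.card δ.ker ≤ 4 + (SelS A B).ncard := by
    refine le_trans ?_ k2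
    have : Finite (KS A B) := k1
    rw [← Nat.card_coe_set_eq]
    refine Nat.card_le_card_of_injective
      (fun v : δ.ker => (⟨((dd (PP A B) (v : V) : ℕ) : ℤ), ?_⟩ : KS A B)) ?_
    · have h0 : δ v = 0 := v.2
      have h1 : (φ v) ∈ (B1 (gact (D (2 * (A + B)) ((A - B) ^ 2)))).addSubgroupOf _ :=
        (QuotientAddGroup.eq_zero_iff _).1 h0
      have h2 : Ph (PP A B) (2 * (A + B)) ((A - B) ^ 2) (v : V) ∈
        B1 (gact (D (2 * (A + B)) ((A - B) ^ 2))) := AddSubgroup.mem_addSubgroupOf.1 h1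
      rw [Ph_eq _ _ hP0] at h2
      obtain ⟨R, hR⟩ := h2
      have h3 := glob_tor hb hd (hsq v) (ss_ne hP0 v) ⟨R, hR⟩
      have hsqf : Squarefree ((dd (PP A B) (v : V) : ℕ) : ℤ) :=
        Int.squarefree_natCast.2 (dd_sqf hP v)
      rcases ker_mem hsqf h3 with (h4 | h4 | h4 | h4) | ⟨e, h4, h5⟩
      · exact Or.inl (Or.inl (Or.inl ⟨hsqf, h4⟩))
      · exact Or.inl (Or.inl (Or.inr ⟨hsqf, h4⟩))
      · exact Or.inl (Or.inr (Or.inl ⟨hsqf, h4⟩))
      · exact Or.inl (Or.inr (Or.inr ⟨hsqf, h4⟩))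
      · exact Or.inr ⟨e, h4, h5⟩
    · intro v w h
      have h1 : ((dd (PP A B) (v : V) : ℕ) : ℤ) = ((dd (PP A B) (w : V) : ℕ) : ℤ) :=
        congrArg Subtype.val h
      have h2 : dd (PP A B) (v : V) = dd (PP A B) (w : V) := by exact_mod_cast h1
      exact Subtype.ext (Subtype.ext (dd_inj hP h2))
  obtain ⟨n, hn, f, hf'⟩ := large_sub V δ _ hker
  refine ⟨n, ?_, f, hf'⟩
  calc 2 ^ (PP A B).card ≤ 2 ^ (Module.finrank (ZMod 2) V + (KK A B).card) :=
        Nat.pow_le_pow_right (by norm_num) (ker_card _ _)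
    _ = 2 ^ (KK A B).card * 2 ^ Module.finrank (ZMod 2) V := by rw [pow_add, mul_comm]
    _ ≤ _ := Nat.mul_le_mul_left _ hn

end Pool.Agent.H514.IS
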