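import Pool.Agent.H514.IS.TK2
import Pool.Agent.H514.IS.Lin2

/-! The numbers of classes and conditions against the additive function. -/

set_option autoImplicit false

open scoped Classical

namespace Pool.Agent.H514.IS

open Finset Pool.Agent.W307.RT

/-- the primes in `(w, y]` -/
def Pw (w y : ℕ) : Finset ℕ := (Ioc w y).filter Nat.Prime

lemma mem_Pw {w y p : ℕ} : p ∈ Pw w y ↔ (w < p ∧ p ≤ y) ∧ p.Prime := by
  rw [Pw, mem_filter, mem_Ioc]

/-- the exceptional pairs -/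
def Exc (w : ℕ) (t : ℤ × ℤ) : Prop :=
  ∃ p : ℕ, p.Prime ∧ w < p ∧ ((p : ℤ) ^ 2 ∣ t.1 ∨ (p : ℤ) ^ 2 ∣ t.2 ∨ ((p : ℤ) ∣ t.1 ∧ (p : ℤ) ∣ t.2))

/-- few large prime factors -/
lemma few_large {n y k : ℕ} (hn : n ≠ 0) (hny : n < (y + 1) ^ (k + 1)) :
    (n.primeFactors.filter (fun q => y < q)).card ≤ k := by
  by_contra h
  have h1 : k + 1 ≤ (n.primeFactors.filter (fun q => y < q)).card := by omega
  have h2 : ∏ q ∈ n.primeFactors.filter (fun q => y < q), (y + 1) ≤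
      ∏ q ∈ n.primeFactors.filter (fun q => y < q), q :=
    Finset.prod_le_prod' fun q hq => (mem_filter.1 hq).2
  rw [Finset.prod_const] at h2
  have h3 : ∏ q ∈ n.primeFactors.filter (fun q => y < q), q ∣ n :=
    (Finset.prod_dvd_prod_of_subset _ _ _ (filter_subset _ _)).trans (Nat.prod_primeFactors_dvd n)
  have h4 := Nat.le_of_dvd (Nat.pos_of_ne_zero hn) h3
  have h5 : (y + 1) ^ (k + 1) ≤ (y + 1) ^ (n.primeFactors.filter (fun q => y < q)).card :=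
    Nat.pow_le_pow_right (Nat.succ_pos _) h1
  omega

lemma sum_ph (w y : ℕ) (t : ℤ × ℤ) : ∑ p ∈ Pw w y, ph p t =
    (((Pw w y).filter (fun p : ℕ => (p : ℤ) ∣ t.1 ∨ (p : ℤ) ∣ t.2)).card : ℝ) -
    (((Pw w y).filter (fun p : ℕ => (p : ℤ) ∣ t.1 - t.2 ∧ jacobiSym t.1 p = 1)).card : ℝ) := by
  unfold ph
  rw [Finset.sum_sub_distrib, Finset.sum_boole, Finset.sum_boole]

theorem cmp {w y T : ℕ} (hw : 4 ≤ w) (hy : 1 ≤ y) {t : ℤ × ℤ} (hA : t.1 ≠ 0) (hB : t.2 ≠ 0)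
    (hAB : t.1 ≠ t.2) (ht : t ∈ Box T) (hT : T < (y + 1) ^ 4) (he : ¬ Exc w t) :
    ∑ p ∈ Pw w y, ph p t ≤ ((PP t.1 t.2).card : ℝ) - (KK t.1 t.2).card + (w + 7) := by
  obtain ⟨A, B⟩ := t
  simp only at hA hB hAB
  rw [sum_ph]
  simp only
  have h1 : ((Pw w y).filter (fun p : ℕ => (p : ℤ) ∣ A ∨ (p : ℤ) ∣ B)).card ≤ (PP A B).card := by
    apply card_le_card
    intro p hp
    rw [mem_filter, mem_Pw] at hp
    obtain ⟨⟨⟨h1, h2⟩, h3⟩, h4⟩ := hp
    have hpi := Nat.prime_iff_prime_int.1 h3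
    have h5 : ¬ ((p : ℤ) ∣ A ∧ (p : ℤ) ∣ B) := fun h => he ⟨p, h3, h1, Or.inr (Or.inr h)⟩
    have h6 : ¬ (p : ℤ) ^ 2 ∣ A := fun h => he ⟨p, h3, h1, Or.inl h⟩
    have h7 : ¬ (p : ℤ) ^ 2 ∣ B := fun h => he ⟨p, h3, h1, Or.inr (Or.inl h)⟩
    rw [PP, mem_filter, Nat.mem_primeFactors]
    have : Fact p.Prime := ⟨h3⟩
    have val1 : ∀ n : ℤ, n ≠ 0 → (p : ℤ) ∣ n → ¬ (p : ℤ) ^ 2 ∣ n → padicValInt p n = 1 := by
      intro n hn hd hd2
      have a1 : (p : ℤ) ^ 1 ∣ n := by rwa [pow_one]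
      rw [padicValInt_dvd_iff] at a1 hd2
      omega
    have hv : padicValInt p (A * B) = 1 := by
      rw [padicValInt.mul hA hB]
      rcases h4 with h4 | h4
      · rw [val1 A hA h4 h6, padicValInt.eq_zero_of_not_dvd (fun h => h5 ⟨h4, h⟩)]
      · rw [val1 B hB h4 h7, padicValInt.eq_zero_of_not_dvd (fun h => h5 ⟨h, h4⟩)]
    refine ⟨⟨h3, ?_, Int.natAbs_ne_zero.2 (mul_ne_zero hA hB)⟩, by omega, h5, ?_⟩
    · rw [← Int.natCast_dvd]
      rcases h4 with h4 | h4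
      · exact h4.mul_right _
      · exact h4.mul_left _
    · rw [hv]
      exact odd_one
  have h2 : (KK A B).card ≤ 3 + (w + ((((Pw w y).filter
      (fun p : ℕ => (p : ℤ) ∣ A - B ∧ jacobiSym A p = 1)).card) + 4)) := by
    have hsub : KK A B ⊆ {1, 2, 3} ∪ (Icc 1 w ∪ (((Pw w y).filter
      (fun p : ℕ => (p : ℤ) ∣ A - B ∧ jacobiSym A p = 1)) ∪
        ((A - B).natAbs.primeFactors.filter (fun q => y < q)))) := by
      intro q hq
      rw [KK, mem_union] at hq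
      rcases hq with hq | hq
      · exact mem_union_left _ hq
      apply mem_union_right
      rw [mem_filter, Nat.mem_primeFactors] at hq
      obtain ⟨⟨a1, a2, a3⟩, a4⟩ := hq
      by_cases hqw : q ≤ w
      · exact mem_union_left _ (mem_Icc.2 ⟨a1.one_lt.le, hqw⟩)
      apply mem_union_right
      by_cases hqy : y < q
      · apply mem_union_right
        rw [mem_filter, Nat.mem_primeFactors]
        exact ⟨⟨a1, a2, a3⟩, hqy⟩
      apply mem_union_left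
      have hd : (q : ℤ) ∣ A - B := Int.natCast_dvd.2 a2
      rw [mem_filter, mem_Pw]
      refine ⟨⟨⟨by omega, by omega⟩, a1⟩, hd, ?_⟩
      rcases a4 with a4 | a4
      · exfalso
        exact he ⟨q, a1, by omega, Or.inr (Or.inr ⟨a4, (dvd_sub_right a4).1 hd⟩)⟩
      · exact a4
    refine (card_le_card hsub).trans ((card_union_le _ _).trans ?_)
    have b1 : (({1, 2, 3} : Finset ℕ)).card ≤ 3 := by decide
    refine Nat.add_le_add b1 ((card_union_le _ _).trans ?_)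
    rw [Nat.card_Icc]
    refine Nat.add_le_add (by omega) ((card_union_le _ _).trans ?_)
    apply Nat.add_le_add_left
    apply few_large (Int.natAbs_ne_zero.2 (sub_ne_zero.2 hAB))
    rw [mem_Box] at ht
    simp only at ht
    have b2 : (A - B).natAbs ≤ 2 * T := by omega
    have b3 : 2 * (y + 1) ^ 4 ≤ (y + 1) ^ (4 + 1) := by
      rw [pow_succ (y + 1) 4, mul_comm]
      exact Nat.mul_le_mul_left _ (by omega)
    omega
  have h1' : ((((Pw w y).filter (fun p : ℕ => (p : ℤ) ∣ A ∨ (p : ℤ) ∣ B)).card : ℕ) : ℝ) ≤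
    (PP A B).card := by exact_mod_cast h1
  have h2' : ((KK A B).card : ℝ) ≤ 3 + (w + ((((Pw w y).filter
      (fun p : ℕ => (p : ℤ) ∣ A - B ∧ jacobiSym A p = 1)).card) + 4)) := by exact_mod_cast h2
  linarith

/-! ### The exceptional pairs -/

lemma cnt_dvd {T m : ℕ} (hm : 0 < m) :
    ((((Icc (-(T : ℤ)) T).filter (fun a : ℤ => a ≠ 0 ∧ (m : ℤ) ∣ a)).card : ℕ) : ℝ) ≤
      2 * T / m := by
  have h1 : ((Icc (-(T : ℤ)) T).filter (fun a : ℤ => a ≠ 0 ∧ (m : ℤ) ∣ a)) ⊆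
      ((Icc (-((T / m : ℕ) : ℤ)) ((T / m : ℕ) : ℤ)).erase 0).image (fun b => (m : ℤ) * b) := by
    intro a ha
    rw [mem_filter, mem_Icc] at ha
    obtain ⟨⟨h1, h2⟩, h3, b, rfl⟩ := ha
    refine mem_image.2 ⟨b, ?_, rfl⟩
    rw [mem_erase, mem_Icc]
    refine ⟨by rintro rfl; simp at h3, ?_⟩
    have h4 : b.natAbs ≤ T / m := by
      rw [Nat.le_div_iff_mul_le hm]
      have h5 : ((m : ℤ) * b).natAbs ≤ T := by omega
      rw [Int.natAbs_mul, Int.natAbs_natCast] at h5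
      rw [mul_comm]
      exact h5
    omega
  have h2 := (card_le_card h1).trans card_image_le
  have h3 : ∀ k : ℕ, ((Icc (-(k : ℤ)) (k : ℤ)).erase 0).card = 2 * k := by
    intro k
    rw [card_erase_of_mem (mem_Icc.2 ⟨by omega, by omega⟩), Int.card_Icc]
    omega
  rw [h3] at h2
  have h4 : ((T / m : ℕ) : ℝ) ≤ T / m := Nat.cast_div_le
  calc _ ≤ ((2 * (T / m) : ℕ) : ℝ) := by exact_mod_cast h2
    _ = 2 * ((T / m : ℕ) : ℝ) := by push_cast; ring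
    _ ≤ 2 * (T / m) := by linarith
    _ = _ := by ring

lemma sum_inv_sq_le {w N : ℕ} (hw : 1 ≤ w) :
    ∑ p ∈ Ioc w N, 1 / (p : ℝ) ^ 2 ≤ 1 / (w : ℝ) := by
  have h : ∀ N : ℕ, w ≤ N → ∑ p ∈ Ioc w N, 1 / (p : ℝ) ^ 2 ≤ 1 / (w : ℝ) - 1 / (N : ℝ) := by
    intro N hN
    induction N, hN using Nat.le_induction with
    | base => simp
    | succ N hN ih =>
      rw [← Finset.insert_Ioc_right_eq_Ioc_add_one hN, sum_insert (by simp)]
      have h1 : (0 : ℝ) < N := by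
        have : 0 < N := by omega
        exact_mod_cast this
      have h2 : 1 / ((N + 1 : ℕ) : ℝ) ^ 2 ≤ 1 / (N : ℝ) - 1 / ((N + 1 : ℕ) : ℝ) := by
        push_cast
        rw [div_sub_div _ _ h1.ne' (by positivity), div_le_div_iff₀ (by positivity) (by positivity)]
        nlinarith
      linarith
  rcases le_total w N with h1 | h1
  · have h2 := h N h1
    have h3 : (0 : ℝ) ≤ 1 / (N : ℝ) := by positivity
    linarith
  · rw [Ioc_eq_empty_of_le h1, sum_empty]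
    positivity

/-- the number of the exceptional pairs -/
theorem exc_card {w T : ℕ} (hw : 1 ≤ w) :
    ((((Box T).filter (fun t : ℤ × ℤ => t.1 ≠ 0 ∧ t.2 ≠ 0 ∧ Exc w t)).card : ℕ) : ℝ) ≤
      12 * (T : ℝ) ^ 2 / w := by
  set F : ℕ → Finset ℤ := fun m => (Icc (-(T : ℤ)) T).filter (fun a : ℤ => a ≠ 0 ∧ (m : ℤ) ∣ a)
    with hF
  set G : ℕ → Finset (ℤ × ℤ) := fun p =>
    (F (p ^ 2) ×ˢ F 1 ∪ F 1 ×ˢ F (p ^ 2)) ∪ F p ×ˢ F p with hG
  have hsub : (Box T).filter (fun t : ℤ × ℤ => t.1 ≠ 0 ∧ t.2 ≠ 0 ∧ Exc w t) ⊆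
      (Ioc w T).biUnion G := by
    intro t ht
    rw [mem_filter, mem_Box] at ht
    obtain ⟨⟨h1, h2⟩, h3, h4, p, hp, hwp, h5⟩ := ht
    have hmem : ∀ m : ℕ, ∀ a : ℤ, a ∈ F m ↔ (-(T : ℤ) ≤ a ∧ a ≤ T) ∧ a ≠ 0 ∧ (m : ℤ) ∣ a := by
      intro m a
      rw [hF]
      simp only
      rw [mem_filter, mem_Icc]
    have b1 : -(T : ℤ) ≤ t.1 ∧ t.1 ≤ T := by omega
    have b2 : -(T : ℤ) ≤ t.2 ∧ t.2 ≤ T := by omega
    have one : ∀ a : ℤ, ((1 : ℕ) : ℤ) ∣ a := fun a => by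
      rw [Nat.cast_one]
      exact one_dvd a
    have hle : ∀ a : ℤ, a ≠ 0 → a.natAbs ≤ T → (p : ℤ) ∣ a → p ≤ T := fun a ha haT hd =>
      (Nat.le_of_dvd (Int.natAbs_pos.2 ha) (Int.natCast_dvd.1 hd)).trans haT
    rw [mem_biUnion]
    refine ⟨p, mem_Ioc.2 ⟨hwp, ?_⟩, ?_⟩
    · rcases h5 with h | h | ⟨h, -⟩
      · exact hle _ h3 h1 ((dvd_pow_self _ two_ne_zero).trans h)
      · exact hle _ h4 h2 ((dvd_pow_self _ two_ne_zero).trans h)
      · exact hle _ h3 h1 h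
    · rw [hG]
      simp only
      rw [mem_union, mem_union, mem_product, mem_product, mem_product, hmem, hmem, hmem, hmem,
        hmem, hmem]
      push_cast
      rcases h5 with h | h | ⟨h, h'⟩
      · exact Or.inl (Or.inl ⟨⟨b1, h3, h⟩, b2, h4, one_dvd _⟩)
      · exact Or.inl (Or.inr ⟨⟨b1, h3, one_dvd _⟩, b2, h4, h⟩)
      · exact Or.inr ⟨⟨b1, h3, h⟩, b2, h4, h'⟩
  have hG' : ∀ p ∈ Ioc w T, ((G p).card : ℝ) ≤ 12 * (T : ℝ) ^ 2 * (1 / (p : ℝ) ^ 2) := by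
    intro p hp
    rw [mem_Ioc] at hp
    have hp0 : 0 < p := by omega
    have hp0' : (0 : ℝ) < p := by exact_mod_cast hp0
    have c1 : ((F 1).card : ℝ) ≤ 2 * T := by
      have h9 : ((F 1).card : ℝ) ≤ 2 * T / (1 : ℕ) := cnt_dvd (T := T) (m := 1) one_pos
      rw [Nat.cast_one, div_one] at h9
      exact h9
    have c2 : ((F (p ^ 2)).card : ℝ) ≤ 2 * T / (p : ℝ) ^ 2 := by
      have h9 : ((F (p ^ 2)).card : ℝ) ≤ 2 * T / ((p ^ 2 : ℕ) : ℝ) :=
        cnt_dvd (T := T) (m := p ^ 2) (by positivity)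
      rw [Nat.cast_pow] at h9
      exact h9
    have c3 : ((F p).card : ℝ) ≤ 2 * T / p := cnt_dvd hp0
    have c4 : (G p).card ≤ (F (p ^ 2)).card * (F 1).card + (F 1).card * (F (p ^ 2)).card +
        (F p).card * (F p).card := by
      rw [hG]
      simp only
      refine (card_union_le _ _).trans ?_
      rw [← card_product, ← card_product, ← card_product]
      exact Nat.add_le_add_right (card_union_le _ _) _
    have c5 : ((G p).card : ℝ) ≤ ((F (p ^ 2)).card : ℝ) * (F 1).card +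
        (F 1).card * (F (p ^ 2)).card + (F p).card * (F p).card := by exact_mod_cast c4
    have d1 : ((F (p ^ 2)).card : ℝ) * (F 1).card ≤ (2 * T / (p : ℝ) ^ 2) * (2 * T) :=
      mul_le_mul c2 c1 (Nat.cast_nonneg _) (by positivity)
    have d3 : ((F p).card : ℝ) * (F p).card ≤ (2 * T / p) * (2 * T / p) :=
      mul_le_mul c3 c3 (Nat.cast_nonneg _) (by positivity)
    have e1 : (2 * T / p : ℝ) * (2 * T / p) = 4 * (T : ℝ) ^ 2 * (1 / (p : ℝ) ^ 2) := by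
      field_simp
      ring
    have e2 : (2 * T / (p : ℝ) ^ 2) * (2 * T) = 4 * (T : ℝ) ^ 2 * (1 / (p : ℝ) ^ 2) := by
      field_simp
      ring
    nlinarith
  have h1 := (card_le_card hsub).trans card_biUnion_le
  calc _ ≤ ((∑ p ∈ Ioc w T, (G p).card : ℕ) : ℝ) := by exact_mod_cast h1
    _ = ∑ p ∈ Ioc w T, ((G p).card : ℝ) := by push_cast; rfl
    _ ≤ ∑ p ∈ Ioc w T, 12 * (T : ℝ) ^ 2 * (1 / (p : ℝ) ^ 2) := sum_le_sum hG'
    _ = 12 * (T : ℝ) ^ 2 * ∑ p ∈ Ioc w T, (1 / (p : ℝ) ^ 2) := by rw [mul_sum]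
    _ ≤ 12 * (T : ℝ) ^ 2 * (1 / w) :=
        mul_le_mul_of_nonneg_left (sum_inv_sq_le hw) (by positivity)
    _ = _ := by ring

end Pool.Agent.H514.IS
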