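import Mathlib

/-! Two existence statements over the prime fields. -/

set_option autoImplicit false

namespace Pool.Agent.H514.IS

open Finset

variable {p : ℕ} [hp : Fact p.Prime]


lemma rc2 (hp2 : p ≠ 2) : ringChar (ZMod p) ≠ 2 := by
  rw [ZMod.ringChar_zmod_n]
  exact hp2

/-- the sum of the quadratic character over a split quadratic polynomial -/
lemma sum_quad (hp2 : p ≠ 2) {A B : ZMod p} (hAB : A ≠ B) :
    ∑ x : ZMod p, (quadraticChar (ZMod p)) ((x - A) * (x - B)) = -1 := by
  have h0 := quadraticChar_sum_zero (F := ZMod p) (rc2 hp2)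
  -- shift: `x = A + z`
  have h1 : ∑ x : ZMod p, (quadraticChar (ZMod p)) ((x - A) * (x - B)) = ∑ z : ZMod p, (quadraticChar (ZMod p)) (z * (z + (A - B))) := by
    refine Fintype.sum_equiv (Equiv.subRight A) _ _ fun x => ?_
    rw [Equiv.subRight_apply]
    congr 1
    ring
  set c : ZMod p := A - B with hc
  have hc0 : c ≠ 0 := sub_ne_zero.2 hAB
  rw [h1, ← Finset.sum_erase_add _ _ (Finset.mem_univ (0 : ZMod p)), zero_mul,
    MulChar.map_zero, add_zero]
  have h2 : ∑ z ∈ Finset.univ.erase (0 : ZMod p), (quadraticChar (ZMod p)) (z * (z + c)) =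
      ∑ w ∈ Finset.univ.erase (1 : ZMod p), (quadraticChar (ZMod p)) w := by
    refine Finset.sum_bij' (fun z _ => 1 + c / z) (fun w _ => c / (w - 1)) ?_ ?_ ?_ ?_ ?_
    · intro z hz
      have hz0 : z ≠ 0 := (Finset.mem_erase.1 hz).1
      rw [Finset.mem_erase]
      refine ⟨fun h => ?_, Finset.mem_univ _⟩
      have : c / z = 0 := by linear_combination h
      rcases div_eq_zero_iff.1 this with h | h
      · exact hc0 h
      · exact hz0 h
    · intro w hw
      have hw1 : w - 1 ≠ 0 := sub_ne_zero.2 (Finset.mem_erase.1 hw).1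
      rw [Finset.mem_erase]
      exact ⟨div_ne_zero hc0 hw1, Finset.mem_univ _⟩
    · intro z hz
      have hz0 : z ≠ 0 := (Finset.mem_erase.1 hz).1
      show c / (1 + c / z - 1) = z
      rw [add_sub_cancel_left, div_div_eq_mul_div, mul_div_assoc, mul_comm, div_mul_cancel₀ _ hc0]
    · intro w hw
      have hw1 : w - 1 ≠ 0 := sub_ne_zero.2 (Finset.mem_erase.1 hw).1
      field_simp
      ring
    · intro z hz
      have hz0 : z ≠ 0 := (Finset.mem_erase.1 hz).1
      have h3 : z * (z + c) = z ^ 2 * (1 + c / z) := by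
        field_simp
      rw [h3, map_mul, quadraticChar_sq_one' hz0, one_mul]
  rw [h2]
  have h4 := Finset.sum_erase_add Finset.univ (fun w => (quadraticChar (ZMod p)) w) (Finset.mem_univ (1 : ZMod p))
  rw [h0, MulChar.map_one] at h4
  linarith

lemma chi_ge (x : ZMod p) : -1 ≤ (quadraticChar (ZMod p)) x := by
  by_cases hx : x = 0
  · rw [hx, MulChar.map_zero]
    norm_num
  · rcases quadraticChar_dichotomy hx with h | h <;> rw [h] <;> norm_num

lemma chi_le (x : ZMod p) : (quadraticChar (ZMod p)) x ≤ 1 := by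
  by_cases hx : x = 0
  · rw [hx, MulChar.map_zero]
    norm_num
  · rcases quadraticChar_dichotomy hx with h | h
    · rw [h]
    · rw [h]
      norm_num

/-- good reduction -/
theorem ex_good (hp2 : p ≠ 2) {A B : ZMod p} (hA : (quadraticChar (ZMod p)) A = 1) (hB : (quadraticChar (ZMod p)) B = 1) (hAB : A ≠ B) :
    ∃ x : ZMod p, (quadraticChar (ZMod p)) x = -1 ∧ (quadraticChar (ZMod p)) ((x - A) * (x - B)) = -1 := by
  by_contra hno
  push Not at hno
  have h1 : ∑ x : ZMod p, (1 - (quadraticChar (ZMod p)) x) * (1 - (quadraticChar (ZMod p)) ((x - A) * (x - B))) = 0 := by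
    refine Finset.sum_eq_zero fun x _ => ?_
    by_cases hx0 : x = 0
    · rw [hx0, zero_sub, zero_sub, neg_mul_neg, map_mul, hA, hB]
      norm_num
    by_cases hxA : x = A
    · rw [hxA, hA]
      norm_num
    by_cases hxB : x = B
    · rw [hxB, hB]
      norm_num
    rcases quadraticChar_dichotomy hx0 with h | h
    · rw [h]
      norm_num
    · have h2 := hno x h
      have h3 : (x - A) * (x - B) ≠ 0 := mul_ne_zero (sub_ne_zero.2 hxA) (sub_ne_zero.2 hxB)
      rcases quadraticChar_dichotomy h3 with h4 | h4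
      · rw [h4]
        norm_num
      · exact absurd h4 h2
  have h2 : ∑ x : ZMod p, (1 - (quadraticChar (ZMod p)) x) * (1 - (quadraticChar (ZMod p)) ((x - A) * (x - B))) =
      (p : ℤ) - 0 - (-1) + ∑ x : ZMod p, (quadraticChar (ZMod p)) x * (quadraticChar (ZMod p)) ((x - A) * (x - B)) := by
    rw [← quadraticChar_sum_zero (F := ZMod p) (rc2 hp2), ← sum_quad hp2 hAB]
    have h3 : (p : ℤ) = ∑ _x : ZMod p, (1 : ℤ) := by
      rw [Finset.sum_const, Finset.card_univ, ZMod.card, nsmul_eq_mul, mul_one]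
    rw [h3, ← Finset.sum_sub_distrib, ← Finset.sum_sub_distrib, ← Finset.sum_add_distrib]
    refine Finset.sum_congr rfl fun x _ => ?_
    ring
  have h3 : -(p : ℤ) ≤ ∑ x : ZMod p, (quadraticChar (ZMod p)) x * (quadraticChar (ZMod p)) ((x - A) * (x - B)) := by
    have h4 : ∑ _x : ZMod p, (-1 : ℤ) = -(p : ℤ) := by
      rw [Finset.sum_const, Finset.card_univ, ZMod.card, nsmul_eq_mul, mul_neg, mul_one]
    rw [← h4]
    refine Finset.sum_le_sum fun x _ => ?_
    rw [← map_mul]
    exact chi_ge _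
  linarith

/-- multiplicative reduction -/
theorem ex_mult (hp5 : 5 ≤ p) {B : ZMod p} (hB : B ≠ 0) :
    ∃ x : ZMod p, (quadraticChar (ZMod p)) x = -1 ∧ (quadraticChar (ZMod p)) (x - B) = 1 := by
  have hp2 : p ≠ 2 := by omega
  by_contra hno
  push Not at hno
  have h2 : ∑ x : ZMod p, (1 - (quadraticChar (ZMod p)) x) * (1 + (quadraticChar (ZMod p)) (x - B)) = (p : ℤ) + 1 := by
    have e1 : ∑ x : ZMod p, (quadraticChar (ZMod p)) x = 0 := quadraticChar_sum_zero (F := ZMod p) (rc2 hp2)
    have e2 : ∑ x : ZMod p, (quadraticChar (ZMod p)) (x - B) = 0 := by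
      rw [← e1]
      exact Fintype.sum_equiv (Equiv.subRight B) _ _ fun x => rfl
    have e3 : ∑ x : ZMod p, (quadraticChar (ZMod p)) x * (quadraticChar (ZMod p)) (x - B) = -1 := by
      rw [← sum_quad hp2 (A := 0) (B := B) hB.symm]
      refine Finset.sum_congr rfl fun x _ => ?_
      rw [sub_zero, map_mul]
    have h3 : (p : ℤ) = ∑ _x : ZMod p, (1 : ℤ) := by
      rw [Finset.sum_const, Finset.card_univ, ZMod.card, nsmul_eq_mul, mul_one]
    have h4 : (p : ℤ) + 1 = ∑ _x : ZMod p, (1 : ℤ) - ∑ x : ZMod p, (quadraticChar (ZMod p)) x + ∑ x : ZMod p, (quadraticChar (ZMod p)) (x - B) -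
        ∑ x : ZMod p, (quadraticChar (ZMod p)) x * (quadraticChar (ZMod p)) (x - B) := by
      rw [e1, e2, e3, ← h3]
      ring
    rw [h4, ← Finset.sum_sub_distrib, ← Finset.sum_add_distrib, ← Finset.sum_sub_distrib]
    refine Finset.sum_congr rfl fun x _ => ?_
    ring
  have h1 : ∑ x : ZMod p, (1 - (quadraticChar (ZMod p)) x) * (1 + (quadraticChar (ZMod p)) (x - B)) ≤ 4 := by
    have h3 : ∀ x ∈ Finset.univ, x ∉ ({0, B} : Finset (ZMod p)) →
        (1 - (quadraticChar (ZMod p)) x) * (1 + (quadraticChar (ZMod p)) (x - B)) = 0 := by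
      intro x _ hx
      simp only [Finset.mem_insert, Finset.mem_singleton, not_or] at hx
      rcases quadraticChar_dichotomy hx.1 with h | h
      · rw [h]
        norm_num
      · have h4 := hno x h
        rcases quadraticChar_dichotomy (sub_ne_zero.2 hx.2) with h5 | h5
        · exact absurd h5 h4
        · rw [h5]
          norm_num
    rw [← Finset.sum_subset (Finset.subset_univ _) h3, Finset.sum_pair hB.symm, MulChar.map_zero,
      sub_self, MulChar.map_zero]
    have h5 := chi_le (p := p) (0 - B)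
    have h6 := chi_ge (p := p) B
    linarith
  rw [h2] at h1
  have : (p : ℤ) ≤ 3 := by linarith
  omega

end Pool.Agent.H514.IS
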