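import Pool.Agent.H514.IS.LocI
import Pool.Graph.R_seed8.W839.SH.Desc5
import Pool.Graph.R_seed8.W214.RK2.Desc4

/-! The subgroup of the Tate-Shafarevich group of the 2-isogenous curve. -/

set_option autoImplicit false

open scoped Classical

namespace Pool.Agent.H514.IS

open Finset WeierstrassCurve Pool.Agent.W262.SH Pool.Agent.W338.SH

/-! ### Linear algebra over `F₂` -/

lemma two_val {M : Type} [AddCommGroup M] {x : M} (hx : x + x = 0) (a b : ZMod 2) :
    (a + b).val • x = a.val • x + b.val • x := by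
  have h : ∀ a b : ZMod 2, (a + b).val = a.val + b.val ∨ a.val + b.val = (a + b).val + 2 := by
    decide
  rcases h a b with h1 | h1
  · rw [h1, add_nsmul]
  · rw [← add_nsmul, h1, add_nsmul, two_nsmul, hx, add_zero]

/-- an elementary abelian quotient with a small kernel contains a large elementary group -/
lemma large_sub {ι : Type} [Finite ι] (V : Submodule (ZMod 2) (ι → ZMod 2)) {G : Type}
    [AddCommGroup G] (δ : V →+ G) (N : ℕ) (hN : Nat.card δ.ker ≤ N) :
    ∃ n : ℕ, 2 ^ Module.finrank (ZMod 2) V ≤ N * 2 ^ n ∧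
      ∃ f : (Fin n → ZMod 2) →+ G, Function.Injective f := by
  let Kr : Submodule (ZMod 2) V := AddSubgroup.toZModSubmodule 2 δ.ker
  obtain ⟨Wc, hW⟩ := Submodule.exists_isCompl Kr
  refine ⟨Module.finrank (ZMod 2) Wc, ?_, ?_⟩
  · have h1 : Module.finrank (ZMod 2) Kr + Module.finrank (ZMod 2) Wc =
        Module.finrank (ZMod 2) V := Submodule.finrank_add_eq_of_isCompl hW
    rw [← h1, pow_add]
    apply Nat.mul_le_mul_right
    have h2 : Nat.card Kr = 2 ^ Module.finrank (ZMod 2) Kr := by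
      rw [Module.natCard_eq_pow_finrank (K := ZMod 2)]
      simp
    rw [← h2]
    exact hN
  · let e : (Fin (Module.finrank (ZMod 2) Wc) → ZMod 2) ≃ₗ[ZMod 2] Wc :=
      (Module.finBasis (ZMod 2) Wc).equivFun.symm
    refine ⟨(δ.comp Wc.subtype.toAddMonoidHom).comp e.toLinearMap.toAddMonoidHom, ?_⟩
    rw [injective_iff_map_eq_zero]
    intro x hx
    have h3 : δ ((e x : V)) = 0 := hx
    have h4 : (e x : V) ∈ Kr := h3
    have h5 : (e x : V) ∈ Kr ⊓ Wc := ⟨h4, (e x).2⟩
    rw [hW.inf_eq_bot, Submodule.mem_bot] at h5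
    have h6 : e x = 0 := Subtype.ext h5
    exact (LinearEquiv.map_eq_zero_iff e).1 h6

/-! ### Signs -/

/-- the index of a sign -/
def lam (z : ℤ) : ZMod 2 := if z = 1 then 0 else 1

lemma prod_sign {ι : Type} (s : Finset ι) (ε : ι → ℤ) (hε : ∀ i ∈ s, ε i = 1 ∨ ε i = -1)
    (v : ι → ZMod 2) : ∏ i ∈ s, (ε i) ^ (v i).val =
      if (∑ i ∈ s, v i * lam (ε i)) = 0 then 1 else -1 := by
  induction s using Finset.induction_on with
  | empty => simp
  | insert i s hi ih =>
    rw [Finset.prod_insert hi, Finset.sum_insert hi,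
      ih (fun j hj => hε j (Finset.mem_insert_of_mem hj))]
    have h2 : ∀ a b : ZMod 2, ∀ c : Bool, (if c then (1 : ℤ) else -1) ^ a.val *
        (if b = 0 then (1 : ℤ) else -1) =
        if a * (if c then 0 else 1) + b = 0 then 1 else -1 := by decide
    rcases hε i (Finset.mem_insert_self _ _) with h | h
    · have := h2 (v i) (∑ x ∈ s, v x * lam (ε x)) true
      have l1 : lam 1 = 0 := by simp [lam]
      rw [h, l1]
      simpa using this
    · have := h2 (v i) (∑ x ∈ s, v x * lam (ε x)) false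
      have l1 : lam (-1) = 1 := by simp [lam]
      rw [h, l1]
      simpa using this

/-! ### The classes -/

/-- a square root of the natural number `p` -/
noncomputable def rt (p : ℕ) : QB :=
  (IsAlgClosed.exists_pow_nat_eq ((p : QB)) (n := 2) (by norm_num)).choose

lemma rt_sq (p : ℕ) : rt p ^ 2 = (p : QB) :=
  (IsAlgClosed.exists_pow_nat_eq ((p : QB)) (n := 2) (by norm_num)).choose_spec

section cls

variable (P : Finset ℕ) (a b : ℤ)

/-- the integer of a vector -/
def dd (v : P → ZMod 2) : ℕ := ∏ p : P, (p : ℕ) ^ (v p).val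

/-- its square root -/
noncomputable def ss (v : P → ZMod 2) : QB := ∏ p : P, rt p ^ (v p).val

lemma ss_sq (v : P → ZMod 2) : ss P v ^ 2 = algebraMap ℚ QB ((dd P v : ℕ) : ℚ) := by
  unfold ss dd
  rw [map_natCast, ← Finset.prod_pow]
  push_cast
  refine Finset.prod_congr rfl fun p _ => ?_
  rw [← pow_mul, mul_comm, pow_mul, rt_sq]

/-- the cocycle of a vector -/
noncomputable def Ph (v : P → ZMod 2) (σ : GQ) : Pt (D a b) QB :=
  ∑ p : P, (v p).val • fs a b (rt p) σ

lemma fs_two (s : QB) (σ : GQ) : fs a b s σ + fs a b s σ = 0 := by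
  unfold fs
  split_ifs
  · exact add_zero _
  · exact TT_two _

lemma Ph_add (v w : P → ZMod 2) : Ph P a b (v + w) = Ph P a b v + Ph P a b w := by
  funext σ
  rw [Pi.add_apply]
  unfold Ph
  rw [← Finset.sum_add_distrib]
  exact Finset.sum_congr rfl fun p _ => two_val (fs_two a b _ σ) _ _

lemma rt_ne {p : ℕ} (hp : p ≠ 0) : rt p ≠ 0 := by
  intro h
  have := rt_sq p
  rw [h, zero_pow two_ne_zero] at this
  exact hp (by exact_mod_cast this.symm)

lemma fs_one (σ : GQ) : fs a b 1 σ = 0 := by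
  rw [fs, if_pos (map_one _)]

variable {P} in
lemma Ph_eq (hP : ∀ p ∈ P, p ≠ 0) (v : P → ZMod 2) : Ph P a b v = fs a b (ss P v) := by
  funext σ
  unfold Ph ss
  have key : ∀ s : Finset P, (∏ p ∈ s, rt p ^ (v p).val ≠ 0) ∧
      (∃ e : ℚ, (∏ p ∈ s, rt p ^ (v p).val) ^ 2 = algebraMap ℚ QB e) ∧
      ∑ p ∈ s, (v p).val • fs a b (rt p) σ = fs a b (∏ p ∈ s, rt p ^ (v p).val) σ := by
    intro s
    induction s using Finset.induction_on with
    | empty =>
      refine ⟨by simp, ⟨1, by simp⟩, ?_⟩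
      rw [Finset.sum_empty, Finset.prod_empty, fs_one]
    | insert i s hi ih =>
      obtain ⟨h1, ⟨e, h2⟩, h3⟩ := ih
      have hi0 : rt i ≠ 0 := rt_ne (hP i i.2)
      have hq : (rt i ^ (v i).val) ^ 2 = algebraMap ℚ QB (((i : ℕ) : ℚ) ^ (v i).val) := by
        rw [← pow_mul, mul_comm, pow_mul, rt_sq, map_pow, map_natCast]
      refine ⟨?_, ?_, ?_⟩
      · rw [Finset.prod_insert hi]
        exact mul_ne_zero (pow_ne_zero _ hi0) h1
      · refine ⟨((i : ℕ) : ℚ) ^ (v i).val * e, ?_⟩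
        rw [Finset.prod_insert hi, mul_pow, hq, h2, map_mul]
      · rw [Finset.prod_insert hi, Finset.sum_insert hi, h3,
          fs_mul hq h2 (pow_ne_zero _ hi0) h1]
        congr 1
        have : ∀ c : ZMod 2, c.val = 0 ∨ c.val = 1 := by decide
        rcases this (v i) with h | h
        · rw [h, zero_nsmul, pow_zero, fs_one]
        · rw [h, one_nsmul, pow_one]
  exact (key Finset.univ).2.2

variable {P} in
lemma ss_ne (hP : ∀ p ∈ P, p ≠ 0) (v : P → ZMod 2) : ss P v ≠ 0 :=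
  Finset.prod_ne_zero_iff.2 fun p _ => pow_ne_zero _ (rt_ne (hP p p.2))

/-! ### The integer of a vector -/

variable {P}

lemma dd_eq (v : P → ZMod 2) :
    dd P v = ∏ p ∈ Finset.univ.filter (fun p : P => v p ≠ 0), (p : ℕ) := by
  unfold dd
  rw [Finset.prod_filter]
  refine Finset.prod_congr rfl fun p _ => ?_
  have : ∀ c : ZMod 2, (c ≠ 0 → c.val = 1) ∧ (¬ c ≠ 0 → c.val = 0) := by decide
  split_ifs with h
  · rw [(this (v p)).1 h, pow_one]
  · rw [(this (v p)).2 h, pow_zero]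

lemma dd_dvd (hP : ∀ p ∈ P, p.Prime) (v : P → ZMod 2) {q : ℕ} (hq : q.Prime) :
    q ∣ dd P v ↔ ∃ h : q ∈ P, v ⟨q, h⟩ ≠ 0 := by
  rw [dd_eq, hq.prime.dvd_finsetProd_iff]
  constructor
  · rintro ⟨p, hp, hd⟩
    have h1 : q = p := (Nat.prime_dvd_prime_iff_eq hq (hP p p.2)).1 hd
    subst h1
    exact ⟨p.2, (Finset.mem_filter.1 hp).2⟩
  · rintro ⟨h, hv⟩
    exact ⟨⟨q, h⟩, Finset.mem_filter.2 ⟨Finset.mem_univ _, hv⟩, dvd_rfl⟩

lemma dd_pos (hP : ∀ p ∈ P, p.Prime) (v : P → ZMod 2) : 0 < dd P v :=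
  Finset.prod_pos fun p _ => pow_pos (hP p p.2).pos _

lemma dd_sqf (hP : ∀ p ∈ P, p.Prime) (v : P → ZMod 2) : Squarefree (dd P v) := by
  rw [dd_eq]
  have : ∀ s : Finset P, Squarefree (∏ p ∈ s, (p : ℕ)) ∧
      ∀ q : P, q ∉ s → Nat.Coprime q (∏ p ∈ s, (p : ℕ)) := by
    intro s
    induction s using Finset.induction_on with
    | empty => exact ⟨by simp, fun q _ => by simp⟩
    | insert i s hi ih =>
      rw [Finset.prod_insert hi]
      refine ⟨?_, ?_⟩
      · rw [Nat.squarefree_mul (ih.2 i hi)]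
        exact ⟨(hP i i.2).squarefree, ih.1⟩
      · intro q hq
        rw [Finset.mem_insert, not_or] at hq
        refine Nat.Coprime.mul_right ?_ (ih.2 q hq.2)
        refine (Nat.coprime_primes (hP q q.2) (hP i i.2)).2 fun h => hq.1 (Subtype.ext h)
  exact (this _).1

lemma dd_inj (hP : ∀ p ∈ P, p.Prime) : Function.Injective (dd P) := by
  intro v w h
  funext p
  have h1 := dd_dvd hP v (hP p p.2)
  have h2 := dd_dvd hP w (hP p p.2)
  rw [h, h2] at h1
  have h3 : v p ≠ 0 ↔ w p ≠ 0 := by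
    constructor
    · intro h4
      obtain ⟨h5, h6⟩ := h1.2 ⟨p.2, h4⟩
      exact h6
    · intro h4
      obtain ⟨h5, h6⟩ := h1.1 ⟨p.2, h4⟩
      exact h6
  revert h3
  generalize v p = x
  generalize w p = y
  revert x y
  decide

end cls

end Pool.Agent.H514.IS
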