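import Pool.Agent.H514.IS.Tor
import Pool.Agent.H514.IS.Fin
import Pool.Graph.R_seed8.W22.RK.Loc

/-! The local conditions for the classes of the kernel of the 2-isogeny: the curve
`y² = x³ + 2 (A + B) x² + (A - B)² x` is 2-isogenous to `y² = x (x - A) (x - B)`. -/

set_option autoImplicit false

open scoped Classical

namespace Pool.Agent.H514.IS

open WeierstrassCurve Pool.Agent.W262.SH Pool.Agent.W338.SH

/-- local triviality of the class `d` at the place `K` -/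
def LT (a b : ℤ) (K : Type) [Field K] [Algebra ℚ K] (d : ℚ) : Prop :=
  ∀ s : QB, s ^ 2 = algebraMap ℚ QB d → s ≠ 0 → LocTriv (D a b) K (fs a b s)

theorem LocTriv_add {W : WeierstrassCurve ℚ} {K : Type} [Field K] [Algebra ℚ K]
    {f g : GQ → Pt W QB} (hf : LocTriv W K f) (hg : LocTriv W K g) :
    LocTriv W K (fun σ => f σ + g σ) := by
  intro ι
  obtain ⟨P, hP⟩ := hf ι
  obtain ⟨Q, hQ⟩ := hg ι
  refine ⟨P + Q, fun τ σ h => ?_⟩
  show act W ι (f σ + g σ) = _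
  simp only [map_add, hP τ σ h, hQ τ σ h]
  abel

section K

variable {a b : ℤ} {K : Type} [Field K] [Algebra ℚ K]

theorem LT_mul {d e : ℚ} (hd : d ≠ 0) (h1 : LT a b K d) (h2 : LT a b K e) :
    LT a b K (d * e) := by
  intro s hs hs0
  obtain ⟨t, ht⟩ := IsAlgClosed.exists_pow_nat_eq (algebraMap ℚ QB d) (n := 2) (by norm_num)
  have hd' : algebraMap ℚ QB d ≠ 0 := (map_ne_zero _).2 hd
  have ht0 : t ≠ 0 := by
    rintro rfl
    apply hd'
    rw [← ht]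
    ring
  have hst : (s / t) ^ 2 = algebraMap ℚ QB e := by
    rw [div_pow, hs, ht, map_mul, mul_div_cancel_left₀ _ hd']
  have hst0 : s / t ≠ 0 := div_ne_zero hs0 ht0
  have h3 : fs a b s = fun σ => fs a b t σ + fs a b (s / t) σ := by
    funext σ
    rw [← fs_mul ht hst ht0 hst0, mul_div_cancel₀ _ ht0]
  rw [h3]
  exact LocTriv_add (h1 t ht ht0) (h2 _ hst hst0)

theorem LT_isSq {d : ℚ} (h : IsSquare (algebraMap ℚ K d)) : LT a b K d :=
  fun _ hs _ => loc_sq hs K h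

theorem LT_sq (c : ℚ) : LT a b K (c * c) := by
  apply LT_isSq
  rw [map_mul]
  exact ⟨_, rfl⟩

/-- the class depends only on the class modulo squares -/
theorem LT_cancel {d c : ℚ} (hd : d ≠ 0) (hc : c ≠ 0) (h : LT a b K (d * (c * c))) :
    LT a b K d := by
  have h1 := LT_mul (mul_ne_zero hd (mul_ne_zero hc hc)) h (LT_sq (a := a) (b := b) (K := K) c⁻¹)
  have h2 : d * (c * c) * (c⁻¹ * c⁻¹) = d := by
    field_simp
  rw [h2] at h1
  exact h1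

end K

section AB

variable {A B : ℤ} {K : Type} [Field K] [Algebra ℚ K]

theorem b_ne (hAB : A ≠ B) : (A - B) ^ 2 ≠ 0 := pow_ne_zero _ (sub_ne_zero.2 hAB)

theorem d_ne (hA : A ≠ 0) (hB : B ≠ 0) : (2 * (A + B)) ^ 2 - 4 * (A - B) ^ 2 ≠ 0 := by
  have : (2 * (A + B)) ^ 2 - 4 * (A - B) ^ 2 = 16 * (A * B) := by ring
  rw [this]
  exact mul_ne_zero (by norm_num) (mul_ne_zero hA hB)

/-- a point of the isogenous curve whose abscissa is in the class `d` -/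
theorem LT_of_x (hA : A ≠ 0) (hB : B ≠ 0) (hAB : A ≠ B) {d : ℤ} (hd : d ≠ 0) (x : ℤ)
    (h1 : IsSquare ((x * d : ℤ) : K)) (h2 : IsSquare (((x - A) * (x - B) * d : ℤ) : K)) :
    LT (2 * (A + B)) ((A - B) ^ 2) K (d : ℚ) := by
  intro s hs hs0
  refine loc_tor (b_ne hAB) (d_ne hA hB) hs hs0 K ?_
  obtain ⟨c1, hc1⟩ := h1
  obtain ⟨c2, hc2⟩ := h2
  have hdK : (d : K) ≠ 0 := ne_L hd K
  push_cast at hc1 hc2
  refine ⟨2 * c1 / d, 4 * c2 / d, ?_⟩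
  rw [map_intCast]
  push_cast
  have e1 : (d : K) * (2 * c1 / d) ^ 2 = 4 * x := by
    field_simp
    linear_combination (-4 : K) * hc1
  have e2 : (d : K) * (4 * c2 / d) ^ 2 = 16 * ((x - A) * (x - B)) := by
    field_simp
    linear_combination (-16 : K) * hc2
  rw [e1, e2]
  ring

theorem LT_AB (hA : A ≠ 0) (hB : B ≠ 0) (hAB : A ≠ B) :
    LT (2 * (A + B)) ((A - B) ^ 2) K ((A * B : ℤ) : ℚ) := by
  refine LT_of_x hA hB hAB (mul_ne_zero hA hB) 0 ?_ ?_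
  · rw [zero_mul, Int.cast_zero]
    exact ⟨0, by ring⟩
  · refine ⟨((A * B : ℤ) : K), ?_⟩
    push_cast
    ring

theorem LT_A (hA : A ≠ 0) (hB : B ≠ 0) (hAB : A ≠ B) {d : ℤ} (hd : d ≠ 0)
    (h : IsSquare ((A * d : ℤ) : K)) : LT (2 * (A + B)) ((A - B) ^ 2) K (d : ℚ) := by
  refine LT_of_x hA hB hAB hd A h ?_
  rw [sub_self, zero_mul, zero_mul, Int.cast_zero]
  exact ⟨0, by ring⟩

theorem LT_B (hA : A ≠ 0) (hB : B ≠ 0) (hAB : A ≠ B) {d : ℤ} (hd : d ≠ 0)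
    (h : IsSquare ((B * d : ℤ) : K)) : LT (2 * (A + B)) ((A - B) ^ 2) K (d : ℚ) := by
  refine LT_of_x hA hB hAB hd B h ?_
  rw [sub_self, mul_zero, zero_mul, Int.cast_zero]
  exact ⟨0, by ring⟩

end AB

section padic

variable {p : ℕ} [hp : Fact p.Prime]

lemma leg_cast (n : ℤ) : legendreSym p n = quadraticChar (ZMod p) (n : ZMod p) := rfl

/-- a unit with symbol one is a square -/
lemma sq_of_leg (hp2 : p ≠ 2) {n : ℤ} (h : legendreSym p n = 1) : IsSquare (n : ℚ_[p]) := by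
  have hn0 : (n : ZMod p) ≠ 0 := by
    intro h0
    rw [leg_cast, h0, MulChar.map_zero] at h
    exact zero_ne_one h
  obtain ⟨c, hc⟩ := (legendreSym.eq_one_iff p hn0).1 h
  obtain ⟨m, hm⟩ := ZMod.intCast_surjective c
  have hc0 : c ≠ 0 := by
    rintro rfl
    rw [mul_zero] at hc
    exact hn0 hc
  have hmp : ¬ (p : ℤ) ∣ m := by
    intro hd
    rw [← ZMod.intCast_zmod_eq_zero_iff_dvd, hm] at hd
    exact hc0 hd
  have hdvd : (p : ℤ) ∣ n - m * m := by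
    rw [← ZMod.intCast_zmod_eq_zero_iff_dvd]
    push_cast
    rw [hm, hc, sub_self]
  have hm1 : ‖(m : ℚ_[p])‖ = 1 := by
    have h2 : ¬ ‖((m : ℤ) : ℚ_[p])‖ < 1 := by
      rw [Padic.norm_intCast_lt_one_iff]
      exact hmp
    exact le_antisymm (Padic.norm_int_le_one m) (not_lt.1 h2)
  have hm0 : (m : ℚ_[p]) ≠ 0 := by
    intro h0
    rw [h0, norm_zero] at hm1
    exact zero_ne_one hm1
  have h3 : IsSquare (1 + ((n - m * m : ℤ) : ℚ_[p]) / (m * m)) := by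
    apply Pool.Agent.W22.RK.isSquare_one_add hp2
    rw [norm_div, norm_mul, hm1, mul_one, div_one, Padic.norm_intCast_lt_one_iff]
    exact hdvd
  obtain ⟨r, hr⟩ := h3
  refine ⟨m * r, ?_⟩
  have h4 : (n : ℚ_[p]) = (m * m) * (1 + ((n - m * m : ℤ) : ℚ_[p]) / (m * m)) := by
    push_cast
    field_simp
    ring
  rw [h4, hr]
  ring

/-- the prime two -/
lemma sq_two {d : ℤ} (h : d % 8 = 1) : IsSquare (d : ℚ_[2]) := by
  obtain ⟨k, hk⟩ : ∃ k, d = 1 + 8 * k := ⟨d / 8, by omega⟩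
  let F : Polynomial ℤ_[2] := Polynomial.X ^ 2 - Polynomial.C ((d : ℤ) : ℤ_[2])
  have h1 : F.aeval (1 : ℤ_[2]) = -(8 * (k : ℤ_[2])) := by
    have h0 : F.aeval (1 : ℤ_[2]) = 1 - ((d : ℤ) : ℤ_[2]) := by simp [F]
    rw [h0, hk]
    push_cast
    ring
  have h2 : F.derivative.aeval (1 : ℤ_[2]) = 2 := by
    simp [F, one_add_one_eq_two]
  have h3 : ‖(2 : ℤ_[2])‖ = 2⁻¹ := by
    have := PadicInt.norm_p (p := 2)
    exact_mod_cast this
  have h8 : ‖(8 : ℤ_[2])‖ = (2⁻¹) ^ 3 := by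
    rw [← h3, ← norm_pow]
    norm_num
  obtain ⟨z, hz, -⟩ := hensels_lemma (p := 2) (R := ℤ_[2]) (F := F) (a := 1) (by
    rw [h1, h2, h3, norm_neg, norm_mul, h8]
    have h5 : ‖(k : ℤ_[2])‖ ≤ 1 := PadicInt.norm_le_one _
    calc ((2 : ℝ)⁻¹) ^ 3 * ‖(k : ℤ_[2])‖ ≤ (2⁻¹) ^ 3 * 1 :=
          mul_le_mul_of_nonneg_left h5 (by positivity)
      _ < (2⁻¹) ^ 2 := by norm_num)
  have h9 : z ^ 2 = ((d : ℤ) : ℤ_[2]) := by
    have : F.aeval z = z ^ 2 - ((d : ℤ) : ℤ_[2]) := by simp [F]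
    rw [this] at hz
    exact sub_eq_zero.1 hz
  refine ⟨(z : ℚ_[2]), ?_⟩
  have h10 := congrArg (fun w : ℤ_[2] => (w : ℚ_[2])) h9
  simp only [PadicInt.coe_pow, PadicInt.coe_intCast] at h10
  rw [← pow_two, h10]

lemma leg_ne {n : ℤ} (hn : ¬ (p : ℤ) ∣ n) (h : legendreSym p n ≠ 1) : legendreSym p n = -1 := by
  have hn0 : (n : ZMod p) ≠ 0 := by
    intro h0
    exact hn ((ZMod.intCast_zmod_eq_zero_iff_dvd n p).1 h0)
  rcases legendreSym.eq_one_or_neg_one p hn0 with h1 | h1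
  · exact absurd h1 h
  · exact h1

variable {A B : ℤ}

/-- unit classes at the primes dividing `A` -/
theorem LT_unit (hA : A ≠ 0) (hB : B ≠ 0) (hAB : A ≠ B) (hp5 : 5 ≤ p) (h1 : (p : ℤ) ∣ A)
    (h2 : ¬ (p : ℤ) ∣ B) {m : ℤ} (hm : ¬ (p : ℤ) ∣ m) :
    LT (2 * (A + B)) ((A - B) ^ 2) ℚ_[p] (m : ℚ) := by
  have hp2 : p ≠ 2 := by omega
  have hm0 : m ≠ 0 := by rintro rfl; exact hm (dvd_zero _)
  by_cases hleg : legendreSym p m = 1
  · apply LT_isSq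
    rw [map_intCast]
    exact sq_of_leg hp2 hleg
  have hleg' := leg_ne hm hleg
  have hB0 : (B : ZMod p) ≠ 0 := fun h => h2 ((ZMod.intCast_zmod_eq_zero_iff_dvd B p).1 h)
  obtain ⟨x0, hx1, hx2⟩ := ex_mult hp5 hB0
  obtain ⟨x, rfl⟩ := ZMod.intCast_surjective x0
  have hA0 : (A : ZMod p) = 0 := (ZMod.intCast_zmod_eq_zero_iff_dvd A p).2 h1
  rw [leg_cast] at hleg'
  refine LT_of_x hA hB hAB hm0 x (sq_of_leg hp2 ?_) (sq_of_leg hp2 ?_)
  · rw [leg_cast]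
    push_cast
    rw [map_mul, hx1, hleg']
    norm_num
  · rw [leg_cast]
    push_cast
    rw [map_mul, map_mul, hA0, sub_zero, hx1, hx2, hleg']
    norm_num

theorem LT_symm {d : ℚ} {K : Type} [Field K] [Algebra ℚ K] :
    LT (2 * (A + B)) ((A - B) ^ 2) K d ↔ LT (2 * (B + A)) ((B - A) ^ 2) K d := by
  rw [add_comm A B, sub_sq_comm]

/-- the primes dividing exactly one of `A`, `B` to an odd power -/
theorem LT_ram (hA : A ≠ 0) (hB : B ≠ 0) (hAB : A ≠ B) (hp5 : 5 ≤ p) (h1 : (p : ℤ) ∣ A)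
    (h2 : ¬ (p : ℤ) ∣ B) {d : ℤ} (hd0 : d ≠ 0) (hsq : Squarefree d) (hd : (p : ℤ) ∣ d)
    (hodd : Odd (padicValInt p (A * B))) :
    LT (2 * (A + B)) ((A - B) ^ 2) ℚ_[p] (d : ℚ) := by
  have hpp : Prime (p : ℤ) := Nat.prime_iff_prime_int.1 hp.out
  have hAB0 : A * B ≠ 0 := mul_ne_zero hA hB
  have hN0 : A * B * d ≠ 0 := mul_ne_zero hAB0 hd0
  have hvd : padicValInt p d = 1 := by
    obtain ⟨e, he⟩ := hd
    have hpe : ¬ (p : ℤ) ∣ e := by
      rintro ⟨f, hf⟩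
      rw [he, hf] at hsq
      have := hsq (p : ℤ) ⟨f, by ring⟩
      exact hpp.not_isUnit this
    have he0 : e ≠ 0 := by rintro rfl; exact hpe (dvd_zero _)
    rw [he, padicValInt.mul (by exact_mod_cast hp.out.ne_zero) he0, padicValInt.self hp.out.one_lt,
      padicValInt.eq_zero_of_not_dvd hpe]
  obtain ⟨k, hk⟩ := hodd
  have hvN : padicValInt p (A * B * d) = 2 * (k + 1) := by
    rw [padicValInt.mul hAB0 hd0, hvd, hk]
    ring
  have hdvd : (p : ℤ) ^ (2 * (k + 1)) ∣ A * B * d := by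
    rw [padicValInt_dvd_iff]
    right
    exact hvN.ge
  obtain ⟨m, hm⟩ := hdvd
  have hm0 : m ≠ 0 := by
    rintro rfl
    rw [mul_zero] at hm
    exact hN0 hm
  have hmp : ¬ (p : ℤ) ∣ m := by
    rintro ⟨e, he⟩
    have h3 : (p : ℤ) ^ (2 * (k + 1) + 1) ∣ A * B * d := ⟨e, by rw [hm, he]; ring⟩
    rw [padicValInt_dvd_iff] at h3
    rcases h3 with h3 | h3
    · exact hN0 h3
    · omega
  have hLm := LT_unit hA hB hAB hp5 h1 h2 hmp
  have hp0 : ((p : ℚ)) ≠ 0 := by exact_mod_cast hp.out.ne_zero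
  have h4 : ((A * B * d : ℤ) : ℚ) = (m : ℚ) * (((p : ℚ) ^ (k + 1)) * ((p : ℚ) ^ (k + 1))) := by
    rw [hm]
    push_cast
    ring
  have h5 : LT (2 * (A + B)) ((A - B) ^ 2) ℚ_[p] ((A * B * d : ℤ) : ℚ) := by
    rw [h4]
    exact LT_mul (by exact_mod_cast hm0) hLm (LT_sq _)
  have h6 := LT_mul (by exact_mod_cast hN0) h5 (LT_AB (K := ℚ_[p]) hA hB hAB)
  have h7 : ((A * B * d : ℤ) : ℚ) * ((A * B : ℤ) : ℚ) = (d : ℚ) * (((A * B : ℤ) : ℚ) * (A * B : ℤ)) := by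
    push_cast
    ring
  rw [h7] at h6
  exact LT_cancel (by exact_mod_cast hd0) (by exact_mod_cast hAB0) h6

/-- good primes -/
theorem LT_good (hA : A ≠ 0) (hB : B ≠ 0) (hAB : A ≠ B) (hp2 : p ≠ 2) (h1 : ¬ (p : ℤ) ∣ A)
    (h2 : ¬ (p : ℤ) ∣ B) {m : ℤ} (hm : ¬ (p : ℤ) ∣ m)
    (h3 : (p : ℤ) ∣ A - B → legendreSym p A = 1 → legendreSym p m = 1) :
    LT (2 * (A + B)) ((A - B) ^ 2) ℚ_[p] (m : ℚ) := by
  have hm0 : m ≠ 0 := by rintro rfl; exact hm (dvd_zero _)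
  by_cases hleg : legendreSym p m = 1
  · apply LT_isSq
    rw [map_intCast]
    exact sq_of_leg hp2 hleg
  have hleg' := leg_ne hm hleg
  have hmul : ∀ n : ℤ, ¬ (p : ℤ) ∣ n → legendreSym p n ≠ 1 → IsSquare ((n * m : ℤ) : ℚ_[p]) := by
    intro n hn h
    apply sq_of_leg hp2
    rw [legendreSym.mul, hleg', leg_ne hn h]
    norm_num
  by_cases hlA : legendreSym p A = 1
  swap
  · exact LT_A hA hB hAB hm0 (hmul A h1 hlA)
  by_cases hlB : legendreSym p B = 1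
  swap
  · exact LT_B hA hB hAB hm0 (hmul B h2 hlB)
  have hne : (A : ZMod p) ≠ B := by
    intro h
    apply hleg
    refine h3 ?_ hlA
    rw [← ZMod.intCast_zmod_eq_zero_iff_dvd]
    push_cast
    rw [h, sub_self]
  rw [leg_cast] at hlA hlB hleg'
  obtain ⟨x0, hx1, hx2⟩ := ex_good hp2 hlA hlB hne
  obtain ⟨x, rfl⟩ := ZMod.intCast_surjective x0
  refine LT_of_x hA hB hAB hm0 x (sq_of_leg hp2 ?_) (sq_of_leg hp2 ?_)
  · rw [leg_cast]
    push_cast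
    rw [map_mul, hx1, hleg']
    norm_num
  · rw [leg_cast]
    push_cast
    rw [map_mul, hx2, hleg']
    norm_num

/-- admissible classes -/
structure Adm (A B d : ℤ) : Prop where
  pos : 0 < d
  sqf : Squarefree d
  m8 : d % 8 = 1
  m3 : d % 3 = 1
  ram : ∀ p : ℕ, p.Prime → (p : ℤ) ∣ d → 5 ≤ p ∧
    (((p : ℤ) ∣ A ∧ ¬ (p : ℤ) ∣ B) ∨ (¬ (p : ℤ) ∣ A ∧ (p : ℤ) ∣ B)) ∧
      Odd (padicValInt p (A * B))
  gc : ∀ (p : ℕ) [Fact p.Prime], 5 ≤ p → (p : ℤ) ∣ A → (p : ℤ) ∣ B → legendreSym p d = 1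
  sp : ∀ (p : ℕ) [Fact p.Prime], 5 ≤ p → ¬ (p : ℤ) ∣ A → ¬ (p : ℤ) ∣ B → (p : ℤ) ∣ A - B →
    legendreSym p A = 1 → legendreSym p d = 1

theorem loc_p (hA : A ≠ 0) (hB : B ≠ 0) (hAB : A ≠ B) {d : ℤ} (h : Adm A B d) (p : ℕ)
    [hp : Fact p.Prime] : LT (2 * (A + B)) ((A - B) ^ 2) ℚ_[p] (d : ℚ) := by
  have hd0 : d ≠ 0 := h.pos.ne'
  by_cases hp2 : p = 2
  · subst hp2
    apply LT_isSq
    rw [map_intCast]
    exact sq_two h.m8
  by_cases hp3 : p = 3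
  · subst hp3
    apply LT_isSq
    rw [map_intCast]
    apply sq_of_leg (by norm_num)
    rw [legendreSym.mod]
    have : d % ((3 : ℕ) : ℤ) = 1 := h.m3
    rw [this]
    exact legendreSym.at_one 3
  have hp5 : 5 ≤ p := by
    have h2 := hp.out.two_le
    have h4 : p ≠ 4 := by
      rintro rfl
      exact absurd hp.out (by norm_num)
    omega
  by_cases h1 : (p : ℤ) ∣ A <;> by_cases h2 : (p : ℤ) ∣ B
  · apply LT_isSq
    rw [map_intCast]
    exact sq_of_leg hp2 (h.gc p hp5 h1 h2)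
  · by_cases h3 : (p : ℤ) ∣ d
    · exact LT_ram hA hB hAB hp5 h1 h2 hd0 h.sqf h3 (h.ram p hp.out h3).2.2
    · exact LT_unit hA hB hAB hp5 h1 h2 h3
  · rw [LT_symm]
    by_cases h3 : (p : ℤ) ∣ d
    · refine LT_ram hB hA hAB.symm hp5 h2 h1 hd0 h.sqf h3 ?_
      rw [mul_comm]
      exact (h.ram p hp.out h3).2.2
    · exact LT_unit hB hA hAB.symm hp5 h2 h1 h3
  · have h3 : ¬ (p : ℤ) ∣ d := by
      intro h3
      rcases (h.ram p hp.out h3).2.1 with h4 | h4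
      · exact h1 h4.1
      · exact h2 h4.2
    exact LT_good hA hB hAB hp2 h1 h2 h3 (fun h4 h5 => h.sp p hp5 h1 h2 h4 h5)

theorem loc_r {d : ℤ} (h : Adm A B d) : LT (2 * (A + B)) ((A - B) ^ 2) ℝ (d : ℚ) := by
  apply LT_isSq
  rw [map_intCast]
  have h1 : (0 : ℝ) ≤ (d : ℝ) := by exact_mod_cast h.pos.le
  exact ⟨Real.sqrt d, (Real.mul_self_sqrt h1).symm⟩

end padic

end Pool.Agent.H514.IS
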