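import Pool.Agent.H514.BoxK
import Pool.Graph.R_seed8.H305R2.MertensM

/-! A Turan-Kubilius inequality for pairs of integers and functions modulo primes. -/

set_option autoImplicit false

open scoped Classical

namespace Pool.Agent.H514.IS

open Finset Pool.Agent.W307.RT

/-- the number of the integers in a class -/
noncomputable def cl (T m : ℕ) (r : ZMod m) : ℕ :=
  ((Icc (-(T : ℤ)) T).filter (fun a : ℤ => (a : ZMod m) = r)).card

lemma cl_le (T m : ℕ) [NeZero m] (r : ZMod m) :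
    |(cl T m r : ℝ) - (2 * T + 1) / m| ≤ 1 := by
  obtain ⟨v, rfl⟩ := ZMod.intCast_surjective r
  have hm : (0 : ℤ) < m := by exact_mod_cast Nat.pos_of_ne_zero (NeZero.ne m)
  have h1 : (Icc (-(T : ℤ)) T).filter (fun a : ℤ => (a : ZMod m) = (v : ZMod m)) =
      (Ioc (-(T : ℤ) - 1) T).filter (fun a : ℤ => a ≡ v [ZMOD m]) := by
    ext a
    rw [mem_filter, mem_filter, mem_Icc, mem_Ioc, ZMod.intCast_eq_intCast_iff]
    constructor <;> rintro ⟨h, h'⟩ <;> exact ⟨by omega, h'⟩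
  unfold cl
  rw [h1]
  have h2 := Int.Ioc_filter_modEq_card (-(T : ℤ) - 1) T hm v
  set x : ℚ := ((T : ℤ) - v : ℤ) / ((m : ℤ) : ℚ) with hx
  set y : ℚ := ((-(T : ℤ) - 1 - v : ℤ)) / ((m : ℤ) : ℚ) with hy
  have hmq : (0 : ℚ) < ((m : ℤ) : ℚ) := by exact_mod_cast hm
  have hxy : x - y = ((2 * T + 1 : ℚ)) / ((m : ℤ) : ℚ) := by
    rw [hx, hy, ← sub_div]
    congr 1
    push_cast
    ring
  have hyx : y ≤ x := by
    have : 0 ≤ x - y := by rw [hxy]; positivity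
    linarith
  have h3 : (0 : ℤ) ≤ ⌊x⌋ - ⌊y⌋ := sub_nonneg.2 (Int.floor_le_floor hyx)
  have h4 : ((((Ioc (-(T : ℤ) - 1) T).filter (fun a : ℤ => a ≡ v [ZMOD m])).card : ℤ)) =
      ⌊x⌋ - ⌊y⌋ := by
    rw [h2]
    push_cast at hx hy ⊢
    rw [← hx, ← hy]
    exact max_eq_left h3
  have h5 : |((⌊x⌋ - ⌊y⌋ : ℤ) : ℚ) - (x - y)| ≤ 1 := by
    push_cast
    have a1 := Int.floor_le x
    have a2 := Int.lt_floor_add_one x
    have a3 := Int.floor_le y
    have a4 := Int.lt_floor_add_one y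
    rw [abs_le]
    constructor <;> linarith
  have h6 : ((((Ioc (-(T : ℤ) - 1) T).filter (fun a : ℤ => a ≡ v [ZMOD m])).card : ℝ)) =
      (((⌊x⌋ - ⌊y⌋ : ℤ) : ℚ) : ℝ) := by
    rw [← h4]
    push_cast
    rfl
  have h7 : ((2 * T + 1 : ℝ)) / m = ((x - y : ℚ) : ℝ) := by
    rw [hxy]
    push_cast
    rfl
  rw [h6, h7]
  exact_mod_cast h5

/-- functions modulo `m` -/
lemma sum_mod (T m : ℕ) [NeZero m] (Φ : ZMod m × ZMod m → ℝ) (hΦ : ∀ r, |Φ r| ≤ 1) :
    |(∑ t ∈ Box T, Φ ((t.1 : ZMod m), (t.2 : ZMod m))) -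
      ((2 * T + 1) / m : ℝ) ^ 2 * ∑ r, Φ r| ≤ (2 * m * (2 * T + 1) + m ^ 2 : ℝ) := by
  have hm : (0 : ℝ) < m := by exact_mod_cast Nat.pos_of_ne_zero (NeZero.ne m)
  have h1 : ∑ t ∈ Box T, Φ ((t.1 : ZMod m), (t.2 : ZMod m)) =
      ∑ r, (cl T m r.1 : ℝ) * cl T m r.2 * Φ r := by
    rw [← Finset.sum_fiberwise (Box T) (fun t : ℤ × ℤ => ((t.1 : ZMod m), (t.2 : ZMod m)))]
    refine Finset.sum_congr rfl fun r _ => ?_
    have h2 : ∑ t ∈ (Box T).filter (fun t : ℤ × ℤ => ((t.1 : ZMod m), (t.2 : ZMod m)) = r),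
        Φ ((t.1 : ZMod m), (t.2 : ZMod m)) =
        ∑ t ∈ (Box T).filter (fun t : ℤ × ℤ => ((t.1 : ZMod m), (t.2 : ZMod m)) = r), Φ r :=
      Finset.sum_congr rfl fun t ht => by rw [(mem_filter.1 ht).2]
    rw [h2, Finset.sum_const, nsmul_eq_mul]
    congr 1
    have h3 : (Box T).filter (fun t : ℤ × ℤ => ((t.1 : ZMod m), (t.2 : ZMod m)) = r) =
        ((Icc (-(T : ℤ)) T).filter (fun a : ℤ => (a : ZMod m) = r.1)) ×ˢ
          ((Icc (-(T : ℤ)) T).filter (fun a : ℤ => (a : ZMod m) = r.2)) := by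
      ext t
      unfold Box
      simp only [mem_filter, mem_product, Prod.ext_iff]
      tauto
    rw [h3, card_product]
    push_cast
    rfl
  rw [h1, Finset.mul_sum, ← Finset.sum_sub_distrib]
  have h2 : ∀ r : ZMod m × ZMod m, |(cl T m r.1 : ℝ) * cl T m r.2 * Φ r -
      ((2 * T + 1) / m : ℝ) ^ 2 * Φ r| ≤ (2 * ((2 * T + 1) / m) + 1 : ℝ) := by
    intro r
    have a1 := cl_le T m r.1
    have a2 := cl_le T m r.2
    set c1 : ℝ := (cl T m r.1 : ℝ) with hc1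
    set c2 : ℝ := (cl T m r.2 : ℝ) with hc2
    set D : ℝ := (2 * T + 1) / m with hD
    have hD0 : 0 ≤ D := by positivity
    have h20 : 0 ≤ c2 := Nat.cast_nonneg _
    rw [← sub_mul, abs_mul]
    have h3 : |c1 * c2 - D ^ 2| ≤ 2 * D + 1 := by
      have : c1 * c2 - D ^ 2 = (c1 - D) * c2 + D * (c2 - D) := by ring
      rw [this]
      refine (abs_add_le _ _).trans ?_
      rw [abs_mul, abs_mul, abs_of_nonneg h20, abs_of_nonneg hD0]
      have h4 : c2 ≤ D + 1 := by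
        have := (abs_le.1 a2).2
        linarith
      nlinarith [mul_le_mul_of_nonneg_right a1 h20, mul_le_mul_of_nonneg_left a2 hD0]
    calc |c1 * c2 - D ^ 2| * |Φ r| ≤ (2 * D + 1) * 1 :=
          mul_le_mul h3 (hΦ r) (abs_nonneg _) (by positivity)
      _ = _ := mul_one _
  refine (Finset.abs_sum_le_sum_abs _ _).trans ((Finset.sum_le_sum fun r _ => h2 r).trans ?_)
  rw [Finset.sum_const, Finset.card_univ, Fintype.card_prod, ZMod.card, nsmul_eq_mul]
  push_cast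
  apply le_of_eq
  field_simp

/-- the Chinese remainder theorem -/
lemma sum_crt {p q : ℕ} [NeZero p] [NeZero q] (hpq : Nat.Coprime p q) (f : ZMod p × ZMod p → ℝ)
    (g : ZMod q × ZMod q → ℝ) : haveI : NeZero (p * q) := ⟨mul_ne_zero (NeZero.ne p) (NeZero.ne q)⟩
    ∑ r : ZMod (p * q) × ZMod (p * q),
      f ((ZMod.castHom (dvd_mul_right p q) (ZMod p) r.1), (ZMod.castHom (dvd_mul_right p q) (ZMod p) r.2)) *
      g ((ZMod.castHom (dvd_mul_left q p) (ZMod q) r.1), (ZMod.castHom (dvd_mul_left q p) (ZMod q) r.2)) =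
      (∑ r, f r) * ∑ r, g r := by
  have : NeZero (p * q) := ⟨mul_ne_zero (NeZero.ne p) (NeZero.ne q)⟩
  let e := ZMod.chineseRemainder hpq
  have h1 : ∀ x : ZMod (p * q), (e x).1 = ZMod.castHom (dvd_mul_right p q) (ZMod p) x := by
    intro x
    have : (RingHom.fst (ZMod p) (ZMod q)).comp (e : ZMod (p * q) →+* ZMod p × ZMod q) =
      ZMod.castHom (dvd_mul_right p q) (ZMod p) := Subsingleton.elim _ _
    exact congrArg (fun h : ZMod (p * q) →+* ZMod p => h x) this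
  have h2 : ∀ x : ZMod (p * q), (e x).2 = ZMod.castHom (dvd_mul_left q p) (ZMod q) x := by
    intro x
    have : (RingHom.snd (ZMod p) (ZMod q)).comp (e : ZMod (p * q) →+* ZMod p × ZMod q) =
      ZMod.castHom (dvd_mul_left q p) (ZMod q) := Subsingleton.elim _ _
    exact congrArg (fun h : ZMod (p * q) →+* ZMod q => h x) this
  let E : ZMod (p * q) × ZMod (p * q) ≃ (ZMod p × ZMod p) × (ZMod q × ZMod q) :=
    (Equiv.prodCongr e.toEquiv e.toEquiv).trans (Equiv.prodProdProdComm _ _ _ _)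
  rw [Finset.sum_mul_sum, ← Finset.sum_product', Finset.univ_product_univ]
  refine Fintype.sum_equiv E _ _ fun r => ?_
  show _ = f ((e r.1).1, (e r.2).1) * g ((e r.1).2, (e r.2).2)
  rw [h1, h1, h2, h2]

end Pool.Agent.H514.IS
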