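import Pool.Agent.H514.IS.TK

/-! The variance of the number of the primes of the classes minus the number of the conditions. -/

set_option autoImplicit false

open scoped Classical

namespace Pool.Agent.H514.IS

open Finset Pool.Agent.W307.RT

/-- the abstract variance -/
lemma var_abs (S : Finset (ℤ × ℤ)) (P : Finset ℕ) (φ : ℕ → ℤ × ℤ → ℝ) (μ σ : ℕ → ℝ) (E : ℝ)
    (h1 : ∀ p ∈ P, |(∑ t ∈ S, φ p t) - S.card * μ p| ≤ E)
    (h2 : ∀ p ∈ P, ∀ q ∈ P, p ≠ q → |(∑ t ∈ S, φ p t * φ q t) - S.card * (μ p * μ q)| ≤ E)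
    (h3 : ∀ p ∈ P, ∑ t ∈ S, φ p t ^ 2 ≤ S.card * σ p + E) (hμ : ∀ p ∈ P, |μ p| ≤ 1) :
    ∑ t ∈ S, ((∑ p ∈ P, φ p t) - ∑ p ∈ P, μ p) ^ 2 ≤
      S.card * ∑ p ∈ P, σ p + 3 * (P.card : ℝ) ^ 2 * E := by
  have e1 : ∀ t, ((∑ p ∈ P, φ p t) - ∑ p ∈ P, μ p) ^ 2 =
      ∑ p ∈ P, ∑ q ∈ P, (φ p t - μ p) * (φ q t - μ q) := by
    intro t
    rw [← Finset.sum_sub_distrib, pow_two, Finset.sum_mul_sum]
  simp_rw [e1]
  rw [Finset.sum_comm]
  simp_rw [Finset.sum_comm (s := S)]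
  have e2 : ∀ p ∈ P, ∀ q ∈ P, ∑ t ∈ S, (φ p t - μ p) * (φ q t - μ q) ≤
      (if p = q then S.card * σ p else 0) + 3 * E := by
    intro p hp q hq
    have e3 : ∑ t ∈ S, (φ p t - μ p) * (φ q t - μ q) =
        (∑ t ∈ S, φ p t * φ q t) - μ q * (∑ t ∈ S, φ p t) - μ p * (∑ t ∈ S, φ q t) +
          S.card * (μ p * μ q) := by
      rw [Finset.mul_sum, Finset.mul_sum, ← Finset.sum_sub_distrib, ← Finset.sum_sub_distrib,
        ← nsmul_eq_mul, ← Finset.sum_const, ← Finset.sum_add_distrib]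
      exact Finset.sum_congr rfl fun t _ => by ring
    rw [e3]
    have a1 := h1 p hp
    have a2 := h1 q hq
    have b1 := hμ p hp
    have b2 := hμ q hq
    have c1 : |μ q * ((∑ t ∈ S, φ p t) - S.card * μ p)| ≤ E := by
      rw [abs_mul]
      calc _ ≤ 1 * E := mul_le_mul b2 a1 (abs_nonneg _) zero_le_one
        _ = E := one_mul _
    have c2 : |μ p * ((∑ t ∈ S, φ q t) - S.card * μ q)| ≤ E := by
      rw [abs_mul]
      calc _ ≤ 1 * E := mul_le_mul b1 a2 (abs_nonneg _) zero_le_one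
        _ = E := one_mul _
    rw [abs_le] at c1 c2
    by_cases hpq : p = q
    · subst hpq
      rw [if_pos rfl]
      have a3 := h3 p hp
      have a4 : ∑ t ∈ S, φ p t * φ p t = ∑ t ∈ S, φ p t ^ 2 :=
        Finset.sum_congr rfl fun t _ => by ring
      rw [a4]
      have a5 : 0 ≤ (S.card : ℝ) * (μ p * μ p) :=
        mul_nonneg (Nat.cast_nonneg _) (mul_self_nonneg _)
      nlinarith [c1.1, c2.1]
    · rw [if_neg hpq]
      have a3 := abs_le.1 (h2 p hp q hq hpq)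
      nlinarith [c1.1, c2.1, a3.2]
  calc ∑ p ∈ P, ∑ q ∈ P, ∑ t ∈ S, (φ p t - μ p) * (φ q t - μ q) ≤
      ∑ p ∈ P, ∑ q ∈ P, ((if p = q then S.card * σ p else 0) + 3 * E) :=
        Finset.sum_le_sum fun p hp => Finset.sum_le_sum fun q hq => e2 p hp q hq
    _ = _ := by
      simp_rw [Finset.sum_add_distrib]
      rw [Finset.sum_congr rfl fun p hp => Finset.sum_ite_eq P p fun _ => (S.card : ℝ) * σ p]
      rw [Finset.sum_congr rfl fun p hp => if_pos hp, ← Finset.mul_sum]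
      simp only [Finset.sum_const, nsmul_eq_mul]
      ring

lemma box_card (T : ℕ) : ((Box T).card : ℝ) = (2 * T + 1) ^ 2 := by
  unfold Box
  rw [card_product, Int.card_Icc]
  have : ((T : ℤ) + 1 - (-(T : ℤ))).toNat = 2 * T + 1 := by omega
  rw [this]
  push_cast
  ring

/-! ### The function -/

/-- the contribution of a prime -/
noncomputable def ph (p : ℕ) (t : ℤ × ℤ) : ℝ :=
  (if (p : ℤ) ∣ t.1 ∨ (p : ℤ) ∣ t.2 then 1 else 0) -
    (if (p : ℤ) ∣ t.1 - t.2 ∧ jacobiSym t.1 p = 1 then 1 else 0)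

/-- the same function modulo `p` -/
noncomputable def Xp (p : ℕ) [Fact p.Prime] (r : ZMod p × ZMod p) : ℝ :=
  (if r.1 = 0 ∨ r.2 = 0 then 1 else 0) -
    (if r.1 = r.2 ∧ quadraticChar (ZMod p) r.1 = 1 then 1 else 0)

lemma ph_eq (p : ℕ) [Fact p.Prime] (t : ℤ × ℤ) : ph p t = Xp p ((t.1 : ZMod p), (t.2 : ZMod p)) := by
  unfold ph Xp
  simp only [← ZMod.intCast_zmod_eq_zero_iff_dvd, Int.cast_sub, sub_eq_zero]
  rw [← jacobiSym.legendreSym.to_jacobiSym]
  rfl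

section prime

variable (p : ℕ) [hp : Fact p.Prime]

lemma Xp_abs (r : ZMod p × ZMod p) : |Xp p r| ≤ 1 := by
  unfold Xp
  split_ifs <;> norm_num

lemma sum_zero : ∑ r : ZMod p × ZMod p, (if r.1 = 0 ∨ r.2 = 0 then (1 : ℝ) else 0) = 2 * p - 1 := by
  have h1 : ∀ r : ZMod p × ZMod p, (if r.1 = 0 ∨ r.2 = 0 then (1 : ℝ) else 0) =
      (if r.1 = 0 then 1 else 0) + (if r.2 = 0 then 1 else 0) -
        (if r.1 = 0 then 1 else 0) * (if r.2 = 0 then 1 else 0) := by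
    intro r
    by_cases h1 : r.1 = 0 <;> by_cases h2 : r.2 = 0 <;> simp [h1, h2]
  have s1 : ∑ r : ZMod p × ZMod p, (if r.1 = 0 then (1 : ℝ) else 0) = p := by
    rw [Fintype.sum_prod_type_right]
    simp
  have s2 : ∑ r : ZMod p × ZMod p, (if r.2 = 0 then (1 : ℝ) else 0) = p := by
    rw [Fintype.sum_prod_type]
    simp
  have s3 : ∑ r : ZMod p × ZMod p, (if r.1 = 0 then (1 : ℝ) else 0) *
      (if r.2 = 0 then (1 : ℝ) else 0) = 1 := by
    rw [Fintype.sum_prod_type]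
    simp
  rw [Finset.sum_congr rfl fun r _ => h1 r, Finset.sum_sub_distrib, Finset.sum_add_distrib,
    s1, s2, s3]
  ring

lemma sum_chi (hp2 : p ≠ 2) : ∑ a : ZMod p, (if quadraticChar (ZMod p) a = 1 then (1 : ℝ) else 0) =
    (p - 1) / 2 := by
  have h1 : ∀ a : ZMod p, (if quadraticChar (ZMod p) a = 1 then (1 : ℝ) else 0) =
      ((quadraticChar (ZMod p) a : ℤ) : ℝ) / 2 + (1 - if a = 0 then 1 else 0) / 2 := by
    intro a
    by_cases ha : a = 0
    · subst ha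
      rw [MulChar.map_zero]
      norm_num
    · rcases quadraticChar_dichotomy ha with h | h <;> rw [h] <;> simp [ha] <;> norm_num
  have h2 : ringChar (ZMod p) ≠ 2 := by
    rw [ZMod.ringChar_zmod_n]
    exact hp2
  have h3 := quadraticChar_sum_zero h2
  rw [Finset.sum_congr rfl fun a _ => h1 a, Finset.sum_add_distrib, ← Finset.sum_div,
    ← Finset.sum_div, ← Int.cast_sum, h3, Finset.sum_sub_distrib, Finset.sum_ite_eq' univ (0 : ZMod p)]
  simp

lemma sum_diag (hp2 : p ≠ 2) : ∑ r : ZMod p × ZMod p,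
    (if r.1 = r.2 ∧ quadraticChar (ZMod p) r.1 = 1 then (1 : ℝ) else 0) = (p - 1) / 2 := by
  rw [← sum_chi p hp2, Fintype.sum_prod_type]
  refine Finset.sum_congr rfl fun a _ => ?_
  have : ∀ b : ZMod p, (if a = b ∧ quadraticChar (ZMod p) a = 1 then (1 : ℝ) else 0) =
      if a = b then (if quadraticChar (ZMod p) a = 1 then (1 : ℝ) else 0) else 0 := by
    intro b
    by_cases h : a = b <;> simp [h]
  rw [Finset.sum_congr rfl fun b _ => this b, Finset.sum_ite_eq univ a, if_pos (mem_univ _)]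

lemma sum_Xp (hp2 : p ≠ 2) : ∑ r, Xp p r = (3 * p - 1) / 2 := by
  unfold Xp
  rw [Finset.sum_sub_distrib, sum_zero, sum_diag p hp2]
  ring

lemma sum_Xp_sq (hp2 : p ≠ 2) : ∑ r, Xp p r ^ 2 ≤ 3 * p := by
  have h1 : ∀ r : ZMod p × ZMod p, Xp p r ^ 2 ≤ (if r.1 = 0 ∨ r.2 = 0 then (1 : ℝ) else 0) +
      (if r.1 = r.2 ∧ quadraticChar (ZMod p) r.1 = 1 then 1 else 0) := by
    intro r
    unfold Xp
    split_ifs <;> norm_num
  refine (Finset.sum_le_sum fun r _ => h1 r).trans ?_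
  rw [Finset.sum_add_distrib, sum_zero, sum_diag p hp2]
  have : (0 : ℝ) < p := by exact_mod_cast hp.out.pos
  linarith

end prime

/-- the mean -/
noncomputable def mu (p : ℕ) : ℝ := (3 * p - 1) / (2 * (p : ℝ) ^ 2)

lemma castHom_cast {m n : ℕ} (h : m ∣ n) (a : ℤ) :
    ZMod.castHom h (ZMod m) (a : ZMod n) = (a : ZMod m) := map_intCast _ _

/-- the variance -/
theorem tk_var (P : Finset ℕ) (hP : ∀ p ∈ P, p.Prime ∧ p ≠ 2) (T y : ℕ) (hy : ∀ p ∈ P, p ≤ y) :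
    ∑ t ∈ Box T, ((∑ p ∈ P, ph p t) - ∑ p ∈ P, mu p) ^ 2 ≤
      (2 * T + 1) ^ 2 * ∑ p ∈ P, (3 : ℝ) / p +
        3 * (P.card : ℝ) ^ 2 * (2 * (y : ℝ) ^ 2 * (2 * T + 1) + (y : ℝ) ^ 4) := by
  rw [← box_card]
  have hposp : ∀ p ∈ P, (1 : ℝ) ≤ p := fun p hp => by exact_mod_cast (hP p hp).1.one_lt.le
  have hyp : ∀ p ∈ P, (p : ℝ) ≤ y := fun p hp => by exact_mod_cast hy p hp
  refine var_abs (Box T) P ph mu (fun p => 3 / p) _ ?_ ?_ ?_ ?_
  · intro p hp
    have : Fact p.Prime := ⟨(hP p hp).1⟩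
    have h := sum_mod T p (Xp p) (Xp_abs p)
    rw [sum_Xp p (hP p hp).2] at h
    have h1 := hposp p hp
    have h2 := hyp p hp
    simp_rw [ph_eq p]
    rw [box_card]
    have h3 : ((2 * T + 1 : ℝ)) ^ 2 * mu p = ((2 * T + 1) / p) ^ 2 * ((3 * p - 1) / 2) := by
      unfold mu
      field_simp
    rw [h3]
    refine h.trans ?_
    have h4 : (p : ℝ) ≤ (y : ℝ) ^ 2 := by nlinarith
    have h5 : (p : ℝ) ^ 2 ≤ (y : ℝ) ^ 4 := by
      calc (p : ℝ) ^ 2 ≤ ((y : ℝ) ^ 2) ^ 2 := pow_le_pow_left₀ (by linarith) h4 2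
        _ = _ := by ring
    have h6 : (0 : ℝ) ≤ 2 * T + 1 := by positivity
    nlinarith
  · intro p hp q hq hpq
    have : Fact p.Prime := ⟨(hP p hp).1⟩
    have : Fact q.Prime := ⟨(hP q hq).1⟩
    have : NeZero (p * q) := ⟨mul_ne_zero (NeZero.ne p) (NeZero.ne q)⟩
    have hco : Nat.Coprime p q := (Nat.coprime_primes (hP p hp).1 (hP q hq).1).2 hpq
    have h := sum_mod T (p * q) (fun r =>
      Xp p ((ZMod.castHom (dvd_mul_right p q) (ZMod p) r.1),
        (ZMod.castHom (dvd_mul_right p q) (ZMod p) r.2)) *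
      Xp q ((ZMod.castHom (dvd_mul_left q p) (ZMod q) r.1),
        (ZMod.castHom (dvd_mul_left q p) (ZMod q) r.2))) (fun r => by
          rw [abs_mul]
          calc _ ≤ (1 : ℝ) * 1 := mul_le_mul (Xp_abs p _) (Xp_abs q _) (abs_nonneg _) zero_le_one
            _ = 1 := one_mul _)
    rw [sum_crt hco, sum_Xp p (hP p hp).2, sum_Xp q (hP q hq).2] at h
    simp only [castHom_cast] at h
    simp_rw [ph_eq p, ph_eq q]
    rw [box_card]
    have h1 := hposp p hp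
    have h2 := hyp p hp
    have h1' := hposp q hq
    have h2' := hyp q hq
    have h3 : ((2 * T + 1 : ℝ)) ^ 2 * (mu p * mu q) =
        ((2 * T + 1) / ((p * q : ℕ) : ℝ)) ^ 2 * (((3 * p - 1) / 2) * ((3 * q - 1) / 2)) := by
      unfold mu
      push_cast
      field_simp
    rw [h3]
    refine h.trans ?_
    push_cast
    have h4 : (p : ℝ) * q ≤ (y : ℝ) ^ 2 := by nlinarith
    have h40 : (0 : ℝ) ≤ (p : ℝ) * q := by positivity
    have h5 : ((p : ℝ) * q) ^ 2 ≤ (y : ℝ) ^ 4 := by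
      calc ((p : ℝ) * q) ^ 2 ≤ ((y : ℝ) ^ 2) ^ 2 := pow_le_pow_left₀ h40 h4 2
        _ = _ := by ring
    have h6 : (0 : ℝ) ≤ 2 * T + 1 := by positivity
    nlinarith
  · intro p hp
    have : Fact p.Prime := ⟨(hP p hp).1⟩
    have h := sum_mod T p (fun r => Xp p r ^ 2) (fun r => by
      have := Xp_abs p r
      rw [abs_pow]
      exact pow_le_one₀ (abs_nonneg _) this)
    have h1 := hposp p hp
    have h2 := hyp p hp
    have h0 := sum_Xp_sq p (hP p hp).2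
    simp_rw [ph_eq p]
    rw [box_card]
    have h3 := (abs_le.1 h).2
    have h7 : ((2 * T + 1 : ℝ) / p) ^ 2 * ∑ r, Xp p r ^ 2 ≤ (2 * T + 1) ^ 2 * (3 / p) := by
      calc _ ≤ ((2 * T + 1 : ℝ) / p) ^ 2 * (3 * p) :=
            mul_le_mul_of_nonneg_left h0 (by positivity)
        _ = _ := by
          field_simp
    have h4 : (p : ℝ) ≤ (y : ℝ) ^ 2 := by nlinarith
    have h5 : (p : ℝ) ^ 2 ≤ (y : ℝ) ^ 4 := by
      calc (p : ℝ) ^ 2 ≤ ((y : ℝ) ^ 2) ^ 2 := pow_le_pow_left₀ (by linarith) h4 2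
        _ = _ := by ring
    have h6 : (0 : ℝ) ≤ 2 * T + 1 := by positivity
    nlinarith
  · intro p hp
    have h1 := hposp p hp
    unfold mu
    rw [abs_of_nonneg (by apply div_nonneg <;> nlinarith), div_le_one (by positivity)]
    have h2 : (2 : ℝ) ≤ p := by exact_mod_cast (hP p hp).1.two_le
    nlinarith

end Pool.Agent.H514.IS
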