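import Pool.Graph.R_pool_sql_team_seeded_f72693b1.W262.SH.Def
import Pool.Graph.R_pool_sql_team_seeded_f72693b1.W338.SH.Sh2

/-!
# The classes of the kernel of a 2-isogeny in the Tate-Shafarevich group

For the curve `D a b : y² = x³ + a x² + b x` over `ℚ` with the point `T = (0, 0)` and `s` with
`s² = d ∈ ℚ`, the cocycle `fs s` is `T` at the automorphisms that move `s`. It is locally trivial
at the places where `d β² = (d α² - a)² - 4 b` is soluble, and a coboundary only if this equation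
is soluble in `ℚ` (or `s` is rational).
-/

set_option autoImplicit false

open scoped Classical

namespace Pool.Agent.H514.IS

open WeierstrassCurve Pool.Agent.W262.SH Pool.Agent.W338.SH

/-- the curve `y² = x³ + a x² + b x` over `ℚ` -/
def D (a b : ℤ) : WeierstrassCurve ℚ := ⟨0, (a : ℚ), 0, (b : ℚ), 0⟩

/-- the curve `y² = x³ + a x² + b x` -/
def IsD {K : Type} [Field K] (W : WeierstrassCurve K) (a b : K) : Prop :=
  W.a₁ = 0 ∧ W.a₂ = a ∧ W.a₃ = 0 ∧ W.a₄ = b ∧ W.a₆ = 0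

theorem isD (a b : ℤ) (L : Type) [Field L] [Algebra ℚ L] :
    IsD ((D a b).baseChange L) (a : L) (b : L) := by
  refine ⟨map_zero _, ?_, map_zero _, ?_, map_zero _⟩
  · show algebraMap ℚ L (a : ℚ) = _
    rw [map_intCast]
  · show algebraMap ℚ L (b : ℚ) = _
    rw [map_intCast]

section crv

variable {K : Type} [Field K] {W : WeierstrassCurve K} {a b : K}

theorem IsD.eqn (h : IsD W a b) {x y : K} :
    W.toAffine.Equation x y ↔ y ^ 2 = x ^ 3 + a * x ^ 2 + b * x := by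
  obtain ⟨h1, h2, h3, h4, h5⟩ := h
  rw [Affine.equation_iff, h1, h2, h3, h4, h5]
  constructor <;> intro h <;> linear_combination h

theorem IsD.ns (h : IsD W a b) [CharZero K] (hb : b ≠ 0) (hd : a ^ 2 - 4 * b ≠ 0) {x y : K}
    (he : y ^ 2 = x ^ 3 + a * x ^ 2 + b * x) : W.toAffine.Nonsingular x y := by
  have h0 := h.eqn.2 he
  obtain ⟨h1, h2, h3, h4, h5⟩ := h
  rw [Affine.nonsingular_iff]
  refine ⟨h0, ?_⟩
  rw [h1, h2, h3, h4]
  by_cases hy : y = 0
  · left
    intro h6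
    rw [hy] at he h6
    have h7 : 3 * x ^ 2 + 2 * a * x + b = 0 := by linear_combination -h6
    have h8 : x * (x ^ 2 + a * x + b) = 0 := by linear_combination -he
    rcases mul_eq_zero.1 h8 with h9 | h9
    · rw [h9] at h7
      exact hb (by linear_combination h7)
    · have h10 : x * (2 * x + a) = 0 := by linear_combination h7 - h9
      rcases mul_eq_zero.1 h10 with h11 | h11
      · rw [h11] at h9
        exact hb (by linear_combination h9)
      · apply hd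
        linear_combination (-4 : K) * h9 + (2 * x + a) * h11
  · right
    intro h6
    have h7 : (2 : K) * y = 0 := by linear_combination h6
    exact hy ((mul_eq_zero.1 h7).resolve_left two_ne_zero)

theorem IsD.negY (h : IsD W a b) (x y : K) : W.toAffine.negY x y = -y := by
  obtain ⟨h1, h2, h3, h4, h5⟩ := h
  rw [Affine.negY, h1, h3]
  ring

/-- translation by `(0, 0)` -/
theorem IsD.add_zz (h : IsD W a b) {x y : K} (hx : x ≠ 0) (h1 : W.toAffine.Nonsingular x y)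
    (h0 : W.toAffine.Nonsingular 0 0) :
    ∃ h', (Affine.Point.some x y h1 : W.toAffine.Point) + Affine.Point.some 0 0 h0 =
      Affine.Point.some (b / x) (-(b * y) / x ^ 2) h' := by
  have he := h.eqn.1 h1.1
  rw [Affine.Point.add_of_X_ne hx]
  have hX : W.toAffine.addX x 0 (W.toAffine.slope x 0 y 0) = b / x := by
    rw [Affine.slope_of_X_ne hx]
    obtain ⟨q1, q2, q3, q4, q5⟩ := h
    rw [Affine.addX, q1, q2, sub_zero, sub_zero]
    have h5 : (y / x) ^ 2 = x + a + b / x := by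
      field_simp
      linear_combination he
    linear_combination h5
  have hY : W.toAffine.addY x 0 y (W.toAffine.slope x 0 y 0) = -(b * y) / x ^ 2 := by
    rw [Affine.addY, Affine.negAddY, hX, h.negY, Affine.slope_of_X_ne hx]
    field_simp
    ring
  refine ⟨?_, some_congr hX hY _ _⟩
  have h2 := Affine.nonsingular_add h1 h0 (fun hxy => hx hxy.left)
  rw [hX, hY] at h2
  exact h2

theorem IsD.two_zz (h : IsD W a b) (h0 : W.toAffine.Nonsingular 0 0) :
    (Affine.Point.some 0 0 h0 : W.toAffine.Point) + Affine.Point.some 0 0 h0 = 0 := by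
  rw [add_eq_zero_iff_eq_neg, Affine.Point.neg_some]
  congr 1
  rw [h.negY, neg_zero]

end crv

/-- the point `(0, 0)` -/
noncomputable def TT (a b : ℤ) (L : Type) [Field L] [Algebra ℚ L] : Pt (D a b) L :=
  if h : ((D a b).baseChange L).toAffine.Nonsingular 0 0 then Affine.Point.some 0 0 h else 0

section TT

variable {a b : ℤ}

theorem charZ (L : Type) [Field L] [Algebra ℚ L] : CharZero L :=
  charZero_of_injective_algebraMap (algebraMap ℚ L).injective

theorem ne_L {b : ℤ} (hb : b ≠ 0) (L : Type) [Field L] [Algebra ℚ L] : (b : L) ≠ 0 := by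
  have := charZ L
  exact_mod_cast hb

theorem disc_L (hd : a ^ 2 - 4 * b ≠ 0) (L : Type) [Field L] [Algebra ℚ L] :
    (a : L) ^ 2 - 4 * (b : L) ≠ 0 := by
  have := ne_L hd L
  push_cast at this
  exact this

theorem ns_L (hb : b ≠ 0) (hd : a ^ 2 - 4 * b ≠ 0) {L : Type} [Field L] [Algebra ℚ L] {x y : L}
    (he : y ^ 2 = x ^ 3 + (a : L) * x ^ 2 + b * x) :
    ((D a b).baseChange L).toAffine.Nonsingular x y := by
  have := charZ L
  exact (isD a b L).ns (ne_L hb L) (disc_L hd L) he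

theorem TT_eq (hb : b ≠ 0) (hd : a ^ 2 - 4 * b ≠ 0) (L : Type) [Field L] [Algebra ℚ L] :
    ∃ h, TT a b L = Affine.Point.some 0 0 h := by
  have h : ((D a b).baseChange L).toAffine.Nonsingular 0 0 := ns_L hb hd (by ring)
  exact ⟨h, by rw [TT, dif_pos h]⟩

theorem TT_two (L : Type) [Field L] [Algebra ℚ L] : TT a b L + TT a b L = 0 := by
  unfold TT
  split_ifs with h
  · exact (isD a b L).two_zz h
  · exact add_zero _

theorem TT_ne (hb : b ≠ 0) (hd : a ^ 2 - 4 * b ≠ 0) (L : Type) [Field L] [Algebra ℚ L] :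
    TT a b L ≠ 0 := by
  obtain ⟨h, e⟩ := TT_eq hb hd L
  rw [e]
  exact Affine.Point.some_ne_zero _

theorem act_TT {F L : Type} [Field F] [Field L] [Algebra ℚ F] [Algebra ℚ L] (hb : b ≠ 0)
    (hd : a ^ 2 - 4 * b ≠ 0) (φ : F →ₐ[ℚ] L) : act (D a b) φ (TT a b F) = TT a b L := by
  obtain ⟨h, e⟩ := TT_eq hb hd F
  obtain ⟨h', e'⟩ := TT_eq hb hd L
  obtain ⟨h2, e2⟩ := act_some (D a b) φ h
  rw [e, e', e2]
  exact some_congr (map_zero _) (map_zero _) _ _

end TT

/-- the cocycle -/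
noncomputable def fs (a b : ℤ) (s : QB) (σ : GQ) : Pt (D a b) QB := if σ s = s then 0 else TT a b QB

theorem sig_lc (s : QB) : IsLocallyConstant (fun σ : GQ => σ s) := by
  rw [IsLocallyConstant.iff_exists_open]
  intro σ
  let K0 := IntermediateField.adjoin ℚ ({s} : Set QB)
  have : FiniteDimensional ℚ K0 := by
    refine IntermediateField.finiteDimensional_adjoin fun z _ => ?_
    have := algQB
    exact (Algebra.IsAlgebraic.isAlgebraic (R := ℚ) z).isIntegral
  have ho : IsOpen (K0.fixingSubgroup : Set (QB ≃ₐ[ℚ] QB)) :=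
    IntermediateField.fixingSubgroup_isOpen K0
  refine ⟨(fun τ => σ⁻¹ * τ) ⁻¹' (K0.fixingSubgroup : Set (QB ≃ₐ[ℚ] QB)),
    ho.preimage (continuous_const.mul continuous_id), ?_, fun τ hτ => ?_⟩
  · show σ⁻¹ * σ ∈ K0.fixingSubgroup
    rw [inv_mul_cancel]
    exact one_mem _
  · have h1 : s ∈ K0 := IntermediateField.subset_adjoin ℚ _ rfl
    have h2 := (IntermediateField.mem_fixingSubgroup_iff K0 _).1 hτ s h1
    have h3 : σ ((σ⁻¹ * τ) s) = σ s := congrArg σ h2
    show τ s = σ s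
    rw [← h3]
    show τ s = σ (σ⁻¹ (τ s))
    exact (σ.apply_symm_apply (τ s)).symm

theorem fs_lc (a b : ℤ) (s : QB) : IsLocallyConstant (fs a b s) :=
  (sig_lc s).comp (fun z => if z = s then 0 else TT a b QB)

/-- automorphisms and a square root -/
theorem pm {s : QB} {d : ℚ} (hs : s ^ 2 = algebraMap ℚ QB d) (σ : GQ) : σ s = s ∨ σ s = -s := by
  have h1 : (σ s) ^ 2 = s ^ 2 := by
    rw [← map_pow, hs, AlgEquiv.commutes]
  exact sq_eq_sq_iff_eq_or_eq_neg.1 h1

theorem ne_neg {s : QB} (hs : s ≠ 0) : -s ≠ s := by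
  intro h
  have : (2 : QB) * s = 0 := by linear_combination -h
  exact hs ((mul_eq_zero.1 this).resolve_left two_ne_zero)

theorem fs_mul {a b : ℤ} {s t : QB} {d e : ℚ} (hs : s ^ 2 = algebraMap ℚ QB d)
    (ht : t ^ 2 = algebraMap ℚ QB e) (hs0 : s ≠ 0) (ht0 : t ≠ 0) (σ : GQ) :
    fs a b (s * t) σ = fs a b s σ + fs a b t σ := by
  unfold fs
  rw [map_mul]
  have hst : s * t ≠ 0 := mul_ne_zero hs0 ht0
  rcases pm hs σ with h1 | h1 <;> rcases pm ht σ with h2 | h2
  · rw [h1, h2, if_pos rfl, if_pos rfl, if_pos rfl, add_zero]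
  · rw [h1, h2, if_neg, if_pos rfl, if_neg (ne_neg ht0), zero_add]
    rw [mul_neg]
    exact ne_neg hst
  · rw [h1, h2, if_neg, if_neg (ne_neg hs0), if_pos rfl, add_zero]
    rw [neg_mul]
    exact ne_neg hst
  · rw [h1, h2, if_pos, if_neg (ne_neg hs0), if_neg (ne_neg ht0), TT_two]
    rw [neg_mul_neg]

theorem fs_coc {a b : ℤ} (hb : b ≠ 0) (hd : a ^ 2 - 4 * b ≠ 0) {s : QB} {d : ℚ}
    (hs : s ^ 2 = algebraMap ℚ QB d) (hs0 : s ≠ 0) (σ τ : GQ) :
    fs a b s (σ * τ) = fs a b s σ + act (D a b) σ.toAlgHom (fs a b s τ) := by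
  have h0 : (σ * τ) s = σ (τ s) := rfl
  unfold fs
  rw [h0]
  rcases pm hs σ with h1 | h1 <;> rcases pm hs τ with h2 | h2
  · rw [h2, h1, if_pos rfl, map_zero, add_zero]
  · rw [h2, map_neg, h1, if_neg (ne_neg hs0), if_pos rfl, zero_add, act_TT hb hd]
  · rw [h2, h1, if_neg (ne_neg hs0), if_pos rfl, map_zero, add_zero]
  · rw [h2, map_neg, h1, neg_neg, if_pos rfl, if_neg (ne_neg hs0),
      act_TT hb hd, TT_two]

theorem fs_IsCoc {a b : ℤ} (hb : b ≠ 0) (hd : a ^ 2 - 4 * b ≠ 0) {s : QB} {d : ℚ}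
    (hs : s ^ 2 = algebraMap ℚ QB d) (hs0 : s ≠ 0) : IsCoc (D a b) (fs a b s) :=
  ⟨fs_lc a b s, fs_coc hb hd hs hs0⟩

/-- solubility of the torsor -/
def Tor (K : Type) [Field K] (d a b : K) : Prop :=
  ∃ α β : K, d * β ^ 2 = (d * α ^ 2 - a) ^ 2 - 4 * b

section loc

variable {K Ω : Type} [Field K] [Algebra ℚ K] [Field Ω] [Algebra K Ω] [Algebra ℚ Ω]
  [IsScalarTower ℚ K Ω]

theorem loc_tor_gen {a b : ℤ} (hb : b ≠ 0) (hd : a ^ 2 - 4 * b ≠ 0) {s : QB} {d : ℚ}
    (hs : s ^ 2 = algebraMap ℚ QB d) (hs0 : s ≠ 0) (ι : QB →ₐ[ℚ] Ω)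
    (h : Tor K (algebraMap ℚ K d) (a : K) (b : K)) : ∃ P : Pt (D a b) Ω,
    ∀ (τ : Ω ≃ₐ[K] Ω) (σ : GQ), (∀ x, τ (ι x) = ι (σ x)) →
      act (D a b) ι (fs a b s σ) = act (D a b) (τ.toAlgHom.restrictScalars ℚ) P - P := by
  obtain ⟨α, β, hαβ⟩ := h
  have hcz := charZ Ω
  have hS : (ι s) ^ 2 = algebraMap K Ω (algebraMap ℚ K d) := by
    rw [← map_pow, hs, AlgHom.commutes, ← IsScalarTower.algebraMap_apply]
  have hab : algebraMap K Ω (algebraMap ℚ K d) * (algebraMap K Ω β) ^ 2 =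
      (algebraMap K Ω (algebraMap ℚ K d) * (algebraMap K Ω α) ^ 2 - (a : Ω)) ^ 2 - 4 * (b : Ω) := by
    have := congrArg (algebraMap K Ω) hαβ
    simp only [map_mul, map_pow, map_sub, map_intCast, map_ofNat] at this
    exact this
  have hτj : ∀ (τ : Ω ≃ₐ[K] Ω) (z : K), τ (algebraMap K Ω z) = algebraMap K Ω z :=
    fun τ z => τ.commutes z
  obtain ⟨u, hu⟩ : ∃ u, u = algebraMap K Ω α * ι s := ⟨_, rfl⟩
  obtain ⟨t, ht⟩ : ∃ t, t = algebraMap K Ω β * ι s := ⟨_, rfl⟩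
  obtain ⟨X, hX⟩ : ∃ X : Ω, X = (u ^ 2 - a + t) / 2 := ⟨_, rfl⟩
  obtain ⟨X', hX'⟩ : ∃ X : Ω, X = (u ^ 2 - a - t) / 2 := ⟨_, rfl⟩
  have hbL : (b : Ω) ≠ 0 := ne_L hb Ω
  have ht2 : t ^ 2 = (u ^ 2 - a) ^ 2 - 4 * b := by
    rw [ht, hu, mul_pow, mul_pow, hS]
    linear_combination hab
  have hXX : X * X' = b := by
    rw [hX, hX']
    linear_combination (-(1 : Ω) / 4) * ht2
  have hX0 : X ≠ 0 := by
    intro h
    rw [h, zero_mul] at hXX
    exact hbL hXX.symm
  have hX0' : X' ≠ 0 := by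
    intro h
    rw [h, mul_zero] at hXX
    exact hbL hXX.symm
  have hu2 : u ^ 2 = X + a + X' := by
    rw [hX, hX']
    ring
  have heq : (X * u) ^ 2 = X ^ 3 + (a : Ω) * X ^ 2 + b * X := by
    rw [mul_pow, hu2, ← hXX]
    ring
  have hns := ns_L hb hd heq
  refine ⟨Affine.Point.some X (X * u) hns, fun τ σ hc => ?_⟩
  have hτS : τ (ι s) = ι (σ s) := hc s
  have hτa : ∀ n : ℤ, τ (n : Ω) = n := fun n => map_intCast _ n
  obtain ⟨h1, e1⟩ := act_some (D a b) (τ.toAlgHom.restrictScalars ℚ) hns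
  rw [e1]
  obtain ⟨hT, eT⟩ := TT_eq hb hd Ω
  rcases pm hs σ with h2 | h2
  · have hτS' : τ (ι s) = ι s := by rw [hτS, h2]
    have hτu : τ u = u := by rw [hu, map_mul, hτj, hτS']
    have hτt : τ t = t := by rw [ht, map_mul, hτj, hτS']
    have hτX : τ X = X := by
      rw [hX, map_div₀, map_add, map_sub, map_pow, hτu, hτt, hτa, map_ofNat]
    rw [fs, if_pos h2, map_zero]
    symm
    rw [sub_eq_zero]
    refine some_congr ?_ ?_ _ _
    · exact hτX
    · show τ (X * u) = X * u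
      rw [map_mul, hτX, hτu]
  · have hτS' : τ (ι s) = -ι s := by rw [hτS, h2, map_neg]
    have hτu : τ u = -u := by rw [hu, map_mul, hτj, hτS', mul_neg]
    have hτt : τ t = -t := by rw [ht, map_mul, hτj, hτS', mul_neg]
    have hτX : τ X = X' := by
      rw [hX, map_div₀, map_add, map_sub, map_pow, hτu, hτt, hτa, map_ofNat, neg_sq,
        ← sub_eq_add_neg, hX']
    rw [fs, if_neg (by rw [h2]; exact ne_neg hs0), act_TT hb hd, eq_sub_iff_add_eq, eT, add_comm]
    obtain ⟨h3, e3⟩ := (isD a b Ω).add_zz hX0 hns hT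
    rw [e3]
    refine some_congr ?_ ?_ _ _
    · show (b : Ω) / X = τ X
      rw [hτX, ← hXX, mul_div_cancel_left₀ _ hX0]
    · show -((b : Ω) * (X * u)) / X ^ 2 = τ (X * u)
      rw [map_mul, hτX, hτu, ← hXX]
      field_simp

theorem loc_sq_gen {a b : ℤ} {s : QB} {d : ℚ} (hs : s ^ 2 = algebraMap ℚ QB d)
    (ι : QB →ₐ[ℚ] Ω) (h : IsSquare (algebraMap ℚ K d)) : ∃ P : Pt (D a b) Ω,
    ∀ (τ : Ω ≃ₐ[K] Ω) (σ : GQ), (∀ x, τ (ι x) = ι (σ x)) →
      act (D a b) ι (fs a b s σ) = act (D a b) (τ.toAlgHom.restrictScalars ℚ) P - P := by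
  obtain ⟨c, hc⟩ := h
  refine ⟨0, fun τ σ hcomp => ?_⟩
  rw [map_zero, sub_zero]
  have hS : (ι s) ^ 2 = (algebraMap K Ω c) ^ 2 := by
    rw [← map_pow, hs, AlgHom.commutes, ← map_pow, pow_two c, ← hc,
      ← IsScalarTower.algebraMap_apply]
  have hτS : τ (ι s) = ι (σ s) := hcomp s
  have hfix : τ (ι s) = ι s := by
    rcases sq_eq_sq_iff_eq_or_eq_neg.1 hS with h1 | h1
    · rw [h1]
      exact τ.commutes c
    · rw [h1, map_neg]
      congr 1
      exact τ.commutes c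
  have h2 : σ s = s := by
    apply ι.toRingHom.injective
    show ι (σ s) = ι s
    rw [← hτS, hfix]
  rw [fs, if_pos h2, map_zero]

end loc

theorem loc_of {W : WeierstrassCurve ℚ} {K : Type} [Field K] [Algebra ℚ K] {f : GQ → Pt W QB}
    (h : ∀ ι : QB →ₐ[ℚ] AlgebraicClosure K, ∃ P : Pt W (AlgebraicClosure K),
      ∀ (τ : AlgebraicClosure K ≃ₐ[K] AlgebraicClosure K) (σ : GQ), (∀ x, τ (ι x) = ι (σ x)) →
        act W ι (f σ) = act W (τ.toAlgHom.restrictScalars ℚ) P - P) : LocTriv W K f := by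
  intro ι
  obtain ⟨P, hP⟩ := h ι
  exact ⟨P, fun τ σ hc => hP τ σ fun x => DFunLike.congr_fun hc x⟩

/-- a point of the torsor gives local triviality -/
theorem loc_tor {a b : ℤ} (hb : b ≠ 0) (hd : a ^ 2 - 4 * b ≠ 0) {s : QB} {d : ℚ}
    (hs : s ^ 2 = algebraMap ℚ QB d) (hs0 : s ≠ 0) (K : Type) [Field K] [Algebra ℚ K]
    (h : Tor K (algebraMap ℚ K d) (a : K) (b : K)) : LocTriv (D a b) K (fs a b s) :=
  loc_of fun ι => loc_tor_gen hb hd hs hs0 ι h

/-- a square root in `K` gives local triviality -/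
theorem loc_sq {a b : ℤ} {s : QB} {d : ℚ} (hs : s ^ 2 = algebraMap ℚ QB d) (K : Type) [Field K]
    [Algebra ℚ K] (h : IsSquare (algebraMap ℚ K d)) : LocTriv (D a b) K (fs a b s) :=
  loc_of fun ι => loc_sq_gen hs ι h

/-- a coboundary gives a rational point of the torsor -/
theorem glob_tor {a b : ℤ} (hb : b ≠ 0) (hd : a ^ 2 - 4 * b ≠ 0) {s : QB} {d : ℚ}
    (hs : s ^ 2 = algebraMap ℚ QB d) (hs0 : s ≠ 0) (h : IsCob (D a b) (fs a b s)) :
    IsSquare d ∨ Tor ℚ d a b := by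
  obtain ⟨P, hP⟩ := h
  have hgal : IsGalois ℚ QB := Pool.Agent.W338.SH.galQB
  have hratio : ∀ z : QB, (∀ σ : GQ, σ s = s → σ z = z) → (∀ σ : GQ, σ s = -s → σ z = -z) →
      ∃ α : ℚ, z = algebraMap ℚ QB α * s := by
    intro z h1 h2
    have h3 : ∀ σ : GQ, σ (z / s) = z / s := by
      intro σ
      rw [map_div₀]
      rcases pm hs σ with h4 | h4
      · rw [h4, h1 σ h4]
      · rw [h4, h2 σ h4, neg_div_neg_eq]
    obtain ⟨q, hq⟩ := (InfiniteGalois.mem_range_algebraMap_iff_fixed (z / s)).2 h3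
    exact ⟨q, by rw [hq, div_mul_cancel₀ _ hs0]⟩
  have hcase : ∀ Q : Pt (D a b) QB, (Q = 0 ∨ Q = TT a b QB) → P = Q → IsSquare d := by
    intro Q hQ hPQ
    have h1 : ∀ σ : GQ, σ s = s := by
      intro σ
      by_contra h2
      have h3 := hP σ
      rw [fs, if_neg h2, hPQ] at h3
      apply TT_ne hb hd QB
      rw [h3]
      rcases hQ with rfl | rfl
      · rw [map_zero, sub_zero]
      · rw [act_TT hb hd, sub_self]
    obtain ⟨q, hq⟩ := (InfiniteGalois.mem_range_algebraMap_iff_fixed s).2 h1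
    refine ⟨q, ?_⟩
    rw [← hq, ← map_pow] at hs
    have := (algebraMap ℚ QB).injective hs
    rw [← this, pow_two]
  rcases P with _ | ⟨X, Y, hns⟩
  · exact Or.inl (hcase 0 (Or.inl rfl) rfl)
  obtain ⟨hT, eT⟩ := TT_eq hb hd QB
  have heq := (isD a b QB).eqn.1 hns.1
  by_cases hX0 : X = 0
  · left
    refine hcase (TT a b QB) (Or.inr rfl) ?_
    rw [eT]
    refine some_congr hX0 ?_ _ _
    rw [hX0] at heq
    have : Y ^ 2 = 0 := by rw [heq]; ring
    exact pow_eq_zero_iff two_ne_zero |>.1 this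
  right
  have hbL : (b : QB) ≠ 0 := ne_L hb QB
  have hact : ∀ σ : GQ, ∃ h, act (D a b) σ.toAlgHom (Affine.Point.some X Y hns) =
      Affine.Point.some (σ X) (σ Y) h := fun σ => act_some (D a b) σ.toAlgHom hns
  have hplus : ∀ σ : GQ, σ s = s → σ X = X ∧ σ Y = Y := by
    intro σ h1
    have h2 := hP σ
    rw [fs, if_pos h1] at h2
    obtain ⟨h3, e3⟩ := hact σ
    rw [e3] at h2
    have h4 := sub_eq_zero.1 h2.symm
    rw [Affine.Point.some.injEq] at h4
    exact h4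
  have hminus : ∀ σ : GQ, σ s = -s → σ X = b / X ∧ σ Y = -(b * Y) / X ^ 2 := by
    intro σ h1
    have h2 := hP σ
    rw [fs, if_neg (by rw [h1]; exact ne_neg hs0)] at h2
    obtain ⟨h3, e3⟩ := hact σ
    rw [e3, eq_sub_iff_add_eq, eT, add_comm] at h2
    obtain ⟨h4, e4⟩ := (isD a b QB).add_zz hX0 hns hT
    rw [e4, Affine.Point.some.injEq] at h2
    exact ⟨h2.1.symm, h2.2.symm⟩
  obtain ⟨α, hα⟩ := hratio (Y / X) (by
    intro σ h1
    obtain ⟨h2, h3⟩ := hplus σ h1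
    rw [map_div₀, h2, h3]) (by
    intro σ h1
    obtain ⟨h2, h3⟩ := hminus σ h1
    rw [map_div₀, h2, h3]
    field_simp)
  obtain ⟨β, hβ⟩ := hratio (X - b / X) (by
    intro σ h1
    obtain ⟨h2, h3⟩ := hplus σ h1
    rw [map_sub, map_div₀, h2, map_intCast]) (by
    intro σ h1
    obtain ⟨h2, h3⟩ := hminus σ h1
    rw [map_sub, map_div₀, h2, map_intCast]
    field_simp
    ring)
  refine ⟨α, β, ?_⟩
  apply (algebraMap ℚ QB).injective
  simp only [map_mul, map_pow, map_sub, map_intCast, map_ofNat]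
  have h5 : (Y / X) ^ 2 = X + a + b / X := by
    field_simp
    linear_combination heq
  have h6 : (X - b / X) ^ 2 = ((Y / X) ^ 2 - a) ^ 2 - 4 * b := by
    rw [h5]
    field_simp
    ring
  rw [hα, hβ] at h6
  rw [← hs]
  linear_combination h6

end Pool.Agent.H514.IS
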