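import Pool.Agent.H514.IS.Up5

/-! The order of the 2-torsion of the Tate-Shafarevich group against the additive function. -/

set_option autoImplicit false

open scoped Classical

namespace Pool.Agent.H514.IS

open Finset Filter Pool.Agent.W307.RT Pool.Agent.W262.SH Pool.Agent.W338.SH

/-- a prime is exceptional for a pair -/
def Ex1 (p : ℕ) (t : ℤ × ℤ) : Prop :=
  (p : ℤ) ^ 2 ∣ t.1 ∨ (p : ℤ) ^ 2 ∣ t.2 ∨ ((p : ℤ) ∣ t.1 ∧ (p : ℤ) ∣ t.2)

/-- the number of the exceptional primes -/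
noncomputable def xc (w y : ℕ) (t : ℤ × ℤ) : ℕ := ((Pw w y).filter (fun p : ℕ => Ex1 p t)).card

theorem cmpL {y T : ℕ} (hy : 1 ≤ y) {t : ℤ × ℤ} (hA : t.1 ≠ 0) (hB : t.2 ≠ 0)
    (hAB : t.1 ≠ t.2) (ht : t ∈ Box T) (hT : T < (y + 1) ^ 4) :
    ∑ p ∈ Pw 4 y, ph p t ≤ ((PP t.1 t.2).card : ℝ) - (KK t.1 t.2).card + (2 * xc 4 y t + 11) := by
  obtain ⟨A, B⟩ := t
  simp only at hA hB hAB
  rw [sum_ph]
  simp only
  have h1 : ((Pw 4 y).filter (fun p : ℕ => (p : ℤ) ∣ A ∨ (p : ℤ) ∣ B)).card ≤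
      (PP A B).card + xc 4 y (A, B) := by
    refine (card_le_card (t := PP A B ∪ (Pw 4 y).filter (fun p : ℕ => Ex1 p (A, B))) ?_).trans
      (card_union_le _ _)
    intro p hp
    rw [mem_filter, mem_Pw] at hp
    obtain ⟨⟨⟨h1, h2⟩, h3⟩, h4⟩ := hp
    by_cases hex : Ex1 p (A, B)
    · exact mem_union_right _ (mem_filter.2 ⟨mem_Pw.2 ⟨⟨h1, h2⟩, h3⟩, hex⟩)
    apply mem_union_left
    have hpi := Nat.prime_iff_prime_int.1 h3
    have h5 : ¬ ((p : ℤ) ∣ A ∧ (p : ℤ) ∣ B) := fun h => hex (Or.inr (Or.inr h))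
    have h6 : ¬ (p : ℤ) ^ 2 ∣ A := fun h => hex (Or.inl h)
    have h7 : ¬ (p : ℤ) ^ 2 ∣ B := fun h => hex (Or.inr (Or.inl h))
    rw [PP, mem_filter, Nat.mem_primeFactors]
    have : Fact p.Prime := ⟨h3⟩
    have val1 : ∀ n : ℤ, n ≠ 0 → (p : ℤ) ∣ n → ¬ (p : ℤ) ^ 2 ∣ n → padicValInt p n = 1 := by
      intro n hn hd hd2
      have a1 : (p : ℤ) ^ 1 ∣ n := by rwa [pow_one]
      rw [padicValInt_dvd_iff] at a1 hd2
      omega
    have hv : padicValInt p (A * B) = 1 := by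
      rw [padicValInt.mul hA hB]
      rcases h4 with h4 | h4
      · rw [val1 A hA h4 h6, padicValInt.eq_zero_of_not_dvd (fun h => h5 ⟨h4, h⟩)]
      · rw [val1 B hB h4 h7, padicValInt.eq_zero_of_not_dvd (fun h => h5 ⟨h, h4⟩)]
    refine ⟨⟨h3, ?_, Int.natAbs_ne_zero.2 (mul_ne_zero hA hB)⟩, by omega, h5, ?_⟩
    · rw [← Int.natCast_dvd]
      rcases h4 with h4 | h4
      · exact h4.mul_right _
      · exact h4.mul_left _
    · rw [hv]
      exact odd_one
  have h2 : (KK A B).card ≤ 3 + (4 + ((((Pw 4 y).filter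
      (fun p : ℕ => (p : ℤ) ∣ A - B ∧ jacobiSym A p = 1)).card) + (xc 4 y (A, B) + 4))) := by
    have hsub : KK A B ⊆ {1, 2, 3} ∪ (Icc 1 4 ∪ (((Pw 4 y).filter
      (fun p : ℕ => (p : ℤ) ∣ A - B ∧ jacobiSym A p = 1)) ∪
        ((Pw 4 y).filter (fun p : ℕ => Ex1 p (A, B)) ∪
          ((A - B).natAbs.primeFactors.filter (fun q => y < q))))) := by
      intro q hq
      rw [KK, mem_union] at hq
      rcases hq with hq | hq
      · exact mem_union_left _ hq
      apply mem_union_right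
      rw [mem_filter, Nat.mem_primeFactors] at hq
      obtain ⟨⟨a1, a2, a3⟩, a4⟩ := hq
      by_cases hqw : q ≤ 4
      · exact mem_union_left _ (mem_Icc.2 ⟨a1.one_lt.le, hqw⟩)
      apply mem_union_right
      by_cases hqy : y < q
      · apply mem_union_right
        apply mem_union_right
        rw [mem_filter, Nat.mem_primeFactors]
        exact ⟨⟨a1, a2, a3⟩, hqy⟩
      have hd : (q : ℤ) ∣ A - B := Int.natCast_dvd.2 a2
      have hPw : q ∈ Pw 4 y := mem_Pw.2 ⟨⟨by omega, by omega⟩, a1⟩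
      rcases a4 with a4 | a4
      · apply mem_union_right
        apply mem_union_left
        exact mem_filter.2 ⟨hPw, Or.inr (Or.inr ⟨a4, (dvd_sub_right a4).1 hd⟩)⟩
      · apply mem_union_left
        exact mem_filter.2 ⟨hPw, hd, a4⟩
    refine (card_le_card hsub).trans ((card_union_le _ _).trans ?_)
    have b1 : (({1, 2, 3} : Finset ℕ)).card ≤ 3 := by decide
    refine Nat.add_le_add b1 ((card_union_le _ _).trans ?_)
    rw [Nat.card_Icc]
    refine Nat.add_le_add (by omega) ((card_union_le _ _).trans ?_)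
    apply Nat.add_le_add_left
    refine (card_union_le _ _).trans ?_
    apply Nat.add_le_add le_rfl
    apply few_large (Int.natAbs_ne_zero.2 (sub_ne_zero.2 hAB))
    rw [mem_Box] at ht
    simp only at ht
    have b2 : (A - B).natAbs ≤ 2 * T := by omega
    have b3 : 2 * (y + 1) ^ 4 ≤ (y + 1) ^ (4 + 1) := by
      rw [pow_succ (y + 1) 4, mul_comm]
      exact Nat.mul_le_mul_left _ (by omega)
    omega
  have h1' : ((((Pw 4 y).filter (fun p : ℕ => (p : ℤ) ∣ A ∨ (p : ℤ) ∣ B)).card : ℕ) : ℝ) ≤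
    (PP A B).card + xc 4 y (A, B) := by exact_mod_cast h1
  have h2' : ((KK A B).card : ℝ) ≤ 3 + (4 + ((((Pw 4 y).filter
      (fun p : ℕ => (p : ℤ) ∣ A - B ∧ jacobiSym A p = 1)).card) + (xc 4 y (A, B) + 4))) := by
    exact_mod_cast h2
  linarith

theorem cmpU {y T : ℕ} {t : ℤ × ℤ} (hA : t.1 ≠ 0) (hB : t.2 ≠ 0)
    (hAB : t.1 ≠ t.2) (ht : t ∈ Box T) (hT : T < (y + 1) ^ 4) :
    ((P1 t.1 t.2).card : ℝ) - (QQ t.1 t.2).card ≤ (∑ p ∈ Pw 4 y, ph p t) + 11 := by
  obtain ⟨A, B⟩ := t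
  simp only at hA hB hAB
  rw [sum_ph]
  simp only
  rw [mem_Box] at ht
  simp only at ht
  have h1 : (P1 A B).card ≤ 1 + (4 + ((((Pw 4 y).filter
      (fun p : ℕ => (p : ℤ) ∣ A ∨ (p : ℤ) ∣ B)).card) + (3 + 3))) := by
    have hsub : P1 A B ⊆ {1} ∪ (Icc 1 4 ∪ (((Pw 4 y).filter
      (fun p : ℕ => (p : ℤ) ∣ A ∨ (p : ℤ) ∣ B)) ∪
        (A.natAbs.primeFactors.filter (fun q => y < q) ∪
          B.natAbs.primeFactors.filter (fun q => y < q)))) := by
      intro q hq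
      rw [mem_P1 hA hB] at hq
      rcases hq with rfl | ⟨a1, hq⟩
      · exact mem_union_left _ (mem_singleton_self _)
      apply mem_union_right
      by_cases hqw : q ≤ 4
      · exact mem_union_left _ (mem_Icc.2 ⟨a1.one_lt.le, hqw⟩)
      apply mem_union_right
      have hq' : (q : ℤ) ∣ A ∨ (q : ℤ) ∣ B := by
        rcases hq with hq | hq
        · omega
        · exact hq
      by_cases hqy : y < q
      · apply mem_union_right
        rcases hq' with hq | hq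
        · apply mem_union_left
          rw [mem_filter, Nat.mem_primeFactors]
          exact ⟨⟨a1, Int.natCast_dvd.1 hq, Int.natAbs_ne_zero.2 hA⟩, hqy⟩
        · apply mem_union_right
          rw [mem_filter, Nat.mem_primeFactors]
          exact ⟨⟨a1, Int.natCast_dvd.1 hq, Int.natAbs_ne_zero.2 hB⟩, hqy⟩
      · apply mem_union_left
        exact mem_filter.2 ⟨mem_Pw.2 ⟨⟨by omega, by omega⟩, a1⟩, hq'⟩
    refine (card_le_card hsub).trans ((card_union_le _ _).trans ?_)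
    rw [card_singleton]
    apply Nat.add_le_add_left
    refine (card_union_le _ _).trans ?_
    rw [Nat.card_Icc]
    refine Nat.add_le_add (by omega) ((card_union_le _ _).trans ?_)
    apply Nat.add_le_add_left
    refine (card_union_le _ _).trans (Nat.add_le_add ?_ ?_)
    · apply few_large (Int.natAbs_ne_zero.2 hA)
      exact lt_of_le_of_lt ht.1 hT
    · apply few_large (Int.natAbs_ne_zero.2 hB)
      exact lt_of_le_of_lt ht.2 hT
  have h2 : (((Pw 4 y).filter (fun p : ℕ => (p : ℤ) ∣ A - B ∧ jacobiSym A p = 1)).card) ≤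
      (QQ A B).card := by
    apply card_le_card
    intro q hq
    rw [mem_filter, mem_Pw] at hq
    obtain ⟨⟨⟨a1, a2⟩, a3⟩, a4, a5⟩ := hq
    rw [QQ, mem_filter, Nat.mem_primeFactors]
    refine ⟨⟨a3, Int.natCast_dvd.1 a4, Int.natAbs_ne_zero.2 (sub_ne_zero.2 hAB)⟩, by omega, ?_, a5⟩
    intro h
    have : jacobiSym A q = 0 := by
      have : Fact q.Prime := ⟨a3⟩
      rw [← jacobiSym.legendreSym.to_jacobiSym, legendreSym.eq_zero_iff]
      rwa [ZMod.intCast_zmod_eq_zero_iff_dvd]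
    omega
  have h1' : ((P1 A B).card : ℝ) ≤ 1 + (4 + ((((Pw 4 y).filter
      (fun p : ℕ => (p : ℤ) ∣ A ∨ (p : ℤ) ∣ B)).card) + (3 + 3))) := by exact_mod_cast h1
  have h2' : ((((Pw 4 y).filter (fun p : ℕ => (p : ℤ) ∣ A - B ∧ jacobiSym A p = 1)).card : ℕ) : ℝ) ≤
      (QQ A B).card := by exact_mod_cast h2
  linarith

/-- logarithms -/
lemma sha_log {A B : ℤ} (hA : A ≠ 0) (hB : B ≠ 0) (hAB : A ≠ B) :
    Finite (Sha2 (D (2 * (A + B)) ((A - B) ^ 2))) ∧
    ((PP A B).card : ℝ) ≤ (KK A B).card + Real.logb 2 (4 + QS A B) +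
      Real.logb 2 (Nat.card (Sha2 (D (2 * (A + B)) ((A - B) ^ 2)))) ∧
    Real.logb 2 (Nat.card (Sha2 (D (2 * (A + B)) ((A - B) ^ 2)))) + (QQ A B).card ≤
      (P1 A B).card + 2 * Real.logb 2 (4 + QS A B) := by
  have hf := selS_finite Pool.Agent.H905.SH.desc5 hA hB hAB
  obtain ⟨h1, h2⟩ := sha_up hA hB hAB hf
  obtain ⟨n, hn, f, hfi⟩ := sha_low hA hB hAB hf
  set N := Nat.card (Sha2 (D (2 * (A + B)) ((A - B) ^ 2))) with hN
  have hN1 : 1 ≤ N := by
    have : Nonempty (Sha2 (D (2 * (A + B)) ((A - B) ^ 2))) := ⟨⟨0, add_zero _⟩⟩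
    exact Nat.card_pos
  have hnN : 2 ^ n ≤ N := by
    have h3 : Nat.card (Fin n → ZMod 2) = 2 ^ n := by simp
    rw [← h3]
    refine Nat.card_le_card_of_injective
      (fun v => (⟨f v, ?_⟩ : Sha2 (D (2 * (A + B)) ((A - B) ^ 2)))) ?_
    · rw [← map_add]
      have : v + v = 0 := by
        funext i
        exact CharTwo.add_self_eq_zero _
      rw [this, map_zero]
    · intro v v' h
      exact hfi (congrArg Subtype.val h)
  have hQ : QS A B = (SelS A B).ncard := rfl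
  rw [← hQ] at h2 hn
  have hNr : (0 : ℝ) < N := by exact_mod_cast hN1
  have hQr : (0 : ℝ) < 4 + QS A B := by positivity
  refine ⟨h1, ?_, ?_⟩
  · have h3 : (2 : ℝ) ^ (PP A B).card ≤ 2 ^ (KK A B).card * ((4 + QS A B) * N) := by
      have h4 : 2 ^ (PP A B).card ≤ 2 ^ (KK A B).card * ((4 + QS A B) * N) :=
        hn.trans (Nat.mul_le_mul_left _ (Nat.mul_le_mul_left _ hnN))
      exact_mod_cast h4
    have h4 := Real.logb_le_logb_of_le (b := 2) (by norm_num) (by positivity) h3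
    rw [Real.logb_mul (by positivity) (by positivity), Real.logb_mul hQr.ne' hNr.ne',
      Real.logb_pow, Real.logb_pow, Real.logb_self_eq_one (by norm_num)] at h4
    linarith
  · have h3 : (N : ℝ) * 2 ^ (QQ A B).card ≤ 2 ^ (P1 A B).card * (4 + QS A B) ^ 2 := by
      have h4 : N * 2 ^ (QQ A B).card ≤ 2 ^ (P1 A B).card * (4 + QS A B) ^ 2 :=
        h2.trans (Nat.mul_le_mul_left _ (Nat.pow_le_pow_left (by omega) 2))
      exact_mod_cast h4
    have h4 := Real.logb_le_logb_of_le (b := 2) (by norm_num) (by positivity) h3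
    rw [Real.logb_mul (by positivity) (by positivity), Real.logb_mul (by positivity) (by positivity),
      Real.logb_pow, Real.logb_pow, Real.logb_pow, Real.logb_self_eq_one (by norm_num)] at h4
    push_cast at h4
    linarith

/-- the comparison -/
theorem sha_cmp {y T : ℕ} (hy : 1 ≤ y) {t : ℤ × ℤ} (hA : t.1 ≠ 0) (hB : t.2 ≠ 0)
    (hAB : t.1 ≠ t.2) (ht : t ∈ Box T) (hT : T < (y + 1) ^ 4) :
    |Real.logb 2 (Nat.card (Sha2 (D (2 * (t.1 + t.2)) ((t.1 - t.2) ^ 2)))) -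
      ∑ p ∈ Pw 4 y, ph p t| ≤ 19 + 2 * xc 4 y t + 2 * QS t.1 t.2 := by
  obtain ⟨-, h1, h2⟩ := sha_log hA hB hAB
  have h3 := cmpL hy hA hB hAB ht hT
  have h4 := cmpU hA hB hAB ht hT
  have h5 : Real.logb 2 (4 + QS t.1 t.2) ≤ 4 + QS t.1 t.2 := by
    have hQr : (0 : ℝ) < 4 + QS t.1 t.2 := by positivity
    rw [Real.logb_le_iff_le_rpow (by norm_num) hQr]
    have h6 : 4 + QS t.1 t.2 < 2 ^ (4 + QS t.1 t.2) := Nat.lt_two_pow_self
    have h7 : ((4 + QS t.1 t.2 : ℕ) : ℝ) ≤ ((2 ^ (4 + QS t.1 t.2) : ℕ) : ℝ) := by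
      exact_mod_cast h6.le
    push_cast at h7
    refine h7.trans (le_of_eq ?_)
    rw [← Real.rpow_natCast]
    push_cast
    rfl
  have h8 : 0 ≤ Real.logb 2 (4 + QS t.1 t.2) := by
    apply Real.logb_nonneg (by norm_num)
    have : (0 : ℝ) ≤ QS t.1 t.2 := Nat.cast_nonneg _
    linarith
  have h9 : (0 : ℝ) ≤ xc 4 y t := Nat.cast_nonneg _
  have h10 : (0 : ℝ) ≤ QS t.1 t.2 := Nat.cast_nonneg _
  rw [abs_le]
  constructor <;> linarith

end Pool.Agent.H514.IS
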