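import Pool.Agent.H514.IS.Tu1

/-! The second moment over a box. -/

set_option autoImplicit false

open scoped Classical

namespace Pool.Agent.H514.IS

open Finset Filter Pool.Agent.W307.RT Pool.Agent.W262.SH Pool.Agent.W338.SH

/-- multiples -/
noncomputable def Fm (T m : ℕ) : Finset ℤ := (Icc (-(T : ℤ)) T).filter (fun a : ℤ => a ≠ 0 ∧ (m : ℤ) ∣ a)

lemma Fm_card {T m : ℕ} (hm : 0 < m) : ((Fm T m).card : ℝ) ≤ 2 * T / m := cnt_dvd hm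

lemma Ex1_iff {p : ℕ} {t : ℤ × ℤ} (h : Ex1 p t) :
    ∃ i ∈ range 3, ((p ^ (2 - i) : ℕ) : ℤ) ∣ t.1 ∧ ((p ^ i : ℕ) : ℤ) ∣ t.2 := by
  rcases h with h | h | h
  · exact ⟨0, by simp, by push_cast; exact h, by simp⟩
  · exact ⟨2, by simp, by simp, by push_cast; exact h⟩
  · exact ⟨1, by simp, by simpa using h.1, by simpa using h.2⟩

/-- the nonzero pairs -/
def Nz (t : ℤ × ℤ) : Prop := t.1 ≠ 0 ∧ t.2 ≠ 0

lemma one_card {p T : ℕ} (hp : p.Prime) :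
    ((((Box T).filter (fun t => Nz t ∧ Ex1 p t)).card : ℕ) : ℝ) ≤
      12 * (T : ℝ) ^ 2 * (1 / (p : ℝ) ^ 2) := by
  have h1 : (Box T).filter (fun t => Nz t ∧ Ex1 p t) ⊆
      (range 3).biUnion (fun i => Fm T (p ^ (2 - i)) ×ˢ Fm T (p ^ i)) := by
    intro t ht
    rw [mem_filter, mem_Box] at ht
    obtain ⟨⟨h1, h2⟩, ⟨h3, h4⟩, h5⟩ := ht
    obtain ⟨i, hi, h6, h7⟩ := Ex1_iff h5
    rw [mem_biUnion]
    refine ⟨i, hi, ?_⟩
    rw [mem_product, Fm, Fm, mem_filter, mem_filter, mem_Icc, mem_Icc]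
    exact ⟨⟨⟨by omega, by omega⟩, h3, h6⟩, ⟨⟨by omega, by omega⟩, h4, h7⟩⟩
  have h2 := (card_le_card h1).trans card_biUnion_le
  have hp0 : (0 : ℝ) < p := by exact_mod_cast hp.pos
  have h3 : ∀ i ∈ range 3, (((Fm T (p ^ (2 - i)) ×ˢ Fm T (p ^ i)).card : ℕ) : ℝ) ≤
      4 * (T : ℝ) ^ 2 * (1 / (p : ℝ) ^ 2) := by
    intro i hi
    rw [mem_range] at hi
    rw [card_product]
    push_cast
    have e1 := Fm_card (T := T) (pow_pos hp.pos (2 - i))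
    have e2 := Fm_card (T := T) (pow_pos hp.pos i)
    refine (mul_le_mul e1 e2 (Nat.cast_nonneg _) (by positivity)).trans (le_of_eq ?_)
    have e3 : (p : ℝ) ^ 2 = (p : ℝ) ^ (2 - i) * (p : ℝ) ^ i := by
      rw [← pow_add]
      congr 1
      omega
    rw [e3]
    push_cast
    field_simp
    ring
  calc ((((Box T).filter (fun t => Nz t ∧ Ex1 p t)).card : ℕ) : ℝ) ≤
      ∑ i ∈ range 3, (((Fm T (p ^ (2 - i)) ×ˢ Fm T (p ^ i)).card : ℕ) : ℝ) := by exact_mod_cast h2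
    _ ≤ ∑ i ∈ range 3, 4 * (T : ℝ) ^ 2 * (1 / (p : ℝ) ^ 2) := sum_le_sum h3
    _ = _ := by
      rw [sum_const, card_range, nsmul_eq_mul]
      push_cast
      ring

lemma two_card {p q T : ℕ} (hp : p.Prime) (hq : q.Prime) (hpq : p ≠ q) :
    ((((Box T).filter (fun t => Nz t ∧ Ex1 p t ∧ Ex1 q t)).card : ℕ) : ℝ) ≤
      36 * (T : ℝ) ^ 2 * (1 / (p : ℝ) ^ 2) * (1 / (q : ℝ) ^ 2) := by
  have hcop : Nat.Coprime p q := (Nat.coprime_primes hp hq).2 hpq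
  have h1 : (Box T).filter (fun t => Nz t ∧ Ex1 p t ∧ Ex1 q t) ⊆
      (range 3 ×ˢ range 3).biUnion (fun i => Fm T (p ^ (2 - i.1) * q ^ (2 - i.2)) ×ˢ
        Fm T (p ^ i.1 * q ^ i.2)) := by
    intro t ht
    rw [mem_filter, mem_Box] at ht
    obtain ⟨⟨h1, h2⟩, ⟨h3, h4⟩, h5, h5'⟩ := ht
    obtain ⟨i, hi, h6, h7⟩ := Ex1_iff h5
    obtain ⟨j, hj, h8, h9⟩ := Ex1_iff h5'
    rw [mem_biUnion]
    refine ⟨(i, j), mem_product.2 ⟨hi, hj⟩, ?_⟩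
    rw [mem_product, Fm, Fm, mem_filter, mem_filter, mem_Icc, mem_Icc]
    have c1 : IsCoprime ((p ^ (2 - i) : ℕ) : ℤ) ((q ^ (2 - j) : ℕ) : ℤ) :=
      Nat.isCoprime_iff_coprime.2 (hcop.pow _ _)
    have c2 : IsCoprime ((p ^ i : ℕ) : ℤ) ((q ^ j : ℕ) : ℤ) :=
      Nat.isCoprime_iff_coprime.2 (hcop.pow _ _)
    refine ⟨⟨⟨by omega, by omega⟩, h3, ?_⟩, ⟨⟨by omega, by omega⟩, h4, ?_⟩⟩
    · push_cast at c1 h6 h8 ⊢
      exact c1.mul_dvd h6 h8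
    · push_cast at c2 h7 h9 ⊢
      exact c2.mul_dvd h7 h9
  have h2 := (card_le_card h1).trans card_biUnion_le
  have hp0 : (0 : ℝ) < p := by exact_mod_cast hp.pos
  have hq0 : (0 : ℝ) < q := by exact_mod_cast hq.pos
  have h3 : ∀ i ∈ range 3 ×ˢ range 3, (((Fm T (p ^ (2 - i.1) * q ^ (2 - i.2)) ×ˢ
        Fm T (p ^ i.1 * q ^ i.2)).card : ℕ) : ℝ) ≤
      4 * (T : ℝ) ^ 2 * (1 / (p : ℝ) ^ 2) * (1 / (q : ℝ) ^ 2) := by
    rintro ⟨i, j⟩ hi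
    rw [mem_product, mem_range, mem_range] at hi
    simp only at hi ⊢
    rw [card_product]
    push_cast
    have e1 := Fm_card (T := T) (mul_pos (pow_pos hp.pos (2 - i)) (pow_pos hq.pos (2 - j)))
    have e2 := Fm_card (T := T) (mul_pos (pow_pos hp.pos i) (pow_pos hq.pos j))
    refine (mul_le_mul e1 e2 (Nat.cast_nonneg _) (by positivity)).trans (le_of_eq ?_)
    have e3 : (p : ℝ) ^ 2 = (p : ℝ) ^ (2 - i) * (p : ℝ) ^ i := by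
      rw [← pow_add]
      congr 1
      omega
    have e4 : (q : ℝ) ^ 2 = (q : ℝ) ^ (2 - j) * (q : ℝ) ^ j := by
      rw [← pow_add]
      congr 1
      omega
    rw [e3, e4]
    push_cast
    field_simp
    ring
  calc ((((Box T).filter (fun t => Nz t ∧ Ex1 p t ∧ Ex1 q t)).card : ℕ) : ℝ) ≤
      ∑ i ∈ range 3 ×ˢ range 3, (((Fm T (p ^ (2 - i.1) * q ^ (2 - i.2)) ×ˢ
        Fm T (p ^ i.1 * q ^ i.2)).card : ℕ) : ℝ) := by exact_mod_cast h2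
    _ ≤ ∑ i ∈ range 3 ×ˢ range 3, 4 * (T : ℝ) ^ 2 * (1 / (p : ℝ) ^ 2) * (1 / (q : ℝ) ^ 2) :=
        sum_le_sum h3
    _ = _ := by
      rw [sum_const, card_product, card_range, nsmul_eq_mul]
      push_cast
      ring

/-- the second moment of the number of the exceptional primes -/
lemma xc_sq (y T : ℕ) : ∑ t ∈ (Box T).filter Nz, (xc 4 y t : ℝ) ^ 2 ≤ 6 * (T : ℝ) ^ 2 := by
  have e1 : ∀ t : ℤ × ℤ, (xc 4 y t : ℝ) ^ 2 = ∑ p ∈ Pw 4 y, ∑ q ∈ Pw 4 y,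
      (if Ex1 p t ∧ Ex1 q t then (1 : ℝ) else 0) := by
    intro t
    have h1 : (xc 4 y t : ℝ) = ∑ p ∈ Pw 4 y, (if Ex1 p t then (1 : ℝ) else 0) := by
      rw [Finset.sum_boole]
      rfl
    rw [h1, sq, sum_mul_sum]
    refine sum_congr rfl fun p _ => sum_congr rfl fun q _ => ?_
    by_cases h1 : Ex1 p t <;> by_cases h2 : Ex1 q t <;> simp [h1, h2]
  simp only [e1]
  rw [sum_comm]
  have e2 : ∀ p ∈ Pw 4 y, ∑ t ∈ (Box T).filter Nz, ∑ q ∈ Pw 4 y,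
      (if Ex1 p t ∧ Ex1 q t then (1 : ℝ) else 0) =
      ∑ q ∈ Pw 4 y, ((((Box T).filter (fun t => Nz t ∧ Ex1 p t ∧ Ex1 q t)).card : ℕ) : ℝ) := by
    intro p _
    rw [sum_comm]
    refine sum_congr rfl fun q _ => ?_
    rw [Finset.sum_boole, filter_filter]
  rw [sum_congr rfl e2]
  have hpr : ∀ p ∈ Pw 4 y, p.Prime := fun p hp => (mem_Pw.1 hp).2
  have e3 : ∀ p ∈ Pw 4 y, ∀ q ∈ Pw 4 y,
      ((((Box T).filter (fun t => Nz t ∧ Ex1 p t ∧ Ex1 q t)).card : ℕ) : ℝ) ≤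
      (if p = q then 12 * (T : ℝ) ^ 2 * (1 / (p : ℝ) ^ 2) else 0) +
        36 * (T : ℝ) ^ 2 * (1 / (p : ℝ) ^ 2) * (1 / (q : ℝ) ^ 2) := by
    intro p hp q hq
    by_cases hpq : p = q
    · subst hpq
      rw [if_pos rfl]
      have h1 := one_card (T := T) (hpr p hp)
      simp only [and_self]
      have h2 : 0 ≤ 36 * (T : ℝ) ^ 2 * (1 / (p : ℝ) ^ 2) * (1 / (p : ℝ) ^ 2) := by positivity
      linarith
    · rw [if_neg hpq, zero_add]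
      exact two_card (hpr p hp) (hpr q hq) hpq
  refine (sum_le_sum fun p hp => sum_le_sum fun q hq => e3 p hp q hq).trans ?_
  have hs : ∑ p ∈ Pw 4 y, 1 / (p : ℝ) ^ 2 ≤ 1 / 4 := by
    have h3 : ∑ p ∈ Pw 4 y, 1 / (p : ℝ) ^ 2 ≤ ∑ p ∈ Ioc 4 y, 1 / (p : ℝ) ^ 2 :=
      sum_le_sum_of_subset_of_nonneg (filter_subset _ _) fun p _ _ => by positivity
    have h4 := sum_inv_sq_le (w := 4) (N := y) (by norm_num)
    push_cast at h4
    linarith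
  have hs0 : 0 ≤ ∑ p ∈ Pw 4 y, 1 / (p : ℝ) ^ 2 := sum_nonneg fun p _ => by positivity
  have e4 : ∑ p ∈ Pw 4 y, ∑ q ∈ Pw 4 y,
      ((if p = q then 12 * (T : ℝ) ^ 2 * (1 / (p : ℝ) ^ 2) else 0) +
        36 * (T : ℝ) ^ 2 * (1 / (p : ℝ) ^ 2) * (1 / (q : ℝ) ^ 2)) =
      12 * (T : ℝ) ^ 2 * (∑ p ∈ Pw 4 y, 1 / (p : ℝ) ^ 2) +
        36 * (T : ℝ) ^ 2 * (∑ p ∈ Pw 4 y, 1 / (p : ℝ) ^ 2) ^ 2 := by
    simp only [sum_add_distrib]
    congr 1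
    · rw [mul_sum]
      refine sum_congr rfl fun p hp => ?_
      rw [sum_ite_eq, if_pos hp]
    · rw [sq (∑ p ∈ Pw 4 y, 1 / (p : ℝ) ^ 2), sum_mul_sum, mul_sum]
      refine sum_congr rfl fun p hp => ?_
      rw [mul_sum]
      refine sum_congr rfl fun q hq => ?_
      ring
  rw [e4]
  have hT : 0 ≤ (T : ℝ) ^ 2 := by positivity
  nlinarith [mul_nonneg hT hs0, mul_nonneg hT (sub_nonneg.2 hs), mul_nonneg (mul_nonneg hT hs0)
    (sub_nonneg.2 hs)]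

end Pool.Agent.H514.IS
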