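import Pool.Agent.H514.IS.Tu2

/-! The second moment over a box: the theorem. -/

set_option autoImplicit false

open scoped Classical

namespace Pool.Agent.H514.IS

open Finset Filter Pool.Agent.W307.RT Pool.Agent.W262.SH Pool.Agent.W338.SH

/-- the nondegenerate pairs -/
def Nd (t : ℤ × ℤ) : Prop := t.1 ≠ 0 ∧ t.2 ≠ 0 ∧ t.1 ≠ t.2

/-- the logarithm of the order -/
noncomputable def lg (W : WeierstrassCurve ℚ) : ℝ := Real.logb 2 (Nat.card (Sha2 W))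

lemma sq3 (a b c : ℝ) : (a + b + c) ^ 2 ≤ 3 * (a ^ 2 + b ^ 2 + c ^ 2) := by
  nlinarith [sq_nonneg (a - b), sq_nonneg (b - c), sq_nonneg (a - c)]

/-- the box -/
theorem box_turan : ∃ C : ℝ, 0 ≤ C ∧ ∃ T0 : ℕ, ∀ T : ℕ, T0 ≤ T →
    1 ≤ Real.log (Real.log T) ∧
    ∑ t ∈ (Box T).filter Nd, (lg (D (2 * (t.1 + t.2)) ((t.1 - t.2) ^ 2)) -
      3 / 2 * Real.log (Real.log T)) ^ 2 ≤ C * Real.log (Real.log T) * (T : ℝ) ^ 2 := by
  obtain ⟨C2, hC20, hC2⟩ := mert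
  obtain ⟨C1, hC10, hC1⟩ := Pool.Agent.H514.box_q Pool.Agent.H514.rbd_sel 2 le_rfl
  set C3 : ℝ := (3 / 2) * (3 + C2 + 4) + 1 with hC3
  have hC3pos : 0 ≤ C3 := by positivity
  refine ⟨3 * ((27 * (1 + C2) + 21) + 9 * C3 ^ 2 + 3 * (361 * 9 + 4 * 6 + 4 * C1)), by positivity,
    ?_⟩
  obtain ⟨T1, hT1⟩ := (tendsto_atTop.1 tend_ll 1).exists_forall_of_atTop
  refine ⟨max T1 16, fun T hT => ?_⟩
  have hT16 : 16 ≤ T := (le_max_right _ _).trans hT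
  have hL := hT1 T ((le_max_left _ _).trans hT)
  refine ⟨hL, ?_⟩
  set L : ℝ := Real.log (Real.log T) with hLdef
  obtain ⟨y, hy2, hyT, hTy⟩ := root4 T hT16
  have hTr : (0 : ℝ) < T := by
    have : 0 < T := by omega
    exact_mod_cast this
  have hyr : (2 : ℝ) ≤ y := by exact_mod_cast hy2
  have hlogy : 0 < Real.log y := Real.log_pos (by linarith)
  -- the logarithms
  have hll1 : L - 3 ≤ Real.log (Real.log y) := by
    have h1 : (T : ℝ) ≤ (y : ℝ) ^ 8 := by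
      have h2 : T ≤ y ^ 8 := by
        have h3 : y + 1 ≤ y ^ 2 := by nlinarith
        calc T ≤ (y + 1) ^ 4 := hTy.le
          _ ≤ (y ^ 2) ^ 4 := Nat.pow_le_pow_left h3 4
          _ = y ^ 8 := by ring
      exact_mod_cast h2
    have h4 : Real.log T ≤ 8 * Real.log y := by
      have := Real.log_le_log hTr h1
      rw [Real.log_pow] at this
      exact_mod_cast this
    have h5 : 0 < Real.log T := Real.log_pos (by
      have : (16 : ℝ) ≤ T := by exact_mod_cast hT16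
      linarith)
    have h6 := Real.log_le_log h5 h4
    rw [Real.log_mul (by norm_num) hlogy.ne'] at h6
    have h7 : Real.log 8 ≤ 3 := by
      have h8 : Real.log 8 = 3 * Real.log 2 := by
        rw [show (8 : ℝ) = 2 ^ 3 by norm_num, Real.log_pow]
        norm_num
      have := Real.log_two_lt_d9
      linarith
    linarith
  have hll2 : Real.log (Real.log y) ≤ L := by
    apply Real.log_le_log hlogy
    apply Real.log_le_log (by linarith)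
    exact_mod_cast (Nat.le_self_pow (by norm_num) y).trans hyT
  obtain ⟨hs1, hs2⟩ := sum_Pw hC2 (w := 4) hy2
  push_cast at hs1
  have hmu := sum_mu 4 y (by omega)
  have hmu2 : ∑ p ∈ Pw 4 y, mu p ≤ (3 / 2) * (∑ p ∈ Pw 4 y, (1 : ℝ) / p) := by
    rw [mul_sum]
    refine sum_le_sum fun p hp => ?_
    have h0 : (0 : ℝ) < p := by exact_mod_cast (mem_Pw.1 hp).2.pos
    have h1 : (3 / 2) * ((1 : ℝ) / p) - (1 / 2) * (1 / (p : ℝ) ^ 2) = mu p := by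
      unfold mu
      field_simp
    rw [← h1]
    have : 0 ≤ (1 / 2) * (1 / (p : ℝ) ^ 2) := by positivity
    linarith
  have hM : |(∑ p ∈ Pw 4 y, mu p) - 3 / 2 * L| ≤ C3 := by
    rw [abs_le, hC3]
    constructor <;> linarith
  have hP : ∀ p ∈ Pw 4 y, p.Prime ∧ p ≠ 2 := fun p hp => by
    obtain ⟨⟨h1, -⟩, h2⟩ := mem_Pw.1 hp
    exact ⟨h2, by omega⟩
  -- the variance
  have hvar := tk_var (Pw 4 y) hP T y (fun p hp => (mem_Pw.1 hp).1.2)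
  have hcard : ((Pw 4 y).card : ℝ) ≤ y := by
    have h1 : (Pw 4 y).card ≤ (Ioc 4 y).card := card_le_card (filter_subset _ _)
    rw [Nat.card_Ioc] at h1
    exact_mod_cast h1.trans (Nat.sub_le _ _)
  have hV : ∑ t ∈ Box T, ((∑ p ∈ Pw 4 y, ph p t) - ∑ p ∈ Pw 4 y, mu p) ^ 2 ≤
      (27 * (L + C2) + 21) * (T : ℝ) ^ 2 := by
    refine hvar.trans ?_
    have h1 : ∑ p ∈ Pw 4 y, (3 : ℝ) / p = 3 * ∑ p ∈ Pw 4 y, (1 : ℝ) / p := by
      rw [mul_sum]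
      exact sum_congr rfl fun p _ => by ring
    rw [h1]
    have hT1r : (1 : ℝ) ≤ T := by
      have : 1 ≤ T := by omega
      exact_mod_cast this
    have h2 : ((2 * T + 1 : ℝ)) ^ 2 ≤ 9 * (T : ℝ) ^ 2 := by nlinarith
    have h3 : 3 * ∑ p ∈ Pw 4 y, (1 : ℝ) / p ≤ 3 * (L + C2) := by linarith
    have h30 : 0 ≤ 3 * ∑ p ∈ Pw 4 y, (1 : ℝ) / p :=
      mul_nonneg (by norm_num) (sum_nonneg fun p _ => by positivity)
    have h4 : (2 * T + 1 : ℝ) ^ 2 * (3 * ∑ p ∈ Pw 4 y, (1 : ℝ) / p) ≤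
        9 * (T : ℝ) ^ 2 * (3 * (L + C2)) := mul_le_mul h2 h3 h30 (by positivity)
    have h5 : (y : ℝ) ^ 4 ≤ T := by exact_mod_cast hyT
    have h6 : (y : ℝ) ^ 2 ≤ (y : ℝ) ^ 4 := by
      apply pow_le_pow_right₀ (by linarith) (by norm_num)
    have h7 : ((Pw 4 y).card : ℝ) ^ 2 ≤ (y : ℝ) ^ 2 := pow_le_pow_left₀ (Nat.cast_nonneg _) hcard 2
    have h8 : 3 * ((Pw 4 y).card : ℝ) ^ 2 * (2 * (y : ℝ) ^ 2 * (2 * T + 1) + (y : ℝ) ^ 4) ≤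
        21 * (T : ℝ) ^ 2 := by
      have a1 : 3 * ((Pw 4 y).card : ℝ) ^ 2 * (2 * (y : ℝ) ^ 2 * (2 * T + 1) + (y : ℝ) ^ 4) ≤
          3 * (y : ℝ) ^ 2 * (2 * (y : ℝ) ^ 2 * (3 * T) + (y : ℝ) ^ 4) := by
        apply mul_le_mul (by linarith) _ (by positivity) (by positivity)
        have : 0 ≤ 2 * (y : ℝ) ^ 2 := by positivity
        nlinarith
      have a2 : 3 * (y : ℝ) ^ 2 * (2 * (y : ℝ) ^ 2 * (3 * T) + (y : ℝ) ^ 4) =
          18 * (y : ℝ) ^ 4 * T + 3 * (y : ℝ) ^ 2 * (y : ℝ) ^ 4 := by ring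
      have a3 : 18 * (y : ℝ) ^ 4 * T ≤ 18 * T * T := by
        apply mul_le_mul_of_nonneg_right (by linarith) hTr.le
      have a4 : 3 * (y : ℝ) ^ 2 * (y : ℝ) ^ 4 ≤ 3 * T * T := by
        apply mul_le_mul (by linarith) h5 (by positivity) (by positivity)
      nlinarith
    nlinarith
  -- the parts
  have hT2 : (0 : ℝ) ≤ (T : ℝ) ^ 2 := by positivity
  have hV2 : ∑ t ∈ (Box T).filter Nd, ((∑ p ∈ Pw 4 y, ph p t) - ∑ p ∈ Pw 4 y, mu p) ^ 2 ≤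
      (27 * (L + C2) + 21) * (T : ℝ) ^ 2 :=
    (sum_le_sum_of_subset_of_nonneg (filter_subset _ _) fun t _ _ => sq_nonneg _).trans hV
  have hcardB : (((Box T).filter Nd).card : ℝ) ≤ 9 * (T : ℝ) ^ 2 := by
    have h1 : (((Box T).filter Nd).card : ℝ) ≤ (Box T).card := by
      exact_mod_cast card_le_card (filter_subset _ _)
    rw [box_card] at h1
    have hT1r : (1 : ℝ) ≤ T := by
      have : 1 ≤ T := by omega
      exact_mod_cast this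
    nlinarith
  have hx : ∑ t ∈ (Box T).filter Nd, (xc 4 y t : ℝ) ^ 2 ≤ 6 * (T : ℝ) ^ 2 := by
    refine (sum_le_sum_of_subset_of_nonneg ?_ fun t _ _ => sq_nonneg _).trans (xc_sq y T)
    intro t ht
    rw [mem_filter] at ht ⊢
    exact ⟨ht.1, ht.2.1, ht.2.2.1⟩
  have hq : ∑ t ∈ (Box T).filter Nd, (QS t.1 t.2 : ℝ) ^ 2 ≤ C1 * (T : ℝ) ^ 2 := by
    have h1 := hC1 T (by omega)
    rw [LgK_two, mul_one] at h1
    refine le_trans (le_of_eq (sum_congr ?_ fun _ _ => rfl)) h1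
    ext t
    simp only [mem_filter, Nd]
  have hpt : ∀ t ∈ (Box T).filter Nd, (lg (D (2 * (t.1 + t.2)) ((t.1 - t.2) ^ 2)) -
      3 / 2 * L) ^ 2 ≤ 3 * (((∑ p ∈ Pw 4 y, ph p t) - ∑ p ∈ Pw 4 y, mu p) ^ 2 + C3 ^ 2 +
        3 * (361 + 4 * (xc 4 y t : ℝ) ^ 2 + 4 * (QS t.1 t.2 : ℝ) ^ 2)) := by
    intro t ht
    rw [mem_filter] at ht
    obtain ⟨ht1, hA, hB, hAB⟩ := ht
    have h1 := sha_cmp (by omega) hA hB hAB ht1 hTy
    have h2 : (lg (D (2 * (t.1 + t.2)) ((t.1 - t.2) ^ 2)) - ∑ p ∈ Pw 4 y, ph p t) ^ 2 ≤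
        (19 + 2 * xc 4 y t + 2 * QS t.1 t.2) ^ 2 := by
      rw [← sq_abs (lg _ - _)]
      exact pow_le_pow_left₀ (abs_nonneg _) h1 2
    have h3 := sq3 19 (2 * (xc 4 y t : ℝ)) (2 * (QS t.1 t.2 : ℝ))
    have h4 := sq3 ((∑ p ∈ Pw 4 y, ph p t) - ∑ p ∈ Pw 4 y, mu p)
      ((∑ p ∈ Pw 4 y, mu p) - 3 / 2 * L)
      (lg (D (2 * (t.1 + t.2)) ((t.1 - t.2) ^ 2)) - ∑ p ∈ Pw 4 y, ph p t)
    have h5 : ((∑ p ∈ Pw 4 y, mu p) - 3 / 2 * L) ^ 2 ≤ C3 ^ 2 := by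
      rw [← sq_abs]
      exact pow_le_pow_left₀ (abs_nonneg _) hM 2
    have h6 : ((∑ p ∈ Pw 4 y, ph p t) - ∑ p ∈ Pw 4 y, mu p) +
      ((∑ p ∈ Pw 4 y, mu p) - 3 / 2 * L) +
      (lg (D (2 * (t.1 + t.2)) ((t.1 - t.2) ^ 2)) - ∑ p ∈ Pw 4 y, ph p t) =
      lg (D (2 * (t.1 + t.2)) ((t.1 - t.2) ^ 2)) - 3 / 2 * L := by ring
    rw [h6] at h4
    nlinarith
  refine (sum_le_sum hpt).trans ?_
  have h7 : ∑ t ∈ (Box T).filter Nd, 3 * (((∑ p ∈ Pw 4 y, ph p t) - ∑ p ∈ Pw 4 y, mu p) ^ 2 +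
      C3 ^ 2 + 3 * (361 + 4 * (xc 4 y t : ℝ) ^ 2 + 4 * (QS t.1 t.2 : ℝ) ^ 2)) =
      3 * ((∑ t ∈ (Box T).filter Nd, ((∑ p ∈ Pw 4 y, ph p t) - ∑ p ∈ Pw 4 y, mu p) ^ 2) +
        ((Box T).filter Nd).card * C3 ^ 2 + 3 * (((Box T).filter Nd).card * 361 +
          4 * (∑ t ∈ (Box T).filter Nd, (xc 4 y t : ℝ) ^ 2) +
          4 * (∑ t ∈ (Box T).filter Nd, (QS t.1 t.2 : ℝ) ^ 2))) := by
    rw [← mul_sum]
    simp only [sum_add_distrib, ← mul_sum, sum_const, nsmul_eq_mul]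
  rw [h7]
  have h8 : (((Box T).filter Nd).card : ℝ) * C3 ^ 2 ≤ 9 * (T : ℝ) ^ 2 * C3 ^ 2 :=
    mul_le_mul_of_nonneg_right hcardB (sq_nonneg _)
  have h9 : 3 * ((27 * (L + C2) + 21) * (T : ℝ) ^ 2 + 9 * (T : ℝ) ^ 2 * C3 ^ 2 +
      3 * (9 * (T : ℝ) ^ 2 * 361 + 4 * (6 * (T : ℝ) ^ 2) + 4 * (C1 * (T : ℝ) ^ 2))) =
      (3 * ((27 * (L + C2) + 21) + 9 * C3 ^ 2 + 3 * (361 * 9 + 4 * 6 + 4 * C1))) *
        (T : ℝ) ^ 2 := by ring
  have h10 : 3 * ((27 * (L + C2) + 21) + 9 * C3 ^ 2 + 3 * (361 * 9 + 4 * 6 + 4 * C1)) ≤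
      3 * ((27 * (1 + C2) + 21) + 9 * C3 ^ 2 + 3 * (361 * 9 + 4 * 6 + 4 * C1)) * L := by
    have e1 : 0 ≤ (C2 * 27 + 21 + 9 * C3 ^ 2 + 3 * (361 * 9 + 4 * 6 + 4 * C1)) * (L - 1) := by
      apply mul_nonneg _ (by linarith)
      positivity
    nlinarith
  have h11 := mul_le_mul_of_nonneg_right h10 hT2
  linarith

end Pool.Agent.H514.IS
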