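import Pool.Agent.H514.IS.Tu4

/-! The normal order. -/

set_option autoImplicit false

open scoped Classical

namespace Pool.Agent.H514.IS

open Finset Filter Pool.Agent.W307.RT Pool.Agent.W262.SH Pool.Agent.H514

lemma root_ex {H : ℕ} {c : ℤ × ℤ} (hc : c ∈ Cv 2 H) : ∃ e : ℤ, e ^ 3 + c.1 * e + c.2 = 0 := by
  simp only [Cv, Finset.mem_filter] at hc
  obtain ⟨-, hDc, hH1, -, -, hTc⟩ := hc
  obtain ⟨ab, e1, e2, -, -, -, -, hA, hB⟩ := core2 (A := c.1) (B := c.2) hDc hTc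
  refine ⟨e1, ?_⟩
  have hA' : c.1 = -(e1 ^ 2 + e1 * e2 + e2 ^ 2) := hA
  have hB' : c.2 = e1 * e2 * (e1 + e2) := hB
  rw [hA', hB']
  ring

/-- the bad curves -/
def Bad (ε : ℝ) (H : ℕ) (c : ℤ × ℤ) (e : ℤ) : Prop :=
  e ^ 3 + c.1 * e + c.2 = 0 ∧
    ¬ ((2 : ℝ) ^ ((3 / 2 - ε) * Real.log (Real.log H)) ≤ Nat.card (Sha2 (Quo c.1 e)) ∧
      (Nat.card (Sha2 (Quo c.1 e)) : ℝ) ≤ 2 ^ ((3 / 2 + ε) * Real.log (Real.log H)))

lemma bad_lg {ε : ℝ} {H : ℕ} {c : ℤ × ℤ} (hc : c ∈ Cv 2 H) {e : ℤ} (h : Bad ε H c e) :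
    ε * Real.log (Real.log H) < |lg (Quo c.1 e) - 3 / 2 * Real.log (Real.log H)| := by
  obtain ⟨he, h2⟩ := h
  have hfin := quo_fin hc he
  have hN1 : 1 ≤ Nat.card (Sha2 (Quo c.1 e)) := by
    have : Nonempty (Sha2 (Quo c.1 e)) := ⟨⟨0, add_zero _⟩⟩
    exact Nat.card_pos
  have hNr : (0 : ℝ) < Nat.card (Sha2 (Quo c.1 e)) := by exact_mod_cast hN1
  by_contra h3
  rw [not_lt, abs_le] at h3
  apply h2
  unfold lg at h3
  constructor
  · rw [← Real.le_logb_iff_rpow_le (by norm_num) hNr]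
    linarith [h3.1]
  · rw [← Real.logb_le_iff_le_rpow (by norm_num) hNr]
    linarith [h3.2]

theorem normal_order {ε : ℝ} (hε : 0 < ε) :
    Tendsto (fun H : ℕ => ((((Cv 2 H).filter (fun c : ℤ × ℤ => ∃ e, Bad ε H c e)).card : ℕ) : ℝ) /
      (Cv 2 H).card) atTop (nhds 0) := by
  obtain ⟨C, H0, hC⟩ := fin_turan
  set f : ℕ → ℝ := fun H => (max C 0) / ε ^ 2 / Real.log (Real.log H) with hf
  have hlim : Tendsto f atTop (nhds 0) := tend_ll.const_div_atTop _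
  obtain ⟨T1, hT1⟩ := (tendsto_atTop.1 tend_ll 1).exists_forall_of_atTop
  refine squeeze_zero' (Eventually.of_forall fun H => by positivity) ?_ hlim
  filter_upwards [eventually_ge_atTop (max H0 T1)] with H hH
  have hH0 : H0 ≤ H := (le_max_left _ _).trans hH
  have hL : 1 ≤ Real.log (Real.log H) := hT1 H ((le_max_right _ _).trans hH)
  set L := Real.log (Real.log H) with hLd
  have hr : ∀ c ∈ Cv 2 H, ∃ e : ℤ, e ^ 3 + c.1 * e + c.2 = 0 ∧
      ((∃ e', Bad ε H c e') → Bad ε H c e) := by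
    intro c hc
    by_cases h : ∃ e', Bad ε H c e'
    · obtain ⟨e, he⟩ := h
      exact ⟨e, he.1, fun _ => he⟩
    · obtain ⟨e, he⟩ := root_ex hc
      exact ⟨e, he, fun h' => absurd h' h⟩
  choose! r hr1 hr2 using hr
  have h1 := hC H hH0 r hr1
  have h2 : ((((Cv 2 H).filter (fun c : ℤ × ℤ => ∃ e, Bad ε H c e)).card : ℕ) : ℝ) *
      (ε * L) ^ 2 ≤ (max C 0) * L * (Cv 2 H).card := by
    calc ((((Cv 2 H).filter (fun c : ℤ × ℤ => ∃ e, Bad ε H c e)).card : ℕ) : ℝ) * (ε * L) ^ 2 =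
        ∑ c ∈ (Cv 2 H).filter (fun c : ℤ × ℤ => ∃ e, Bad ε H c e), (ε * L) ^ 2 := by
          rw [sum_const, nsmul_eq_mul]
      _ ≤ ∑ c ∈ (Cv 2 H).filter (fun c : ℤ × ℤ => ∃ e, Bad ε H c e),
          (lg (Quo c.1 (r c)) - 3 / 2 * L) ^ 2 := by
        apply sum_le_sum
        intro c hc
        rw [mem_filter] at hc
        have h3 := bad_lg hc.1 (hr2 c hc.1 hc.2)
        rw [← sq_abs (lg _ - _)]
        exact pow_le_pow_left₀ (by positivity) h3.le 2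
      _ ≤ ∑ c ∈ Cv 2 H, (lg (Quo c.1 (r c)) - 3 / 2 * L) ^ 2 :=
        sum_le_sum_of_subset_of_nonneg (filter_subset _ _) fun _ _ _ => sq_nonneg _
      _ ≤ C * L * (Cv 2 H).card := h1
      _ ≤ _ := by
        apply mul_le_mul_of_nonneg_right _ (Nat.cast_nonneg _)
        exact mul_le_mul_of_nonneg_right (le_max_left _ _) (by linarith)
  rcases Nat.eq_zero_or_pos (Cv 2 H).card with h0 | h0
  · rw [h0, Nat.cast_zero, div_zero]
    positivity
  have h0r : (0 : ℝ) < (Cv 2 H).card := by exact_mod_cast h0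
  rw [div_le_iff₀ h0r, hf]
  simp only
  rw [div_div, div_mul_eq_mul_div, le_div_iff₀ (by positivity)]
  have hL0 : 0 < L := by linarith
  have h3 : ((((Cv 2 H).filter (fun c : ℤ × ℤ => ∃ e, Bad ε H c e)).card : ℕ) : ℝ) *
      (ε * L) ^ 2 = (((((Cv 2 H).filter (fun c : ℤ × ℤ => ∃ e, Bad ε H c e)).card : ℕ) : ℝ) *
      (ε ^ 2 * L)) * L := by ring
  rw [h3] at h2
  have h4 : (max C 0) * L * (Cv 2 H).card = ((max C 0) * (Cv 2 H).card) * L := by ring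
  rw [h4] at h2
  exact le_of_mul_le_mul_right h2 hL0

end Pool.Agent.H514.IS
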