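import Pool.Agent.H514.IS.LocI

/-! Local points for the classes `(1, m)` of `y² = x (x - A) (x - B)`. -/

set_option autoImplicit false

open scoped Classical

namespace Pool.Agent.H514.IS

open Finset WeierstrassCurve Pool.Agent.W262.SH Pool.Agent.W338.SH

section near

variable {p : ℕ} [hp : Fact p.Prime]

/-- squares are stable under small changes -/
lemma sq_near (hp2 : p ≠ 2) {u t c : ℚ_[p]} (h : ‖t‖ < ‖u‖) (hs : IsSquare (u * c)) :
    IsSquare ((u + t) * c) := by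
  have hu : u ≠ 0 := by
    rintro rfl
    rw [norm_zero] at h
    exact absurd h (not_lt.2 (norm_nonneg _))
  obtain ⟨r, hr⟩ := Pool.Agent.W22.RK.isSquare_one_add hp2 (t / u) (by
    rw [norm_div, div_lt_one (norm_pos_iff.2 hu)]
    exact h)
  obtain ⟨s, hs⟩ := hs
  refine ⟨s * r, ?_⟩
  have h1 : (u + t) * c = (u * c) * (1 + t / u) := by
    field_simp
  rw [h1, hs, hr]
  ring

lemma ne_near {u t : ℚ_[p]} (h : ‖t‖ < ‖u‖) : u + t ≠ 0 := by
  intro h1
  have : u = -t := by linear_combination h1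
  rw [this, norm_neg] at h
  exact lt_irrefl _ h

/-- from a `p`-adic point to a rational point -/
lemma locsol_padic (hp2 : p ≠ 2) {A B m : ℤ} {x0 : ℚ_[p]} (h0 : x0 ≠ 0) (hA : x0 ≠ A)
    (hB : x0 ≠ B) (s0 : IsSquare x0) (sA : IsSquare ((x0 - A) * m)) (sB : IsSquare ((x0 - B) * m)) :
    LocSol p A B 1 m := by
  have hA' : x0 - A ≠ 0 := sub_ne_zero.2 hA
  have hB' : x0 - B ≠ 0 := sub_ne_zero.2 hB
  obtain ⟨r, hr⟩ := Padic.rat_dense p x0 (ε := min ‖x0‖ (min ‖x0 - A‖ ‖x0 - B‖))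
    (lt_min (norm_pos_iff.2 h0) (lt_min (norm_pos_iff.2 hA') (norm_pos_iff.2 hB')))
  rw [lt_min_iff, lt_min_iff, norm_sub_rev] at hr
  obtain ⟨h1, h2, h3⟩ := hr
  have e0 : (r : ℚ_[p]) = x0 + ((r : ℚ_[p]) - x0) := by ring
  have eA : (r : ℚ_[p]) - A = (x0 - A) + ((r : ℚ_[p]) - x0) := by ring
  have eB : (r : ℚ_[p]) - B = (x0 - B) + ((r : ℚ_[p]) - x0) := by ring
  refine ⟨r, ?_, ?_, ?_, ?_, ?_, ?_⟩
  · rintro rfl
    apply ne_near h1
    rw [← e0, Rat.cast_zero]
  · rintro rfl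
    apply ne_near h2
    rw [← eA, Rat.cast_intCast, sub_self]
  · rintro rfl
    apply ne_near h3
    rw [← eB, Rat.cast_intCast, sub_self]
  · have := sq_near hp2 (c := 1) h1 (by rwa [mul_one])
    rw [← e0] at this
    push_cast
    exact this
  · have := sq_near hp2 h2 sA
    rw [← eA] at this
    push_cast
    exact this
  · have := sq_near hp2 h3 sB
    rw [← eB] at this
    push_cast
    rwa [one_mul]

/-- small squares -/
lemma small_sq {ε : ℝ} (hε : 0 < ε) : ∃ s : ℚ_[p], s ≠ 0 ∧ ‖s * s‖ < ε := by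
  have hp1 : (1 : ℝ) < p := by exact_mod_cast hp.out.one_lt
  have hlt : ((p : ℝ)⁻¹) < 1 := inv_lt_one_of_one_lt₀ hp1
  obtain ⟨n, hn⟩ := exists_pow_lt_of_lt_one hε hlt
  refine ⟨(p : ℚ_[p]) ^ n, pow_ne_zero _ (by exact_mod_cast hp.out.ne_zero), ?_⟩
  rw [norm_mul, norm_pow, Padic.norm_p]
  have h0 : (0 : ℝ) ≤ ((p : ℝ)⁻¹) ^ n := by positivity
  have h1 : ((p : ℝ)⁻¹) ^ n ≤ 1 := pow_le_one₀ (by positivity) hlt.le
  nlinarith

/-- near the origin -/
lemma loc_zero (hp2 : p ≠ 2) {A B m : ℤ} (hA : A ≠ 0) (hB : B ≠ 0)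
    (sA : IsSquare ((-A : ℚ_[p]) * m)) (sB : IsSquare ((-B : ℚ_[p]) * m)) : LocSol p A B 1 m := by
  have hA' : (-A : ℚ_[p]) ≠ 0 := neg_ne_zero.2 (by exact_mod_cast hA)
  have hB' : (-B : ℚ_[p]) ≠ 0 := neg_ne_zero.2 (by exact_mod_cast hB)
  obtain ⟨s, hs0, hs⟩ := small_sq (p := p) (lt_min (norm_pos_iff.2 hA') (norm_pos_iff.2 hB'))
  rw [lt_min_iff] at hs
  have eA : s * s - A = (-A : ℚ_[p]) + s * s := by ring
  have eB : s * s - B = (-B : ℚ_[p]) + s * s := by ring
  refine locsol_padic hp2 (mul_ne_zero hs0 hs0) ?_ ?_ ⟨s, rfl⟩ ?_ ?_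
  · rw [← sub_ne_zero, eA]
    exact ne_near hs.1
  · rw [← sub_ne_zero, eB]
    exact ne_near hs.2
  · rw [eA]
    exact sq_near hp2 hs.1 sA
  · rw [eB]
    exact sq_near hp2 hs.2 sB

lemma LocSol_symm {A B m : ℤ} (h : LocSol p A B 1 m) : LocSol p B A 1 m := by
  obtain ⟨x, h0, hA, hB, s0, sA, sB⟩ := h
  refine ⟨x, h0, hB, hA, s0, ?_, ?_⟩
  · push_cast at sB ⊢
    rwa [one_mul] at sB
  · push_cast at sA ⊢
    rwa [one_mul]

/-- near the point `(A, 0)` -/
lemma loc_A (hp2 : p ≠ 2) {A B m : ℤ} (hA : A ≠ 0) (hAB : A ≠ B) (hm : m ≠ 0)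
    (sA : IsSquare (A : ℚ_[p])) (sB : IsSquare ((A - B : ℚ_[p]) * m)) : LocSol p A B 1 m := by
  have hA' : (A : ℚ_[p]) ≠ 0 := by exact_mod_cast hA
  have hB' : (A - B : ℚ_[p]) ≠ 0 := sub_ne_zero.2 (by exact_mod_cast hAB)
  have hm' : (m : ℚ_[p]) ≠ 0 := by exact_mod_cast hm
  obtain ⟨s, hs0, hs⟩ := small_sq (p := p) (lt_min (norm_pos_iff.2 hA') (norm_pos_iff.2 hB'))
  rw [lt_min_iff] at hs
  have hms : ‖(m : ℚ_[p]) * (s * s)‖ ≤ ‖s * s‖ := by
    rw [norm_mul]
    exact mul_le_of_le_one_left (norm_nonneg _) (Padic.norm_int_le_one m)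
  have eB : (A : ℚ_[p]) + m * (s * s) - B = (A - B : ℚ_[p]) + m * (s * s) := by ring
  refine locsol_padic hp2 (x0 := A + m * (s * s)) (ne_near (hms.trans_lt hs.1)) ?_ ?_ ?_ ?_ ?_
  · intro h
    have : (m : ℚ_[p]) * (s * s) = 0 := by linear_combination h
    exact mul_ne_zero hm' (mul_ne_zero hs0 hs0) this
  · rw [← sub_ne_zero, eB]
    exact ne_near (hms.trans_lt hs.2)
  · have := sq_near hp2 (c := 1) (hms.trans_lt hs.1) (by rwa [mul_one])
    rwa [mul_one] at this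
  · exact ⟨m * s, by ring⟩
  · rw [eB]
    exact sq_near hp2 (hms.trans_lt hs.2) sB

/-- square classes -/
lemma loc_sq1 (hp2 : p ≠ 2) {A B m : ℤ} (hs : IsSquare (m : ℚ_[p])) :
    LocSol p A B 1 m := by
  have hp0 : (p : ℚ_[p]) ≠ 0 := by exact_mod_cast hp.out.ne_zero
  have hp1 : (1 : ℝ) < p := by exact_mod_cast hp.out.one_lt
  have hx : (1 : ℝ) < ‖((p : ℚ_[p])⁻¹ * (p : ℚ_[p])⁻¹)‖ := by
    rw [norm_mul, norm_inv, Padic.norm_p, inv_inv]
    nlinarith
  have key : ∀ n : ℤ, ‖(-n : ℚ_[p])‖ < ‖((p : ℚ_[p])⁻¹ * (p : ℚ_[p])⁻¹)‖ := fun n => by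
    rw [norm_neg]
    exact (Padic.norm_int_le_one n).trans_lt hx
  have hs' : IsSquare (((p : ℚ_[p])⁻¹ * (p : ℚ_[p])⁻¹) * m) := IsSquare.mul ⟨_, rfl⟩ hs
  refine locsol_padic hp2 (x0 := (p : ℚ_[p])⁻¹ * (p : ℚ_[p])⁻¹)
    (mul_ne_zero (inv_ne_zero hp0) (inv_ne_zero hp0)) ?_ ?_ ⟨_, rfl⟩ ?_ ?_
  · rw [← sub_ne_zero, sub_eq_add_neg]
    exact ne_near (key A)
  · rw [← sub_ne_zero, sub_eq_add_neg]
    exact ne_near (key B)
  · rw [sub_eq_add_neg]
    exact sq_near hp2 (key A) hs'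
  · rw [sub_eq_add_neg]
    exact sq_near hp2 (key B) hs'

/-- an integer point with the right residue symbols -/
lemma loc_int (hp2 : p ≠ 2) {A B m x : ℤ} (s0 : legendreSym p x = 1)
    (sA : legendreSym p ((x - A) * m) = 1) (sB : legendreSym p ((x - B) * m) = 1) :
    LocSol p A B 1 m := by
  have hne : ∀ n : ℤ, legendreSym p n = 1 → n ≠ 0 := by
    rintro n h rfl
    rw [legendreSym.at_zero] at h
    exact zero_ne_one h
  have h0 := hne _ s0
  have hA := left_ne_zero_of_mul (hne _ sA)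
  have hB := left_ne_zero_of_mul (hne _ sB)
  refine ⟨x, by exact_mod_cast h0, by exact_mod_cast sub_ne_zero.1 hA,
    by exact_mod_cast sub_ne_zero.1 hB, ?_, ?_, ?_⟩
  · have := sq_of_leg hp2 s0
    push_cast
    rwa [mul_one]
  · have := sq_of_leg hp2 sA
    push_cast at this ⊢
    exact this
  · have := sq_of_leg hp2 sB
    push_cast at this ⊢
    rwa [one_mul]

end near

/-! ### Residues -/

section res

variable {p : ℕ} [hp : Fact p.Prime]


lemma sum_one : ∑ _x : ZMod p, (1 : ℤ) = p := by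
  rw [Finset.sum_const, Finset.card_univ, ZMod.card, nsmul_eq_mul, mul_one]

lemma sum_shift (A : ZMod p) (hp2 : p ≠ 2) : ∑ x : ZMod p, (quadraticChar (ZMod p)) (x - A) = 0 := by
  rw [← quadraticChar_sum_zero (F := ZMod p) (rc2 hp2)]
  exact Fintype.sum_equiv (Equiv.subRight A) _ _ fun x => rfl

lemma chi_cases (x : ZMod p) : (quadraticChar (ZMod p)) x = 0 ∧ x = 0 ∨ (quadraticChar (ZMod p)) x = 1 ∧ x ≠ 0 ∨ (quadraticChar (ZMod p)) x = -1 ∧ x ≠ 0 := by
  by_cases hx : x = 0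
  · left
    exact ⟨by rw [hx, MulChar.map_zero], hx⟩
  · rcases quadraticChar_dichotomy hx with h | h
    · exact Or.inr (Or.inl ⟨h, hx⟩)
    · exact Or.inr (Or.inr ⟨h, hx⟩)

/-- multiplicative reduction at `x = A` -/
lemma ex_node (hp2 : p ≠ 2) {A : ZMod p} (hA : A ≠ 0) (h0 : (quadraticChar (ZMod p)) (-A) = 1) :
    ∃ x : ZMod p, (quadraticChar (ZMod p)) x = 1 ∧ (quadraticChar (ZMod p)) (x - A) = -1 := by
  by_contra hno
  push Not at hno
  have e1 := quadraticChar_sum_zero (F := ZMod p) (rc2 hp2)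
  have e2 := sum_shift A hp2
  have e3 : ∑ x : ZMod p, (quadraticChar (ZMod p)) x * (quadraticChar (ZMod p)) (x - A) = -1 := by
    rw [← sum_quad hp2 (A := 0) (B := A) hA.symm]
    refine Finset.sum_congr rfl fun x _ => ?_
    rw [sub_zero, map_mul]
  have h2 : ∑ x : ZMod p, (1 + (quadraticChar (ZMod p)) x) * (1 - (quadraticChar (ZMod p)) (x - A)) = (p : ℤ) + 1 := by
    have h4 : (p : ℤ) + 1 = ∑ _x : ZMod p, (1 : ℤ) + ∑ x : ZMod p, (quadraticChar (ZMod p)) x - ∑ x : ZMod p, (quadraticChar (ZMod p)) (x - A) -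
        ∑ x : ZMod p, (quadraticChar (ZMod p)) x * (quadraticChar (ZMod p)) (x - A) := by
      rw [e1, e2, e3, sum_one]
      ring
    rw [h4, ← Finset.sum_add_distrib, ← Finset.sum_sub_distrib, ← Finset.sum_sub_distrib]
    refine Finset.sum_congr rfl fun x _ => ?_
    ring
  have h1 : ∑ x : ZMod p, (1 + (quadraticChar (ZMod p)) x) * (1 - (quadraticChar (ZMod p)) (x - A)) ≤ 2 := by
    have h3 : ∀ x ∈ Finset.univ, x ∉ ({A} : Finset (ZMod p)) →
        (1 + (quadraticChar (ZMod p)) x) * (1 - (quadraticChar (ZMod p)) (x - A)) = 0 := by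
      intro x _ hx
      rw [Finset.mem_singleton] at hx
      rcases chi_cases x with ⟨h, h'⟩ | ⟨h, h'⟩ | ⟨h, h'⟩
      · rw [h', zero_sub, h0]
        ring
      · rw [h]
        have h4 := hno x h
        rcases quadraticChar_dichotomy (sub_ne_zero.2 hx) with h5 | h5
        · rw [h5]
          ring
        · exact absurd h5 h4
      · rw [h]
        ring
    rw [← Finset.sum_subset (Finset.subset_univ _) h3, Finset.sum_singleton, sub_self,
      MulChar.map_zero]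
    have h5 := chi_le (p := p) A
    linarith
  rw [h2] at h1
  have h6 := hp.out.two_le
  have : (p : ℤ) ≤ 1 := by linarith
  omega

/-- good reduction -/
lemma ex_good2 (hp2 : p ≠ 2) {A B : ZMod p} (hA : A ≠ 0) (hB : B ≠ 0) (hAB : A ≠ B)
    (h0 : ¬ ((quadraticChar (ZMod p)) (-A) = -1 ∧ (quadraticChar (ZMod p)) (-B) = -1)) (h1 : ¬ ((quadraticChar (ZMod p)) A = 1 ∧ (quadraticChar (ZMod p)) (A - B) = -1))
    (h2 : ¬ ((quadraticChar (ZMod p)) B = 1 ∧ (quadraticChar (ZMod p)) (B - A) = -1)) :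
    ∃ x : ZMod p, (quadraticChar (ZMod p)) x = 1 ∧ (quadraticChar (ZMod p)) (x - A) = -1 ∧ (quadraticChar (ZMod p)) (x - B) = -1 := by
  by_contra hno
  push Not at hno
  have e1 := quadraticChar_sum_zero (F := ZMod p) (rc2 hp2)
  have e2 := sum_shift A hp2
  have e3 := sum_shift B hp2
  have e4 : ∑ x : ZMod p, (quadraticChar (ZMod p)) x * (quadraticChar (ZMod p)) (x - A) = -1 := by
    rw [← sum_quad hp2 (A := 0) (B := A) hA.symm]
    refine Finset.sum_congr rfl fun x _ => ?_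
    rw [sub_zero, map_mul]
  have e5 : ∑ x : ZMod p, (quadraticChar (ZMod p)) x * (quadraticChar (ZMod p)) (x - B) = -1 := by
    rw [← sum_quad hp2 (A := 0) (B := B) hB.symm]
    refine Finset.sum_congr rfl fun x _ => ?_
    rw [sub_zero, map_mul]
  have e6 : ∑ x : ZMod p, (quadraticChar (ZMod p)) (x - A) * (quadraticChar (ZMod p)) (x - B) = -1 := by
    rw [← sum_quad hp2 hAB]
    refine Finset.sum_congr rfl fun x _ => ?_
    rw [map_mul]
  set S : ℤ := ∑ x : ZMod p, (quadraticChar (ZMod p)) x * (quadraticChar (ZMod p)) (x - A) * (quadraticChar (ZMod p)) (x - B) with hS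
  have hSge : -(p : ℤ) ≤ S := by
    have h4 : ∑ _x : ZMod p, (-1 : ℤ) = -(p : ℤ) := by
      rw [Finset.sum_const, Finset.card_univ, ZMod.card, nsmul_eq_mul, mul_neg, mul_one]
    rw [← h4, hS]
    refine Finset.sum_le_sum fun x _ => ?_
    rw [← map_mul, ← map_mul]
    exact chi_ge _
  have h3 : ∑ x : ZMod p, (1 + (quadraticChar (ZMod p)) x) * ((1 - (quadraticChar (ZMod p)) (x - A)) * (1 - (quadraticChar (ZMod p)) (x - B))) = (p : ℤ) + 1 + S := by
    have h4 : (p : ℤ) + 1 + S = ∑ _x : ZMod p, (1 : ℤ) + ∑ x : ZMod p, (quadraticChar (ZMod p)) x -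
        ∑ x : ZMod p, (quadraticChar (ZMod p)) (x - A) - ∑ x : ZMod p, (quadraticChar (ZMod p)) (x - B) -
        ∑ x : ZMod p, (quadraticChar (ZMod p)) x * (quadraticChar (ZMod p)) (x - A) - ∑ x : ZMod p, (quadraticChar (ZMod p)) x * (quadraticChar (ZMod p)) (x - B) +
        ∑ x : ZMod p, (quadraticChar (ZMod p)) (x - A) * (quadraticChar (ZMod p)) (x - B) + S := by
      rw [e1, e2, e3, e4, e5, e6, sum_one]
      ring
    rw [h4, hS, ← Finset.sum_add_distrib, ← Finset.sum_sub_distrib, ← Finset.sum_sub_distrib,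
      ← Finset.sum_sub_distrib, ← Finset.sum_sub_distrib, ← Finset.sum_add_distrib,
      ← Finset.sum_add_distrib]
    refine Finset.sum_congr rfl fun x _ => ?_
    ring
  have h4 : ∑ x : ZMod p, (1 + (quadraticChar (ZMod p)) x) * ((1 - (quadraticChar (ZMod p)) (x - A)) * (1 - (quadraticChar (ZMod p)) (x - B))) = 0 := by
    refine Finset.sum_eq_zero fun x _ => ?_
    rcases chi_cases x with ⟨h, h'⟩ | ⟨h, h'⟩ | ⟨h, h'⟩
    · rw [h', zero_sub, zero_sub]
      have hA' : (quadraticChar (ZMod p)) (-A) = 1 ∨ (quadraticChar (ZMod p)) (-A) = -1 := quadraticChar_dichotomy (neg_ne_zero.2 hA)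
      have hB' : (quadraticChar (ZMod p)) (-B) = 1 ∨ (quadraticChar (ZMod p)) (-B) = -1 := quadraticChar_dichotomy (neg_ne_zero.2 hB)
      rcases hA' with h5 | h5 <;> rcases hB' with h6 | h6
      · rw [h5]; ring
      · rw [h5]; ring
      · rw [h6]; ring
      · exact absurd ⟨h5, h6⟩ h0
    · rw [h]
      rcases chi_cases (x - A) with ⟨h5, h5'⟩ | ⟨h5, h5'⟩ | ⟨h5, h5'⟩
      · have h7 : x = A := sub_eq_zero.1 h5'
        rw [h7] at h
        have h8 : (quadraticChar (ZMod p)) (A - B) = 1 := by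
          rcases quadraticChar_dichotomy (sub_ne_zero.2 hAB) with h9 | h9
          · exact h9
          · exact absurd ⟨h, h9⟩ h1
        rw [h7, h8]
        ring
      · rw [h5]
        ring
      · rcases chi_cases (x - B) with ⟨h6, h6'⟩ | ⟨h6, h6'⟩ | ⟨h6, h6'⟩
        · have h7 : x = B := sub_eq_zero.1 h6'
          rw [h7] at h
          have h8 : (quadraticChar (ZMod p)) (B - A) = 1 := by
            rcases quadraticChar_dichotomy (sub_ne_zero.2 hAB.symm) with h9 | h9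
            · exact h9
            · exact absurd ⟨h, h9⟩ h2
          rw [h7, h8]
          ring
        · rw [h6]
          ring
        · exact absurd h6 (hno x h h5)
    · rw [h]
      ring
  rw [h4] at h3
  linarith

/-- the primes of the conditions -/
lemma ex_ram (hp5 : 5 ≤ p) {c m : ZMod p} (hm : m ≠ 0) (hk : (quadraticChar (ZMod p)) (c * m) = -1) :
    ∃ s : ZMod p, s ≠ 0 ∧ (quadraticChar (ZMod p)) ((m * s ^ 2 + c) * m) = 1 := by
  have hp2 : p ≠ 2 := by omega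
  have h2 : (2 : ZMod p) ≠ 0 := by
    intro h
    have h' : ((2 : ℕ) : ZMod p) = 0 := by exact_mod_cast h
    rw [ZMod.natCast_eq_zero_iff] at h'
    have := Nat.le_of_dvd (by norm_num) h'
    omega
  -- a unit `u` with `u ^ 2 ≠ - c m`
  obtain ⟨u, hu0, hu⟩ : ∃ u : ZMod p, u ≠ 0 ∧ u ^ 2 ≠ -(c * m) := by
    by_contra hno
    push Not at hno
    have a1 := hno 1 one_ne_zero
    have a2 := hno 2 h2
    rw [← a1] at a2
    have h3 : ((3 : ℕ) : ZMod p) = 0 := by
      push_cast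
      linear_combination a2
    rw [ZMod.natCast_eq_zero_iff] at h3
    have := Nat.le_of_dvd (by norm_num) h3
    omega
  have hu2 : u ^ 2 ≠ c * m := by
    intro h
    rw [← h, quadraticChar_sq_one' hu0] at hk
    norm_num at hk
  refine ⟨(c * m / u - u) / (2 * m), ?_, ?_⟩
  · refine div_ne_zero ?_ (mul_ne_zero h2 hm)
    intro h
    apply hu2
    have : c * m / u = u := sub_eq_zero.1 h
    rw [div_eq_iff hu0] at this
    rw [this]
    ring
  · have h3 : (m * ((c * m / u - u) / (2 * m)) ^ 2 + c) * m = ((u + c * m / u) / 2) ^ 2 := by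
      field_simp
      ring
    rw [h3]
    apply quadraticChar_sq_one'
    refine div_ne_zero ?_ h2
    intro h
    apply hu
    have : c * m / u = -u := by linear_combination h
    rw [div_eq_iff hu0] at this
    rw [this]
    ring

end res

end Pool.Agent.H514.IS
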