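import Pool.Agent.H514.IS.Up1

/-! The Selmer groups of the two isogenies: local conditions. -/

set_option autoImplicit false

open scoped Classical

namespace Pool.Agent.H514.IS

open Finset WeierstrassCurve Pool.Agent.W262.SH Pool.Agent.W338.SH

/-- `d` is modulo squares the value of `x` at a point over `K` of the curve
`y² = x³ + a x² + b x` -/
def LA (K : Type) [Field K] (a b d : K) : Prop :=
  IsSquare d ∨ IsSquare (b * d) ∨
    ∃ X Y : K, X ≠ 0 ∧ Y ^ 2 = X * (X ^ 2 + a * X + b) ∧ IsSquare (X * d)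

section loc

variable {p : ℕ} [hp : Fact p.Prime] {A B : ℤ}

lemma leg_sq {n : ℤ} (hn : ¬ (p : ℤ) ∣ n) (h : IsSquare (n : ℚ_[p])) : legendreSym p n = 1 := by
  obtain ⟨r, hr⟩ := h
  have hn0 : (n : ZMod p) ≠ 0 := fun h0 => hn ((ZMod.intCast_zmod_eq_zero_iff_dvd n p).1 h0)
  have hr1 : ‖r‖ ≤ 1 := by
    have h1 : ‖r‖ * ‖r‖ ≤ 1 := by
      rw [← norm_mul, ← hr]
      exact Padic.norm_int_le_one n
    nlinarith [norm_nonneg r]
  rw [legendreSym.eq_one_iff p hn0]
  let r' : ℤ_[p] := ⟨r, hr1⟩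
  have h2 : (n : ℤ_[p]) = r' * r' := by
    apply PadicInt.ext
    rw [PadicInt.coe_mul, PadicInt.coe_intCast]
    exact hr
  have h3 := congrArg (PadicInt.toZMod (p := p)) h2
  rw [map_intCast, map_mul] at h3
  exact ⟨_, h3⟩

lemma not_sq_norm {z : ℚ_[p]} (hz : ‖z‖ = (p : ℝ)⁻¹) : ¬ IsSquare z := by
  rintro ⟨r, hr⟩
  have hp1 : (1 : ℝ) < p := by exact_mod_cast hp.out.one_lt
  have hz0 : z ≠ 0 := by
    rintro rfl
    rw [norm_zero] at hz
    have : (0 : ℝ) < (p : ℝ)⁻¹ := by positivity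
    linarith
  have hr0 : r ≠ 0 := by
    rintro rfl
    rw [mul_zero] at hr
    exact hz0 hr
  rw [hr, norm_mul, Padic.norm_eq_zpow_neg_valuation hr0, ← zpow_add₀ (by linarith),
    ← zpow_neg_one] at hz
  have := zpow_right_injective₀ (by linarith) (by linarith) hz
  omega

lemma norm_unit {n : ℤ} (hn : ¬ (p : ℤ) ∣ n) : ‖(n : ℚ_[p])‖ = 1 :=
  le_antisymm (Padic.norm_int_le_one n) (not_lt.1 fun h => hn (Padic.norm_intCast_lt_one_iff.1 h))

lemma norm_sqf {d : ℤ} (hd : Squarefree d) (h : (p : ℤ) ∣ d) : ‖(d : ℚ_[p])‖ = (p : ℝ)⁻¹ := by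
  obtain ⟨e, rfl⟩ := h
  have he : ¬ (p : ℤ) ∣ e := by
    rintro ⟨f, rfl⟩
    have := hd (p : ℤ) ⟨f, by ring⟩
    exact (Nat.prime_iff_prime_int.1 hp.out).not_isUnit this
  push_cast
  rw [norm_mul, norm_unit he, Padic.norm_p, mul_one]

lemma four_norm (hp2 : p ≠ 2) : ‖(4 : ℚ_[p])‖ = 1 := by
  have h : ¬ (p : ℤ) ∣ 4 := by
    intro h
    have h1 : p ∣ 2 ^ 2 := by exact_mod_cast h
    exact hp2 ((Nat.prime_dvd_prime_iff_eq hp.out Nat.prime_two).1 (hp.out.dvd_of_dvd_pow h1))
  have := norm_unit h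
  exact_mod_cast this

lemma sq_cancel {u v : ℚ_[p]} (hv : v ≠ 0) (h : IsSquare (u * (v * v))) : IsSquare u := by
  obtain ⟨r, hr⟩ := h
  refine ⟨r / v, ?_⟩
  rw [div_mul_div_comm, ← hr]
  field_simp

/-- transfer of square classes -/
lemma sq_trans {u v w : ℚ_[p]} (hv : v ≠ 0) (h1 : IsSquare (u * v)) (h2 : IsSquare (v * w)) :
    IsSquare (u * w) := by
  apply sq_cancel hv
  have : u * w * (v * v) = (u * v) * (v * w) := by ring
  rw [this]
  exact h1.mul h2

/-- the condition on the abscissa -/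
lemma x_cases (hp2 : p ≠ 2) (hA : ¬ (p : ℤ) ∣ A) (hB : ¬ (p : ℤ) ∣ B) {X Y : ℚ_[p]}
    (h : Y ^ 2 = X * (X ^ 2 + (-4 * (A + B)) * X + 16 * (A * B))) :
    IsSquare X ∨ IsSquare (X * (A * B)) ∨ ‖X‖ = 1 := by
  have hA1 := norm_unit hA
  have hB1 := norm_unit hB
  have h4 := four_norm hp2
  have hA0 : (A : ℚ_[p]) ≠ 0 := norm_ne_zero_iff.1 (by rw [hA1]; exact one_ne_zero)
  have hB0 : (B : ℚ_[p]) ≠ 0 := norm_ne_zero_iff.1 (by rw [hB1]; exact one_ne_zero)
  have h40 : (4 : ℚ_[p]) ≠ 0 := by norm_num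
  have hAB1 : ‖(-4 * (A + B) : ℚ_[p])‖ ≤ 1 := by
    rw [norm_mul, norm_neg, h4, one_mul]
    have := Padic.norm_int_le_one (p := p) (A + B)
    push_cast at this
    exact this
  have hAB2 : ‖(16 * (A * B) : ℚ_[p])‖ = 1 := by
    have : (16 : ℚ_[p]) = 4 * 4 := by norm_num
    rw [this, norm_mul, norm_mul, norm_mul, h4, hA1, hB1]
    norm_num
  rcases lt_trichotomy ‖X‖ 1 with h1 | h1 | h1
  · right; left
    have h2 : IsSquare ((16 * (A * B) + (X ^ 2 + (-4 * (A + B)) * X)) * (16 * (A * B))) := by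
      refine sq_near hp2 ?_ ⟨_, rfl⟩
      rw [hAB2]
      have h3 : X ^ 2 + (-4 * (A + B)) * X = X * (X + -4 * (A + B)) := by ring
      rw [h3, norm_mul]
      have h5 : ‖X + -4 * (A + B)‖ ≤ 1 := (Padic.nonarchimedean _ _).trans (max_le h1.le hAB1)
      have := norm_nonneg X
      nlinarith [norm_nonneg (X + -4 * (A + B))]
    have h5 : IsSquare (X * (16 * (A * B) + (X ^ 2 + (-4 * (A + B)) * X))) := by
      refine ⟨Y, ?_⟩
      rw [← pow_two, h]
      ring
    have h6 : (16 * (A * B) + (X ^ 2 + (-4 * (A + B)) * X) : ℚ_[p]) ≠ 0 := by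
      apply ne_near
      rw [hAB2]
      have h3 : X ^ 2 + (-4 * (A + B)) * X = X * (X + -4 * (A + B)) := by ring
      rw [h3, norm_mul]
      have h5 : ‖X + -4 * (A + B)‖ ≤ 1 := (Padic.nonarchimedean _ _).trans (max_le h1.le hAB1)
      nlinarith [norm_nonneg (X + -4 * (A + B)), norm_nonneg X]
    have h7 := sq_trans h6 h5 h2
    have h8 : X * (16 * (A * B)) = X * (A * B) * (4 * 4) := by ring
    rw [h8] at h7
    exact sq_cancel h40 h7
  · exact Or.inr (Or.inr h1)
  · left
    have h2 : IsSquare ((X ^ 2 + ((-4 * (A + B)) * X + 16 * (A * B))) * 1) := by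
      refine sq_near hp2 ?_ ⟨X, by ring⟩
      refine (Padic.nonarchimedean _ _).trans_lt (max_lt ?_ ?_)
      · rw [norm_mul, norm_pow]
        nlinarith [norm_nonneg (-4 * (A + B) : ℚ_[p])]
      · rw [hAB2, norm_pow]
        nlinarith
    have h6 : (X ^ 2 + ((-4 * (A + B)) * X + 16 * (A * B)) : ℚ_[p]) ≠ 0 := by
      apply ne_near
      refine (Padic.nonarchimedean _ _).trans_lt (max_lt ?_ ?_)
      · rw [norm_mul, norm_pow]
        nlinarith [norm_nonneg (-4 * (A + B) : ℚ_[p])]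
      · rw [hAB2, norm_pow]
        nlinarith
    have h5 : IsSquare (X * (X ^ 2 + ((-4 * (A + B)) * X + 16 * (A * B)))) := by
      refine ⟨Y, ?_⟩
      rw [← pow_two, h]
      ring
    have := sq_trans h6 h5 h2
    rwa [mul_one] at this

/-- the classes are unramified outside `2 A B` -/
lemma selA_unr (hp2 : p ≠ 2) (hA : ¬ (p : ℤ) ∣ A) (hB : ¬ (p : ℤ) ∣ B) {d : ℤ}
    (hd : Squarefree d) (h : LA ℚ_[p] (-4 * (A + B)) (16 * (A * B)) d) : ¬ (p : ℤ) ∣ d := by
  intro hpd
  have hd1 := norm_sqf hd hpd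
  have hA1 := norm_unit hA
  have hB1 := norm_unit hB
  have h4 := four_norm hp2
  have h16 : ‖(16 : ℚ_[p])‖ = 1 := by
    have : (16 : ℚ_[p]) = 4 * 4 := by norm_num
    rw [this, norm_mul, h4, mul_one]
  rcases h with h | h | ⟨X, Y, hX, hY, hs⟩
  · exact not_sq_norm hd1 h
  · refine not_sq_norm ?_ h
    rw [norm_mul, norm_mul, norm_mul, h16, hA1, hB1, hd1]
    ring
  · rcases x_cases hp2 hA hB hY with h1 | h1 | h1
    · have h2 : IsSquare ((d : ℚ_[p]) * 1) := by
        refine sq_trans hX ?_ ?_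
        · rwa [mul_comm]
        · rwa [mul_one]
      rw [mul_one] at h2
      exact not_sq_norm hd1 h2
    · have h2 : IsSquare ((d : ℚ_[p]) * (A * B)) := by
        refine sq_trans hX ?_ h1
        rwa [mul_comm]
      refine not_sq_norm ?_ h2
      rw [norm_mul, norm_mul, hA1, hB1, hd1]
      ring
    · refine not_sq_norm ?_ hs
      rw [norm_mul, h1, hd1, one_mul]

/-- the classes are trivial at the split nodes -/
lemma selA_node (hp2 : p ≠ 2) (hA : ¬ (p : ℤ) ∣ A) (hB : ¬ (p : ℤ) ∣ B)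
    (hAB : (p : ℤ) ∣ A - B) (hl : legendreSym p A = 1) {d : ℤ}
    (hd : Squarefree d) (h : LA ℚ_[p] (-4 * (A + B)) (16 * (A * B)) d) : legendreSym p d = 1 := by
  have hpd := selA_unr hp2 hA hB hd h
  refine leg_sq hpd ?_
  have hA1 := norm_unit hA
  have hB1 := norm_unit hB
  have h4 := four_norm hp2
  have hA0 : (A : ℚ_[p]) ≠ 0 := norm_ne_zero_iff.1 (by rw [hA1]; exact one_ne_zero)
  have hB0 : (B : ℚ_[p]) ≠ 0 := norm_ne_zero_iff.1 (by rw [hB1]; exact one_ne_zero)
  have h40 : (4 : ℚ_[p]) ≠ 0 := by norm_num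
  have hsA : IsSquare (A : ℚ_[p]) := sq_of_leg hp2 hl
  have hC : ‖((A : ℚ_[p]) - B)‖ < 1 := by
    have := (Padic.norm_intCast_lt_one_iff (p := p) (k := A - B)).2 hAB
    push_cast at this
    exact this
  have hsB : IsSquare (B : ℚ_[p]) := by
    have h1 := sq_near hp2 (u := (A : ℚ_[p])) (t := (B : ℚ_[p]) - A) (c := 1) (by
      rw [hA1, norm_sub_rev]
      exact hC) (by rwa [mul_one])
    rw [mul_one, add_sub_cancel] at h1
    exact h1
  have hsAB : IsSquare ((A : ℚ_[p]) * B) := hsA.mul hsB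
  rcases h with h | h | ⟨X, Y, hX, hY, hs⟩
  · exact h
  · have h1 : (16 * (A * B) * d : ℚ_[p]) = ((d : ℚ_[p]) * (A * B)) * (4 * 4) := by ring
    rw [h1] at h
    have h2 := sq_cancel h40 h
    have h3 := sq_trans (mul_ne_zero hA0 hB0) h2 (w := 1) (by rwa [mul_one])
    rwa [mul_one] at h3
  · have hXs : IsSquare X := by
      rcases x_cases hp2 hA hB hY with h1 | h1 | h1
      · exact h1
      · have h3 := sq_trans (mul_ne_zero hA0 hB0) h1 (w := 1) (by rwa [mul_one])
        rwa [mul_one] at h3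
      · -- `X` is a unit
        have h4A : ‖(4 * A : ℚ_[p])‖ = 1 := by rw [norm_mul, h4, hA1, one_mul]
        rcases lt_or_eq_of_le (show ‖X - 4 * A‖ ≤ 1 by
          rw [sub_eq_add_neg]
          refine (Padic.nonarchimedean X (-(4 * A))).trans (max_le h1.le ?_)
          rw [norm_neg, h4A]) with h5 | h5
        · have h6 := sq_near hp2 (u := (4 * A : ℚ_[p])) (t := X - 4 * A) (c := 1) (by
            rw [h4A]
            exact h5) (by
              rw [mul_one]
              exact IsSquare.mul ⟨2, by norm_num⟩ hsA)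
          rwa [mul_one, add_sub_cancel] at h6
        · have h6 : IsSquare (((X - 4 * A) + 4 * (A - B)) * (X - 4 * A)) := by
            refine sq_near hp2 ?_ ⟨_, rfl⟩
            rw [h5, norm_mul, h4, one_mul]
            exact hC
          have h7 : ((X - 4 * A) + 4 * (A - B)) ≠ 0 := by
            apply ne_near
            rw [h5, norm_mul, h4, one_mul]
            exact hC
          have h8 : X - 4 * A ≠ 0 := norm_ne_zero_iff.1 (by rw [h5]; exact one_ne_zero)
          have h9 : IsSquare (X * (((X - 4 * A) + 4 * (A - B)) * (X - 4 * A))) := by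
            refine ⟨Y, ?_⟩
            rw [← pow_two, hY]
            ring
          have h10 := sq_trans (mul_ne_zero h7 h8) h9 (w := 1) (by rwa [mul_one])
          rwa [mul_one] at h10
    have h3 := sq_trans hX (u := (d : ℚ_[p])) (w := 1) (by rwa [mul_comm]) (by rwa [mul_one])
    rwa [mul_one] at h3

/-- the classes of the other isogeny -/
lemma selB_loc (hp2 : p ≠ 2) (hA : A ≠ 0) (hB : B ≠ 0) (hAB : A ≠ B) {d : ℤ} (hd : d ≠ 0)
    (h : LA ℚ_[p] (2 * (A + B)) ((A - B) ^ 2) d) : LocSol p A B 1 d := by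
  have hC0 : ((A : ℚ_[p]) - B) ≠ 0 := sub_ne_zero.2 (by exact_mod_cast hAB)
  rcases h with h | h | ⟨X, Y, hX, hY, hs⟩
  · exact loc_sq1 hp2 h
  · apply loc_sq1 hp2
    apply sq_cancel hC0
    have : (d : ℚ_[p]) * ((A - B) * (A - B)) = (A - B) ^ 2 * d := by ring
    rwa [this]
  · have h2 : (2 : ℚ_[p]) ≠ 0 := two_ne_zero
    have hx0 : (Y / (2 * X)) ^ 2 = (X ^ 2 + (2 * (A + B)) * X + (A - B) ^ 2) / (4 * X) := by
      rw [div_pow, hY]
      field_simp
      ring
    have hxA : (Y / (2 * X)) ^ 2 - A = (X - (A - B)) ^ 2 / (4 * X) := by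
      rw [hx0]
      field_simp
      ring
    have hxB : (Y / (2 * X)) ^ 2 - B = (X + (A - B)) ^ 2 / (4 * X) := by
      rw [hx0]
      field_simp
      ring
    have sA : IsSquare (((Y / (2 * X)) ^ 2 - A) * d) := by
      rw [hxA]
      have : (X - (A - B)) ^ 2 / (4 * X) * d =
          (X * d) * (((X - (A - B)) / (2 * X)) * ((X - (A - B)) / (2 * X))) := by
        field_simp
        ring
      rw [this]
      exact hs.mul ⟨_, rfl⟩
    have sB : IsSquare (((Y / (2 * X)) ^ 2 - B) * d) := by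
      rw [hxB]
      have : (X + (A - B)) ^ 2 / (4 * X) * d =
          (X * d) * (((X + (A - B)) / (2 * X)) * ((X + (A - B)) / (2 * X))) := by
        field_simp
        ring
      rw [this]
      exact hs.mul ⟨_, rfl⟩
    by_cases hY0 : Y = 0
    · rw [hY0, zero_div, zero_pow two_ne_zero, zero_sub] at sA sB
      exact loc_zero hp2 hA hB sA sB
    by_cases hXA : X = A - B
    · have e1 : (A : ℚ_[p]) = (Y / (2 * X)) ^ 2 := by
        rw [hXA, sub_self, zero_pow two_ne_zero, zero_div] at hxA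
        rw [hXA]
        exact (sub_eq_zero.1 hxA).symm
      refine loc_A hp2 hA hAB hd ⟨_, by rw [← pow_two]; exact e1⟩ ?_
      rw [← hXA]
      exact hs
    by_cases hXB : X = -(A - B)
    · have e1 : (B : ℚ_[p]) = (Y / (2 * X)) ^ 2 := by
        rw [hXB, neg_add_cancel, zero_pow two_ne_zero, zero_div] at hxB
        rw [hXB]
        exact (sub_eq_zero.1 hxB).symm
      refine LocSol_symm (loc_A hp2 hB hAB.symm hd ⟨_, by rw [← pow_two]; exact e1⟩ ?_)
      have e2 : ((B : ℚ_[p]) - A) = X := by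
        rw [hXB]
        ring
      rw [e2]
      exact hs
    refine locsol_padic hp2 (x0 := (Y / (2 * X)) ^ 2)
      (pow_ne_zero _ (div_ne_zero hY0 (mul_ne_zero h2 hX))) ?_ ?_ ⟨_, pow_two _⟩ sA sB
    · rw [← sub_ne_zero, hxA]
      exact div_ne_zero (pow_ne_zero _ (sub_ne_zero.2 hXA)) (mul_ne_zero (by norm_num) hX)
    · rw [← sub_ne_zero, hxB]
      refine div_ne_zero (pow_ne_zero _ ?_) (mul_ne_zero (by norm_num) hX)
      intro h
      apply hXB
      linear_combination h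

/-- local solubility for the dual conditions -/
lemma one_loc (hp2 : p ≠ 2) (hA : A ≠ 0) (hB : B ≠ 0) (hAB : A ≠ B) {m : ℤ}
    (hsq : Squarefree m)
    (hm : (p : ℤ) ∣ m → 5 ≤ p ∧ ¬ (p : ℤ) ∣ A ∧ (p : ℤ) ∣ A - B ∧ legendreSym p A = 1)
    (hb : (p : ℤ) ∣ A ∨ (p : ℤ) ∣ B → legendreSym p m = 1) : LocSol p A B 1 m := by
  have hm0 : m ≠ 0 := hsq.ne_zero
  have hm0' : (m : ℚ_[p]) ≠ 0 := by exact_mod_cast hm0
  have hp0 : (p : ℚ_[p]) ≠ 0 := by exact_mod_cast hp.out.ne_zero
  by_cases hpm : (p : ℤ) ∣ m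
  · obtain ⟨hp5, hpA, hpAB, hl⟩ := hm hpm
    have hA1 := norm_unit hpA
    have hsA : IsSquare (A : ℚ_[p]) := sq_of_leg hp2 hl
    have hmn := norm_sqf hsq hpm
    obtain ⟨m', rfl⟩ := hpm
    obtain ⟨c, hc⟩ := hpAB
    have hc' : ((A : ℚ_[p]) - B) = p * c := by exact_mod_cast congrArg (Int.cast : ℤ → ℚ_[p]) hc
    have hm'p : ¬ (p : ℤ) ∣ m' := by
      rintro ⟨f, rfl⟩
      have := hsq (p : ℤ) ⟨f, by ring⟩
      exact (Nat.prime_iff_prime_int.1 hp.out).not_isUnit this
    have hp1 : (1 : ℝ) < p := by exact_mod_cast hp.out.one_lt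
    have hpi : (p : ℝ)⁻¹ < 1 := inv_lt_one_of_one_lt₀ hp1
    have hpi0 : (0 : ℝ) < (p : ℝ)⁻¹ := by positivity
    push_cast at hmn hm0' ⊢
    -- the point `A + m s²`
    have point : ∀ s : ℤ, (s : ℚ_[p]) ≠ 0 →
        (((A : ℚ_[p]) - B) + (p * m') * (s * s)) ≠ 0 →
        IsSquare ((((A : ℚ_[p]) - B) + (p * m') * (s * s)) * (p * m')) →
        LocSol p A B 1 (p * m') := by
      intro s hs h1 h2
      have hlt : ‖((p : ℚ_[p]) * m') * (s * s)‖ < ‖(A : ℚ_[p])‖ := by
        rw [hA1, norm_mul, hmn, norm_mul]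
        have := Padic.norm_int_le_one (p := p) s
        nlinarith [norm_nonneg (s : ℚ_[p]), mul_le_one₀ this (norm_nonneg _) this]
      refine locsol_padic hp2 (x0 := A + (p * m') * (s * s)) (ne_near hlt) ?_ ?_ ?_ ?_ ?_
      · intro h
        have : ((p : ℚ_[p]) * m') * (s * s) = 0 := by linear_combination h
        exact mul_ne_zero hm0' (mul_ne_zero hs hs) this
      · intro h
        apply h1
        linear_combination h
      · have := sq_near hp2 (c := 1) hlt (by rwa [mul_one])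
        rwa [mul_one] at this
      · refine ⟨p * m' * s, ?_⟩
        push_cast
        ring
      · push_cast
        have : (A : ℚ_[p]) + p * m' * (s * s) - B = (A - B) + (p * m') * (s * s) := by ring
        rw [this]
        exact h2
    by_cases hpc : (p : ℤ) ∣ c
    · have hcn : ‖(c : ℚ_[p])‖ < 1 := Padic.norm_intCast_lt_one_iff.2 hpc
      have hlt : ‖((A : ℚ_[p]) - B)‖ < ‖((p : ℚ_[p]) * m')‖ := by
        rw [hc', norm_mul, Padic.norm_p, hmn]
        nlinarith
      have e1 : ((A : ℚ_[p]) - B) + (p * m') * (((1 : ℤ) : ℚ_[p]) * ((1 : ℤ) : ℚ_[p])) =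
          (p * m') + ((A : ℚ_[p]) - B) := by
        push_cast
        ring
      refine point 1 (by norm_num) ?_ ?_
      · rw [e1]
        exact ne_near hlt
      · rw [e1]
        exact sq_near hp2 hlt ⟨_, rfl⟩
    · have hcm : ¬ (p : ℤ) ∣ c * m' := fun h =>
        ((Nat.prime_iff_prime_int.1 hp.out).dvd_or_dvd h).elim hpc hm'p
      by_cases hk : legendreSym p (c * m') = 1
      · refine loc_A hp2 hA hAB hm0 hsA ?_
        have h1 := sq_of_leg hp2 hk
        have h2 : ((A : ℚ_[p]) - B) * ((p * m' : ℤ) : ℚ_[p]) = ((c * m' : ℤ) : ℚ_[p]) * (p * p) := by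
          rw [hc']
          push_cast
          ring
        rw [h2]
        exact h1.mul ⟨_, rfl⟩
      · have hk' := leg_ne hcm hk
        have hm'0 : (m' : ZMod p) ≠ 0 := fun h =>
          hm'p ((ZMod.intCast_zmod_eq_zero_iff_dvd m' p).1 h)
        obtain ⟨s0, hs0, hs1⟩ := ex_ram (c := (c : ZMod p)) hp5 hm'0 (by
          rw [leg_cast] at hk'
          push_cast at hk'
          exact hk')
        obtain ⟨s, rfl⟩ := ZMod.intCast_surjective s0
        have hs' : (s : ℚ_[p]) ≠ 0 := by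
          intro h
          apply hs0
          have : s = 0 := by exact_mod_cast h
          rw [this, Int.cast_zero]
        have h1 : legendreSym p ((m' * s ^ 2 + c) * m') = 1 := by
          rw [leg_cast]
          push_cast
          exact hs1
        have h2 := sq_of_leg hp2 h1
        have h3 : (m' * s ^ 2 + c) ≠ 0 := by
          intro h
          rw [h, zero_mul, legendreSym.at_zero] at h1
          exact zero_ne_one h1
        refine point s hs' ?_ ?_
        · have e1 : ((A : ℚ_[p]) - B) + (p * m') * (s * s) = p * ((m' * s ^ 2 + c : ℤ) : ℚ_[p]) := by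
            rw [hc']
            push_cast
            ring
          rw [e1]
          exact mul_ne_zero hp0 (by exact_mod_cast h3)
        · have e1 : (((A : ℚ_[p]) - B) + (p * m') * (s * s)) * (p * m') =
              (((m' * s ^ 2 + c) * m' : ℤ) : ℚ_[p]) * (p * p) := by
            rw [hc']
            push_cast
            ring
          rw [e1]
          exact h2.mul ⟨_, rfl⟩
  by_cases hl : legendreSym p m = 1
  · exact loc_sq1 hp2 (sq_of_leg hp2 hl)
  have hl' := leg_ne hpm hl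
  have hpA : ¬ (p : ℤ) ∣ A := fun h => hl (hb (Or.inl h))
  have hpB : ¬ (p : ℤ) ∣ B := fun h => hl (hb (Or.inr h))
  have hA' : (A : ZMod p) ≠ 0 := fun h => hpA ((ZMod.intCast_zmod_eq_zero_iff_dvd A p).1 h)
  have hB' : (B : ZMod p) ≠ 0 := fun h => hpB ((ZMod.intCast_zmod_eq_zero_iff_dvd B p).1 h)
  have hmul : ∀ n : ℤ, legendreSym p n = -1 → IsSquare ((n * m : ℤ) : ℚ_[p]) := by
    intro n h
    apply sq_of_leg hp2
    rw [legendreSym.mul, hl', h]
    norm_num
  by_cases h0 : legendreSym p (-A) = -1 ∧ legendreSym p (-B) = -1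
  · refine loc_zero hp2 hA hB ?_ ?_
    · have := hmul _ h0.1
      push_cast at this
      exact this
    · have := hmul _ h0.2
      push_cast at this
      exact this
  by_cases h1 : legendreSym p A = 1 ∧ legendreSym p (A - B) = -1
  · refine loc_A hp2 hA hAB hm0 (sq_of_leg hp2 h1.1) ?_
    have := hmul _ h1.2
    push_cast at this
    exact this
  by_cases h2 : legendreSym p B = 1 ∧ legendreSym p (B - A) = -1
  · refine LocSol_symm (loc_A hp2 hB hAB.symm hm0 (sq_of_leg hp2 h2.1) ?_)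
    have := hmul _ h2.2
    push_cast at this
    exact this
  have hfin : ∀ x : ZMod p, quadraticChar (ZMod p) x = 1 →
      quadraticChar (ZMod p) (x - A) = -1 → quadraticChar (ZMod p) (x - B) = -1 →
      LocSol p A B 1 m := by
    intro x a1 a2 a3
    obtain ⟨n, rfl⟩ := ZMod.intCast_surjective x
    refine loc_int hp2 (x := n) a1 ?_ ?_
    · rw [legendreSym.mul, hl', leg_cast]
      push_cast
      rw [a2]
      norm_num
    · rw [legendreSym.mul, hl', leg_cast]
      push_cast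
      rw [a3]
      norm_num
  rw [leg_cast, leg_cast] at h0 h1 h2
  push_cast at h0 h1 h2
  by_cases hAB' : (A : ZMod p) = B
  · rw [← hAB', and_self] at h0
    have h3 : quadraticChar (ZMod p) (-(A : ZMod p)) = 1 := by
      rcases quadraticChar_dichotomy (neg_ne_zero.2 hA') with h | h
      · exact h
      · exact absurd h h0
    obtain ⟨x, a1, a2⟩ := ex_node hp2 hA' h3
    exact hfin x a1 a2 (by rw [← hAB']; exact a2)
  · obtain ⟨x, a1, a2, a3⟩ := ex_good2 hp2 hA' hB' hAB' h0 h1 h2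
    exact hfin x a1 a2 a3

end loc

end Pool.Agent.H514.IS
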