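import Pool.Agent.H514.IS.Up2
import Pool.Agent.H514.IS.Lin2

/-! The number of the classes of the second isogeny. -/

set_option autoImplicit false

open scoped Classical

namespace Pool.Agent.H514.IS

open Finset WeierstrassCurve Pool.Agent.W262.SH Pool.Agent.W338.SH

/-- duality for a matrix over `F₂` -/
lemma ker_dual {I J : Type} [Fintype I] [Fintype J] (M : Matrix J I (ZMod 2)) :
    Nat.card (LinearMap.ker M.mulVecLin) * 2 ^ Fintype.card J =
      2 ^ Fintype.card I * Nat.card (LinearMap.ker M.transpose.mulVecLin) := by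
  have h1 := LinearMap.finrank_range_add_finrank_ker M.mulVecLin
  have h2 := LinearMap.finrank_range_add_finrank_ker M.transpose.mulVecLin
  have h3 : Module.finrank (ZMod 2) (LinearMap.range M.transpose.mulVecLin) =
      Module.finrank (ZMod 2) (LinearMap.range M.mulVecLin) := Matrix.rank_transpose M
  rw [Module.finrank_fintype_fun_eq_card] at h1 h2
  have c1 : Nat.card (LinearMap.ker M.mulVecLin) =
      2 ^ Module.finrank (ZMod 2) (LinearMap.ker M.mulVecLin) := by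
    rw [Module.natCard_eq_pow_finrank (K := ZMod 2)]
    simp
  have c2 : Nat.card (LinearMap.ker M.transpose.mulVecLin) =
      2 ^ Module.finrank (ZMod 2) (LinearMap.ker M.transpose.mulVecLin) := by
    rw [Module.natCard_eq_pow_finrank (K := ZMod 2)]
    simp
  rw [c1, c2, ← pow_add, ← pow_add]
  congr 1
  omega

/-- the primes of the classes and the unit `-1` -/
noncomputable def P1 (A B : ℤ) : Finset ℕ := insert 1 (2 * A * B).natAbs.primeFactors

/-- the primes of the conditions -/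
noncomputable def QQ (A B : ℤ) : Finset ℕ :=
  (A - B).natAbs.primeFactors.filter fun q => 5 ≤ q ∧ ¬ (q : ℤ) ∣ A ∧ jacobiSym A q = 1

/-- the values -/
def vz (i : ℕ) : ℤ := if i = 1 then -1 else i

/-- the matrix of the symbols -/
noncomputable def MM (A B : ℤ) : Matrix (QQ A B) (P1 A B) (ZMod 2) :=
  fun q i => lam (jacobiSym (vz i) q)

/-- the Selmer group of the isogeny -/
def SelA (A B : ℤ) : Set ℤ :=
  {d | Squarefree d ∧ ∀ (p : ℕ) [Fact p.Prime], p ≠ 2 →
    LA ℚ_[p] (-4 * (A + B)) (16 * (A * B)) (d : ℚ_[p])}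

/-- the Selmer group of the dual isogeny -/
def SelB (A B : ℤ) : Set ℤ :=
  {d | Squarefree d ∧ ∀ (p : ℕ) [Fact p.Prime], p ≠ 2 →
    LA ℚ_[p] (2 * (A + B)) ((A - B) ^ 2) (d : ℚ_[p])}

variable {A B : ℤ}

lemma mem_QQ {q : ℕ} (h : q ∈ QQ A B) : q.Prime ∧ (q : ℤ) ∣ A - B ∧ 5 ≤ q ∧ ¬ (q : ℤ) ∣ A ∧
    ¬ (q : ℤ) ∣ B ∧ jacobiSym A q = 1 := by
  rw [QQ, mem_filter, Nat.mem_primeFactors] at h
  obtain ⟨⟨h1, h2, -⟩, h3, h4, h5⟩ := h
  have h6 : (q : ℤ) ∣ A - B := Int.natCast_dvd.2 h2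
  exact ⟨h1, h6, h3, h4, fun h => h4 ((dvd_sub_left h).1 h6), h5⟩

lemma mem_P1 (hA : A ≠ 0) (hB : B ≠ 0) {p : ℕ} : p ∈ P1 A B ↔ p = 1 ∨
    (p.Prime ∧ (p = 2 ∨ (p : ℤ) ∣ A ∨ (p : ℤ) ∣ B)) := by
  rw [P1, mem_insert, Nat.mem_primeFactors]
  refine or_congr Iff.rfl ⟨?_, ?_⟩
  · rintro ⟨h1, h2, -⟩
    refine ⟨h1, ?_⟩
    have h3 : (p : ℤ) ∣ 2 * A * B := Int.natCast_dvd.2 h2
    have hpi := Nat.prime_iff_prime_int.1 h1
    rcases hpi.dvd_or_dvd h3 with h | h
    · rcases hpi.dvd_or_dvd h with h | h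
      · left
        exact (Nat.prime_dvd_prime_iff_eq h1 Nat.prime_two).1 (by exact_mod_cast h)
      · exact Or.inr (Or.inl h)
    · exact Or.inr (Or.inr h)
  · rintro ⟨h1, h2⟩
    refine ⟨h1, ?_, Int.natAbs_ne_zero.2 (mul_ne_zero (mul_ne_zero two_ne_zero hA) hB)⟩
    rw [← Int.natCast_dvd]
    rcases h2 with rfl | h | h
    · exact Dvd.dvd.mul_right (Dvd.dvd.mul_right (by norm_num) _) _
    · exact Dvd.dvd.mul_right (h.mul_left _) _
    · exact h.mul_left _

lemma vz_cop (hA : A ≠ 0) (hB : B ≠ 0) {i q : ℕ} (hi : i ∈ P1 A B) (hq : q ∈ QQ A B) :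
    Int.gcd (vz i) q = 1 := by
  obtain ⟨h1, h2, h3, h4, h5, h6⟩ := mem_QQ hq
  unfold vz
  split_ifs with h
  · simp
  · rcases (mem_P1 hA hB).1 hi with h7 | ⟨h7, h8⟩
    · exact absurd h7 h
    · rw [Int.gcd_natCast_natCast]
      refine (Nat.coprime_primes h7 h1).2 ?_
      rintro rfl
      rcases h8 with h8 | h8 | h8
      · omega
      · exact h4 h8
      · exact h5 h8

lemma jac_pm (hA : A ≠ 0) (hB : B ≠ 0) {i q : ℕ} (hi : i ∈ P1 A B) (hq : q ∈ QQ A B) :
    jacobiSym (vz i) q = 1 ∨ jacobiSym (vz i) q = -1 :=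
  jacobiSym.eq_one_or_neg_one (vz_cop hA hB hi hq)

/-! ### the transposed kernel -/

lemma jac_dd (a : ℤ) {Q : Finset ℕ} (hQ : ∀ q ∈ Q, q ≠ 0) (w : Q → ZMod 2) :
    jacobiSym a (dd Q w) = ∏ q : Q, jacobiSym a q ^ (w q).val := by
  unfold dd
  have : ∀ s : Finset Q, jacobiSym a (∏ q ∈ s, (q : ℕ) ^ (w q).val) =
      ∏ q ∈ s, jacobiSym a q ^ (w q).val := by
    intro s
    induction s using Finset.induction_on with
    | empty => rw [prod_empty, prod_empty, jacobiSym.one_right]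
    | insert i s hi ih =>
      rw [prod_insert hi, prod_insert hi, ← ih, ← jacobiSym.pow_right]
      exact jacobiSym.mul_right' a (pow_ne_zero _ (hQ i i.2))
        (prod_ne_zero_iff.2 fun q _ => pow_ne_zero _ (hQ q q.2))
  exact this univ

lemma QQ_prime : ∀ q ∈ QQ A B, q.Prime := fun _ h => (mem_QQ h).1

lemma QQ_ne : ∀ q ∈ QQ A B, q ≠ 0 := fun q h => (QQ_prime q h).ne_zero

/-- the symbols at the integer of a vector of the transposed kernel -/
lemma ker_jac (hA : A ≠ 0) (hB : B ≠ 0) {w : QQ A B → ZMod 2}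
    (hw : w ∈ LinearMap.ker (MM A B).transpose.mulVecLin) {i : ℕ} (hi : i ∈ P1 A B) :
    jacobiSym (vz i) (dd (QQ A B) w) = 1 := by
  rw [jac_dd _ QQ_ne]
  rw [prod_sign univ (fun q : QQ A B => jacobiSym (vz i) q)
    (fun q _ => jac_pm hA hB hi q.2) w, if_pos]
  rw [LinearMap.mem_ker] at hw
  have h1 := congrFun hw ⟨i, hi⟩
  rw [Matrix.mulVecLin_apply, Matrix.mulVec, dotProduct] at h1
  rw [← Pi.zero_apply (M := fun _ => ZMod 2) (⟨i, hi⟩ : P1 A B), ← h1]
  refine sum_congr rfl fun q _ => ?_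
  rw [mul_comm]
  rfl

lemma dd_odd {w : QQ A B → ZMod 2} : Odd (dd (QQ A B) w) := by
  rw [← Nat.not_even_iff_odd, even_iff_two_dvd, dd_dvd QQ_prime w Nat.prime_two]
  rintro ⟨h, -⟩
  have := (mem_QQ h).2.2.1
  omega

lemma ker_sel (hA : A ≠ 0) (hB : B ≠ 0) (hAB : A ≠ B) {w : QQ A B → ZMod 2}
    (hw : w ∈ LinearMap.ker (MM A B).transpose.mulVecLin) :
    ((1 : ℤ), ((dd (QQ A B) w : ℕ) : ℤ)) ∈ SelS A B := by
  set m := dd (QQ A B) w with hm
  have hodd : Odd m := dd_odd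
  have h4 : m % 4 = 1 := by
    have h1 := ker_jac hA hB hw ((mem_P1 hA hB).2 (Or.inl rfl))
    rw [vz, if_pos rfl, ← hm, jacobiSym.at_neg_one hodd, ZMod.χ₄_nat_eq_if_mod_four] at h1
    split_ifs at h1 <;> omega
  refine ⟨squarefree_one, Int.squarefree_natCast.2 (dd_sqf QQ_prime w), ?_⟩
  intro p hp hp2
  show LocSol p A B 1 (m : ℤ)
  refine one_loc hp2 hA hB hAB (Int.squarefree_natCast.2 (dd_sqf QQ_prime w)) ?_ ?_
  · intro h
    rw [Int.natCast_dvd_natCast, dd_dvd QQ_prime w hp.out] at h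
    obtain ⟨h1, -⟩ := h
    obtain ⟨-, a1, a2, a3, -, a5⟩ := mem_QQ h1
    exact ⟨a2, a3, a1, by rw [jacobiSym.legendreSym.to_jacobiSym]; exact a5⟩
  · intro h
    have hpp : p ∈ P1 A B := (mem_P1 hA hB).2 (Or.inr ⟨hp.out, Or.inr h⟩)
    have h1 := ker_jac hA hB hw hpp
    rw [vz, if_neg hp.out.one_lt.ne', ← hm] at h1
    rw [jacobiSym.legendreSym.to_jacobiSym, ← h1]
    exact jacobiSym.quadratic_reciprocity_one_mod_four h4
      ((hp.out.eq_two_or_odd').resolve_left hp2)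

lemma ker_le (hA : A ≠ 0) (hB : B ≠ 0) (hAB : A ≠ B) (hf : (SelS A B).Finite) :
    Nat.card (LinearMap.ker (MM A B).transpose.mulVecLin) ≤ (SelS A B).ncard := by
  have : Finite (SelS A B) := hf
  rw [← Nat.card_coe_set_eq]
  refine Nat.card_le_card_of_injective (fun w : LinearMap.ker (MM A B).transpose.mulVecLin =>
    (⟨((1 : ℤ), ((dd (QQ A B) w.1 : ℕ) : ℤ)), ker_sel hA hB hAB w.2⟩ : SelS A B)) ?_
  intro w w' h
  have h1 : ((dd (QQ A B) w.1 : ℕ) : ℤ) = ((dd (QQ A B) w'.1 : ℕ) : ℤ) :=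
    congrArg Prod.snd (congrArg Subtype.val h)
  exact Subtype.ext (dd_inj QQ_prime (by exact_mod_cast h1))

/-! ### the Selmer group -/

/-- the vector of a class -/
noncomputable def vd (d : ℤ) (i : ℕ) : ZMod 2 :=
  if i = 1 then (if d < 0 then 1 else 0) else (if (i : ℤ) ∣ d then 1 else 0)

lemma selA_primes (hA : A ≠ 0) (hB : B ≠ 0) {d : ℤ} (hd : d ∈ SelA A B) {p : ℕ} (hp : p.Prime)
    (h : (p : ℤ) ∣ d) : p ∈ P1 A B := by
  rw [mem_P1 hA hB]
  right
  refine ⟨hp, ?_⟩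
  by_contra hno
  rw [not_or, not_or] at hno
  have : Fact p.Prime := ⟨hp⟩
  exact selA_unr hno.1 hno.2.1 hno.2.2 hd.1 (hd.2 p hno.1) h

/-- a class is the product of its factors -/
lemma vd_prod (hA : A ≠ 0) (hB : B ≠ 0) {d : ℤ} (hd : d ∈ SelA A B) :
    ∏ i : P1 A B, vz i ^ (vd d i).val = d := by
  have e0 : ∏ i : P1 A B, vz i ^ (vd d i).val = ∏ i ∈ P1 A B, vz i ^ (vd d i).val :=
    prod_coe_sort (P1 A B) (fun i => vz i ^ (vd d i).val)
  have hd0 : d ≠ 0 := hd.1.ne_zero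
  rw [e0, P1, prod_insert (fun h => Nat.not_prime_one (Nat.prime_of_mem_primeFactors h))]
  have e1 : vz 1 ^ (vd d 1).val = d.sign := by
    unfold vz vd
    rw [if_pos rfl, if_pos rfl]
    split_ifs with h
    · rw [Int.sign_eq_neg_one_of_neg h]
      rfl
    · rw [Int.sign_eq_one_of_pos (lt_of_le_of_ne (not_lt.1 h) hd0.symm)]
      rfl
  have e2 : ∏ i ∈ (2 * A * B).natAbs.primeFactors, vz i ^ (vd d i).val = d.natAbs := by
    have e3 : ∏ i ∈ (2 * A * B).natAbs.primeFactors, vz i ^ (vd d i).val =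
        ∏ i ∈ (2 * A * B).natAbs.primeFactors.filter (fun i : ℕ => (i : ℤ) ∣ d), (i : ℤ) := by
      rw [prod_filter]
      refine prod_congr rfl fun i hi => ?_
      have hi1 : i ≠ 1 := (Nat.prime_of_mem_primeFactors hi).one_lt.ne'
      unfold vz vd
      rw [if_neg hi1, if_neg hi1]
      split_ifs with h
      · exact pow_one _
      · exact pow_zero _
    have e4 : (2 * A * B).natAbs.primeFactors.filter (fun i : ℕ => (i : ℤ) ∣ d) =
        d.natAbs.primeFactors := by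
      ext i
      rw [mem_filter, Nat.mem_primeFactors, Nat.mem_primeFactors]
      constructor
      · rintro ⟨⟨h1, -, -⟩, h4⟩
        exact ⟨h1, Int.natCast_dvd.1 h4, Int.natAbs_ne_zero.2 hd0⟩
      · rintro ⟨h1, h2, -⟩
        have h3 := selA_primes hA hB hd h1 (Int.natCast_dvd.2 h2)
        rw [P1, mem_insert] at h3
        rcases h3 with h3 | h3
        · exact absurd h3 h1.one_lt.ne'
        · rw [Nat.mem_primeFactors] at h3
          exact ⟨h3, Int.natCast_dvd.2 h2⟩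
    rw [e3, e4, ← Nat.cast_prod, Nat.prod_primeFactors_of_squarefree (Int.squarefree_natAbs.2 hd.1)]
  rw [e1, e2]
  exact Int.sign_mul_natAbs d

lemma jac_prod {ι : Type} (s : Finset ι) (f : ι → ℤ) (e : ι → ℕ) (q : ℕ) :
    jacobiSym (∏ i ∈ s, f i ^ e i) q = ∏ i ∈ s, jacobiSym (f i) q ^ e i := by
  induction s using Finset.induction_on with
  | empty => rw [prod_empty, prod_empty, jacobiSym.one_left]
  | insert i s hi ih => rw [prod_insert hi, prod_insert hi, jacobiSym.mul_left, ih,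
      jacobiSym.pow_left]

lemma selA_ker (hA : A ≠ 0) (hB : B ≠ 0) {d : ℤ} (hd : d ∈ SelA A B) :
    (fun i : P1 A B => vd d i) ∈ LinearMap.ker (MM A B).mulVecLin := by
  rw [LinearMap.mem_ker]
  funext q
  rw [Matrix.mulVecLin_apply, Matrix.mulVec, dotProduct, Pi.zero_apply]
  obtain ⟨h1, h2, h3, h4, h5, h6⟩ := mem_QQ q.2
  have : Fact (q : ℕ).Prime := ⟨h1⟩
  have hq2 : (q : ℕ) ≠ 2 := by omega
  have hl := selA_node hq2 h4 h5 h2 (by rw [jacobiSym.legendreSym.to_jacobiSym]; exact h6) hd.1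
    (hd.2 q hq2)
  rw [jacobiSym.legendreSym.to_jacobiSym, ← vd_prod hA hB hd, jac_prod] at hl
  rw [prod_sign univ (fun i : P1 A B => jacobiSym (vz i) q)
    (fun i _ => jac_pm hA hB i.2 q.2) (fun i => vd d i)] at hl
  have h7 : ∑ i : P1 A B, vd d i * lam (jacobiSym (vz i) q) = 0 := by
    by_contra hne
    rw [if_neg hne] at hl
    norm_num at hl
  rw [← h7]
  refine sum_congr rfl fun i _ => ?_
  rw [mul_comm]
  rfl

theorem selA_card (hA : A ≠ 0) (hB : B ≠ 0) (hAB : A ≠ B) (hf : (SelS A B).Finite) :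
    (SelA A B).Finite ∧ (SelA A B).ncard * 2 ^ (QQ A B).card ≤
      2 ^ (P1 A B).card * (SelS A B).ncard := by
  let F : SelA A B → LinearMap.ker (MM A B).mulVecLin := fun d => ⟨_, selA_ker hA hB d.2⟩
  have hF : Function.Injective F := by
    intro d d' h
    have h1 : ∀ i : P1 A B, vd d i = vd d' i := fun i =>
      congrFun (congrArg Subtype.val h) i
    apply Subtype.ext
    rw [← vd_prod hA hB d.2, ← vd_prod hA hB d'.2]
    exact prod_congr rfl fun i _ => by rw [h1 i]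
  have hfin : Finite (SelA A B) := Finite.of_injective F hF
  refine ⟨hfin, ?_⟩
  have h1 : (SelA A B).ncard ≤ Nat.card (LinearMap.ker (MM A B).mulVecLin) := by
    rw [← Nat.card_coe_set_eq]
    exact Nat.card_le_card_of_injective F hF
  have h2 := ker_dual (MM A B)
  rw [Fintype.card_coe, Fintype.card_coe] at h2
  calc (SelA A B).ncard * 2 ^ (QQ A B).card ≤
      Nat.card (LinearMap.ker (MM A B).mulVecLin) * 2 ^ (QQ A B).card := Nat.mul_le_mul_right _ h1
    _ = 2 ^ (P1 A B).card * Nat.card (LinearMap.ker (MM A B).transpose.mulVecLin) := h2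
    _ ≤ _ := Nat.mul_le_mul_left _ (ker_le hA hB hAB hf)

theorem selB_card (hA : A ≠ 0) (hB : B ≠ 0) (hAB : A ≠ B) (hf : (SelS A B).Finite) :
    (SelB A B).Finite ∧ (SelB A B).ncard ≤ (SelS A B).ncard := by
  let F : SelB A B → SelS A B := fun d => ⟨(1, d.1), squarefree_one, d.2.1, fun p hp hp2 =>
    selB_loc hp2 hA hB hAB d.2.1.ne_zero (d.2.2 p hp2)⟩
  have hF : Function.Injective F := by
    intro d d' h
    exact Subtype.ext (congrArg Prod.snd (congrArg Subtype.val h))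
  have : Finite (SelS A B) := hf
  have hfin : Finite (SelB A B) := Finite.of_injective F hF
  refine ⟨hfin, ?_⟩
  rw [← Nat.card_coe_set_eq, ← Nat.card_coe_set_eq]
  exact Nat.card_le_card_of_injective F hF

end Pool.Agent.H514.IS
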