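import Pool.Graph.R_seed8.Y695.Key


/-! The descent by the two isogenies: the order of the 2-torsion of the Tate-Shafarevich group. -/

set_option autoImplicit false

open scoped Classical

namespace Pool.Agent.H514.ID

open Finset WeierstrassCurve WeierstrassCurve.Affine Pool.Agent.TH344.SH Pool.Agent.Y695
open Pool.Agent.W309.TD (act_act two_act exists_root act_some)

section desc

variable {W : WeierstrassCurve ℚ} {a b : ℚ}

/-- the classes of the second kind -/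
def SA (a b : ℚ) : Set ℤ := {d | Squarefree d ∧ ∀ (p : ℕ) [Fact p.Prime], p ≠ 2 →
  LocA ℚ_[p] (algebraMap ℚ ℚ_[p] (-2 * a)) (algebraMap ℚ ℚ_[p] (a ^ 2 - 4 * b))
    (algebraMap ℚ ℚ_[p] d)}

/-- the classes of the first kind -/
def SB (a b : ℚ) : Set ℤ := {d | Squarefree d ∧ ∀ (p : ℕ) [Fact p.Prime], p ≠ 2 →
  LocA ℚ_[p] (algebraMap ℚ ℚ_[p] a) (algebraMap ℚ ℚ_[p] b) (algebraMap ℚ ℚ_[p] d)}

/-- representatives -/
lemma rep (h : IsT W.toAffine a b) (c : Sha W) (hc : c + c = 0) :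
    ∃ f : shaCocycles W, (QuotientAddGroup.mk f : Sha W) = c ∧
      ∀ σ, (f : GQ → Points W QB) σ + (f : GQ → Points W QB) σ = 0 := by
  have hT := isT_base h QB
  obtain ⟨e, e', he1, he2⟩ := hT.roots
  have hR := hT.isR he1 he2
  obtain ⟨f0, rfl⟩ := QuotientAddGroup.mk_surjective c
  have h1 : f0 + f0 ∈ (coboundaries W).addSubgroupOf (shaCocycles W) := by
    rw [← QuotientAddGroup.eq_zero_iff]
    exact hc
  rw [AddSubgroup.mem_addSubgroupOf] at h1
  obtain ⟨Q, hQ⟩ := h1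
  obtain ⟨R, hR2⟩ := halve_sep hR Q
  have hcob := cob_sha W R
  refine ⟨f0 - ⟨_, hcob⟩, ?_, fun σ => ?_⟩
  · rw [QuotientAddGroup.eq]
    refine AddSubgroup.mem_addSubgroupOf.2 ⟨R, fun σ => ?_⟩
    show -((f0 : GQ → Points W QB) σ - (pmap W σ.toAlgHom R - R)) + (f0 : GQ → Points W QB) σ = _
    abel
  · have h2 := hQ σ
    show ((f0 : GQ → Points W QB) σ - (pmap W σ.toAlgHom R - R)) +
      ((f0 : GQ → Points W QB) σ - (pmap W σ.toAlgHom R - R)) = 0
    have h3 : (f0 : GQ → Points W QB) σ + (f0 : GQ → Points W QB) σ =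
        pmap W σ.toAlgHom Q - Q := h2
    have h4 : ((f0 : GQ → Points W QB) σ - (pmap W σ.toAlgHom R - R)) +
        ((f0 : GQ → Points W QB) σ - (pmap W σ.toAlgHom R - R)) =
        ((f0 : GQ → Points W QB) σ + (f0 : GQ → Points W QB) σ) -
          (pmap W σ.toAlgHom (R + R) - (R + R)) := by
      rw [map_add]
      abel
    rw [h4, hR2, h3, sub_self]

/-- the squarefree root -/
lemma sqf_root {t : QB} {d0 : ℚ} (ht0 : t ≠ 0) (ht : t ^ 2 = algebraMap ℚ QB d0) {s : GQ → QB}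
    (hσ : ∀ σ : GQ, σ t = s σ * t) : ∃ (d : ℤ) (t' : QB), Squarefree d ∧ t' ≠ 0 ∧
      t' ^ 2 = algebraMap ℚ QB (d : ℚ) ∧ ∀ σ : GQ, σ t' = s σ * t' := by
  have hd0 : d0 ≠ 0 := by
    rintro rfl
    rw [map_zero] at ht
    exact pow_ne_zero 2 ht0 ht
  obtain ⟨d, hdsq, r, hr, hdr⟩ := exists_rep d0 hd0
  have hr' : algebraMap ℚ QB r ≠ 0 := (map_ne_zero _).2 hr
  refine ⟨d, t / algebraMap ℚ QB r, hdsq, div_ne_zero ht0 hr', ?_, fun σ => ?_⟩
  · rw [div_pow, ht, hdr, map_mul, map_pow]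
    field_simp
  · rw [map_div₀, hσ, σ.commutes]
    ring

/-- the first class -/
lemma cls1 (h : IsT W.toAffine a b) {f : GQ → Points W QB} (hf : IsShaCocycle W f)
    (hf2 : ∀ σ, f σ + f σ = 0) : ∃ d ∈ SB a b, ∃ t : QB, t ≠ 0 ∧
      t ^ 2 = algebraMap ℚ QB (d : ℚ) ∧ ∀ σ : GQ, σ t = sg 0 (f σ) * t := by
  have := galQB
  have hT := isT_base h QB
  obtain ⟨e, e', he1, he2⟩ := hT.roots
  have hR := hT.isR he1 he2
  have hsgact : ∀ (σ : GQ) (P : Points W QB),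
      sg 0 (Pool.Agent.W309.TD.act W σ.toAlgHom P) = sg 0 P := by
    intro σ P
    have h1 := sg_act W σ.toAlgHom 0 P
    rw [map_zero] at h1
    rw [h1]
    rcases sg_sq (0 : QB) P with h3 | h3 <;> rw [h3] <;> simp
  obtain ⟨t, d0, ht0, ht, hσ⟩ := exists_root (K := ℚ) (Ω := QB) two_ne_zero
    (fun σ => sg 0 (f σ)) (fun σ => sg_sq _ _) (fun σ τ => by
      show sg _ (f (σ * τ)) = sg _ (f σ) * sg _ (f τ)
      rw [hf.1.2]
      have h2 : pmap W σ.toAlgHom (f τ) = Pool.Agent.W309.TD.act W σ.toAlgHom (f τ) := rfl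
      rw [h2, sg_add hR (hf2 σ) ((two_act W _ _).2 (hf2 τ)), hsgact]) (hf.1.1.comp (sg 0))
  obtain ⟨d, t', hdsq, ht'0, ht'2, hσ'⟩ := sqf_root ht0 ht hσ
  exact ⟨d, ⟨hdsq, fun p _ _ => loc1 h hf2 ht'0 ht'2 hσ' ℚ_[p] (hf.2.1 p)⟩, t', ht'0, ht'2, hσ'⟩

/-- the second class -/
lemma cls2 (h : IsT W.toAffine a b) {f : GQ → Points W QB} (hf : IsShaCocycle W f)
    (hf2 : ∀ σ, f σ + f σ = 0) (hf1 : ∀ σ, sg 0 (f σ) = 1) : ∃ d ∈ SA a b, ∃ t : QB, t ≠ 0 ∧
      t ^ 2 = algebraMap ℚ QB (d : ℚ) ∧ ∀ σ : GQ, σ t = (if f σ = 0 then 1 else -1) * t := by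
  have := galQB
  have hT := isT_base h QB
  obtain ⟨e, e', he1, he2⟩ := hT.roots
  have hcase : ∀ σ, f σ = 0 ∨ f σ = Point.some 0 0 hT.ns0 := by
    intro σ
    rcases tor_cases hT (hf2 σ) (hf1 σ) with h1 | ⟨hn, h1⟩
    · exact Or.inl h1
    · exact Or.inr h1
  have hT0 : (Point.some 0 0 hT.ns0 : Points W QB) ≠ 0 := Point.some_ne_zero _
  have hTT : (Point.some 0 0 hT.ns0 : Points W QB) + Point.some 0 0 hT.ns0 = 0 :=
    (hT.dbl_zero_iff hT.ns0).2 rfl
  have hfix : ∀ σ : GQ, ∀ τ : GQ, pmap W σ.toAlgHom (f τ) = f τ := by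
    intro σ τ
    rcases hcase τ with h1 | h1
    · rw [h1, map_zero]
    · rw [h1]
      obtain ⟨h1, h2⟩ := act_some W σ.toAlgHom hT.ns0
      refine h2.trans ?_
      simp only [map_zero]
  obtain ⟨t, d0, ht0, ht, hσ⟩ := exists_root (K := ℚ) (Ω := QB) two_ne_zero
    (fun σ => if f σ = 0 then 1 else -1) (fun σ => by
      by_cases h1 : f σ = 0
      · left; simp [h1]
      · right; simp [h1]) (fun σ τ => by
      show (if f (σ * τ) = 0 then (1 : QB) else -1) =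
        (if f σ = 0 then 1 else -1) * (if f τ = 0 then 1 else -1)
      rw [hf.1.2, hfix]
      rcases hcase σ with h1 | h1 <;> rcases hcase τ with h2 | h2 <;> rw [h1, h2]
      · simp
      · rw [zero_add, if_neg hT0]; simp
      · rw [add_zero, if_neg hT0]; simp
      · rw [hTT, if_neg hT0]; simp) (hf.1.1.comp (fun P => if P = 0 then (1 : QB) else -1))
  obtain ⟨d, t', hdsq, ht'0, ht'2, hσ'⟩ := sqf_root ht0 ht hσ
  have hσ2 : ∀ σ : GQ, (f σ = 0 → σ t' = t') ∧ (f σ ≠ 0 → σ t' = -t') := by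
    intro σ
    constructor
    · intro h1
      rw [hσ', if_pos h1, one_mul]
    · intro h1
      rw [hσ', if_neg h1, neg_one_mul]
  have hff : ∀ σ, f σ = 0 ∨ sg 0 (f σ) = 1 ∧ f σ ≠ 0 ∧ f σ + f σ = 0 := by
    intro σ
    by_cases h1 : f σ = 0
    · exact Or.inl h1
    · exact Or.inr ⟨hf1 σ, h1, hf2 σ⟩
  exact ⟨d, ⟨hdsq, fun p _ _ => loc2 h hff ht'0 ht'2 hσ2 ℚ_[p] (hf.2.1 p)⟩, t', ht'0, ht'2, hσ'⟩

/-- two roots of the same number -/
lemma root_pm {t t' : QB} {d : ℚ} (h : t ^ 2 = algebraMap ℚ QB d) (h' : t' ^ 2 = algebraMap ℚ QB d)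
    (ht' : t' ≠ 0) {s s' : QB} {σ : GQ} (hs : σ t = s * t) (hs' : σ t' = s' * t') :
    s = s' := by
  have h1 : t = t' ∨ t = -t' := sq_eq_sq_iff_eq_or_eq_neg.1 (h.trans h'.symm)
  rcases h1 with h1 | h1
  · rw [h1, hs'] at hs
    exact (mul_right_cancel₀ ht' hs).symm
  · rw [h1, map_neg, hs'] at hs
    apply mul_right_cancel₀ ht'
    linear_combination hs

/-- **the descent** -/
theorem desc (h : IsT W.toAffine a b) (hA : (SA a b).Finite) (hB : (SB a b).Finite) :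
    Finite {c : Sha W // c + c = 0} ∧
      Nat.card {c : Sha W // c + c = 0} ≤ (SB a b).ncard * (SA a b).ncard := by
  have hT := isT_base h QB
  obtain ⟨e, e', he1, he2⟩ := hT.roots
  have hR := hT.isR he1 he2
  choose f hf1 hf2 using fun c : {c : Sha W // c + c = 0} => rep h c.1 c.2
  choose d1 hd1 t1 ht1 ht1' hσ1 using fun c : {c : Sha W // c + c = 0} =>
    cls1 h (f c).2 (hf2 c)
  -- the base classes
  have hbase : ∀ c : {c : Sha W // c + c = 0}, ∃ c0 : {c : Sha W // c + c = 0}, d1 c0 = d1 c :=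
    fun c => ⟨c, rfl⟩
  let bs : ℤ → {c : Sha W // c + c = 0} := fun e =>
    if he : ∃ c0 : {c : Sha W // c + c = 0}, d1 c0 = e then he.choose else ⟨0, add_zero _⟩
  have hbs : ∀ c, d1 (bs (d1 c)) = d1 c := by
    intro c
    have he : ∃ c0 : {c : Sha W // c + c = 0}, d1 c0 = d1 c := ⟨c, rfl⟩
    show d1 (if he : ∃ c0 : {c : Sha W // c + c = 0}, d1 c0 = d1 c then he.choose else _) = _
    rw [dif_pos he]
    exact he.choose_spec
  have hneg : ∀ S : Points W QB, S + S = 0 → -S = S := by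
    intro S h1
    rw [neg_eq_iff_add_eq_zero, h1]
  have hdiff : ∀ c, ∀ σ, ((f c - f (bs (d1 c)) : shaCocycles W) : GQ → Points W QB) σ =
      (f c : GQ → Points W QB) σ + (f (bs (d1 c)) : GQ → Points W QB) σ := by
    intro c σ
    show (f c : GQ → Points W QB) σ - (f (bs (d1 c)) : GQ → Points W QB) σ = _
    rw [sub_eq_add_neg, hneg _ (hf2 _ σ)]
  have hdd2 : ∀ c, ∀ σ, ((f c - f (bs (d1 c)) : shaCocycles W) : GQ → Points W QB) σ +
      ((f c - f (bs (d1 c)) : shaCocycles W) : GQ → Points W QB) σ = 0 := by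
    intro c σ
    rw [hdiff, add_add_add_comm, hf2, hf2, add_zero]
  have hsg : ∀ c, ∀ σ, sg 0 (((f c - f (bs (d1 c)) : shaCocycles W) : GQ → Points W QB) σ) = 1 := by
    intro c σ
    rw [hdiff, sg_add hR (hf2 c σ) (hf2 _ σ)]
    have h1 : (t1 (bs (d1 c))) ^ 2 = algebraMap ℚ QB ((d1 c : ℤ) : ℚ) := by
      rw [ht1', hbs]
    rw [root_pm (ht1' c) h1 (ht1 _) (hσ1 c σ) (hσ1 _ σ)]
    rcases sg_sq (0 : QB) ((f (bs (d1 c)) : GQ → Points W QB) σ) with h3 | h3 <;> rw [h3] <;> simp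
  choose d2 hd2 t2 ht2 ht2' hσ2 using fun c : {c : Sha W // c + c = 0} =>
    cls2 h (f c - f (bs (d1 c))).2 (hdd2 c) (hsg c)
  let F : {c : Sha W // c + c = 0} → SB a b × SA a b := fun c => (⟨d1 c, hd1 c⟩, ⟨d2 c, hd2 c⟩)
  have hF : Function.Injective F := by
    intro c c' hcc
    have e1 : d1 c = d1 c' := congrArg Subtype.val (congrArg Prod.fst hcc)
    have e2 : d2 c = d2 c' := congrArg Subtype.val (congrArg Prod.snd hcc)
    have e3 : f c - f (bs (d1 c)) = f c' - f (bs (d1 c')) := by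
      apply Subtype.ext
      funext σ
      have h1 : (t2 c') ^ 2 = algebraMap ℚ QB ((d2 c : ℤ) : ℚ) := by rw [ht2', e2]
      have h2 := root_pm (ht2' c) h1 (ht2 c') (hσ2 c σ) (hσ2 c' σ)
      have h11 : (1 : QB) ≠ -1 := by
        intro h'
        exact hT.two (by linear_combination h')
      rcases tor_cases hT (hdd2 c σ) (hsg c σ) with a1 | ⟨hn, a1⟩ <;>
        rcases tor_cases hT (hdd2 c' σ) (hsg c' σ) with a2 | ⟨hn', a2⟩
      · rw [a1, a2]
      · exfalso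
        rw [a1, a2, if_pos rfl, if_neg (Point.some_ne_zero _)] at h2
        exact h11 h2
      · exfalso
        rw [a1, a2, if_pos rfl, if_neg (Point.some_ne_zero _)] at h2
        exact h11 h2.symm
      · rw [a1, a2]
    rw [← e1] at e3
    have e4 : f c = f c' := sub_left_injective e3
    apply Subtype.ext
    rw [← hf1 c, ← hf1 c', e4]
  have h1 : Finite (SB a b) := hB
  have h2 : Finite (SA a b) := hA
  refine ⟨Finite.of_injective F hF, ?_⟩
  rw [← Nat.card_coe_set_eq, ← Nat.card_coe_set_eq, ← Nat.card_prod]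
  exact Nat.card_le_card_of_injective F hF

end desc

end Pool.Agent.H514.ID
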