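import Pool.Agent.H514.IS.Up3
import Pool.Agent.H514.IS.Up4
import Pool.Agent.H514.IS.BoxL

/-! The upper bound for the Tate-Shafarevich group of the 2-isogenous curve. -/

set_option autoImplicit false

open scoped Classical

namespace Pool.Agent.H514.IS

open Finset WeierstrassCurve Pool.Agent.W262.SH Pool.Agent.W338.SH Pool.Agent.Y695

variable {A B : ℤ}

lemma isT_D (hA : A ≠ 0) (hB : B ≠ 0) (hAB : A ≠ B) :
    IsT (D (2 * (A + B)) ((A - B) ^ 2)).toAffine (((2 * (A + B) : ℤ)) : ℚ)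
      ((((A - B) ^ 2 : ℤ)) : ℚ) where
  a1 := rfl
  a2 := rfl
  a3 := rfl
  a4 := rfl
  a6 := rfl
  two := two_ne_zero
  nb := by exact_mod_cast b_ne hAB
  nd := by exact_mod_cast d_ne hA hB

lemma SA_eq : Pool.Agent.H514.ID.SA (((2 * (A + B) : ℤ)) : ℚ) ((((A - B) ^ 2 : ℤ)) : ℚ) =
    SelA A B := by
  ext d
  unfold Pool.Agent.H514.ID.SA SelA
  simp only [Set.mem_ofPred_eq]
  refine and_congr Iff.rfl (forall_congr' fun p => forall_congr' fun _ => forall_congr' fun _ => ?_)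
  have h1 : algebraMap ℚ ℚ_[p] (-2 * (((2 * (A + B) : ℤ)) : ℚ)) = -4 * (A + B) := by
    push_cast
    simp
    ring
  have h2 : algebraMap ℚ ℚ_[p] ((((2 * (A + B) : ℤ)) : ℚ) ^ 2 - 4 * ((((A - B) ^ 2 : ℤ)) : ℚ)) =
      16 * (A * B) := by
    push_cast
    simp
    ring
  have h3 : algebraMap ℚ ℚ_[p] (d : ℚ) = (d : ℚ_[p]) := by rw [map_intCast]
  rw [h1, h2, h3]
  rfl

lemma SB_eq : Pool.Agent.H514.ID.SB (((2 * (A + B) : ℤ)) : ℚ) ((((A - B) ^ 2 : ℤ)) : ℚ) =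
    SelB A B := by
  ext d
  unfold Pool.Agent.H514.ID.SB SelB
  simp only [Set.mem_ofPred_eq]
  refine and_congr Iff.rfl (forall_congr' fun p => forall_congr' fun _ => forall_congr' fun _ => ?_)
  have h1 : algebraMap ℚ ℚ_[p] ((((2 * (A + B) : ℤ)) : ℚ)) = 2 * (A + B) := by
    push_cast
    simp
  have h2 : algebraMap ℚ ℚ_[p] (((((A - B) ^ 2 : ℤ)) : ℚ)) = (A - B) ^ 2 := by
    push_cast
    simp
  have h3 : algebraMap ℚ ℚ_[p] (d : ℚ) = (d : ℚ_[p]) := by rw [map_intCast]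
  rw [h1, h2, h3]
  rfl

theorem sha_up (hA : A ≠ 0) (hB : B ≠ 0) (hAB : A ≠ B) (hf : (SelS A B).Finite) :
    Finite (Sha2 (D (2 * (A + B)) ((A - B) ^ 2))) ∧
      Nat.card (Sha2 (D (2 * (A + B)) ((A - B) ^ 2))) * 2 ^ (QQ A B).card ≤
        2 ^ (P1 A B).card * (SelS A B).ncard ^ 2 := by
  have hT := isT_D hA hB hAB
  obtain ⟨a1, a2⟩ := selA_card hA hB hAB hf
  obtain ⟨b1, b2⟩ := selB_card hA hB hAB hf
  obtain ⟨c1, c2⟩ := Pool.Agent.H514.ID.desc hT (by rw [SA_eq]; exact a1) (by rw [SB_eq]; exact b1)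
  rw [SA_eq, SB_eq] at c2
  rw [sha2_eq]
  refine ⟨c1, ?_⟩
  calc _ ≤ ((SelB A B).ncard * (SelA A B).ncard) * 2 ^ (QQ A B).card := Nat.mul_le_mul_right _ c2
    _ = (SelB A B).ncard * ((SelA A B).ncard * 2 ^ (QQ A B).card) := by ring
    _ ≤ (SelS A B).ncard * (2 ^ (P1 A B).card * (SelS A B).ncard) := Nat.mul_le_mul b2 a2
    _ = _ := by ring

end Pool.Agent.H514.IS
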